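import Pool.Agent.Lib.UIPQ.A.Layer

/-!
# BadSet: few points have a small return probability

PROOF. N = |X|, T ≥ 1, δ ≤ T/16, δ > 0, θ = 2δ/T. Let x be in the set: ∑_y pt T x y ² = pt (2T) x x < θ/2 (pt_sq). The mass of
{y : pt T x y > θ} is < 1/2, and pt T x x ≤ 1/4: ∑_{y ≠ x, pt T x y ≤ θ} pt T x y ≥ 1/4 (`bs_row`). Every y ≠ x with
0 < pt T x y ≤ θ is in a layer j with (1/2)^(j+1) < θ. Let j1 = the least natural number with (1/2)^(j1+1) < θ. Summing over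
the x of the set and dividing by N: #/(4N) ≤ ∑_{j1 ≤ j < J} layer T j. With layer_le and the geometric series
# ≤ 4N (16 · 5 · 6 (δ fT)^(1/3) + 256 δ/T) ≤ C N ((δ fT)^(1/3) + δ/T), C = 3000.
-/

namespace UIPQ

open Finset

private theorem bs_row {X : Type} [Fintype X] [DecidableEq X] (m : CMap X) (T : ℕ) (x : X) {θ : ℝ} (hθ : 0 < θ)
    (h1 : m.pt (2 * T) x x < θ / 2) (h2 : θ / 2 ≤ 1 / 16) :
    1 / 4 ≤ ∑ y, if x ≠ y ∧ 0 < m.pt T x y ∧ m.pt T x y ≤ θ then m.pt T x y else 0 := by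
  rw [pt_sq] at h1
  have hxx : m.pt T x x < 1 / 4 := by
    have h3 : (m.pt T x x) ^ 2 ≤ ∑ y, (m.pt T x y) ^ 2 :=
      Finset.single_le_sum (f := fun y => (m.pt T x y) ^ 2) (fun y _ => sq_nonneg _) (Finset.mem_univ x)
    nlinarith [pt_nonneg m T x x]
  have hpt : ∀ y, m.pt T x y ≤ (if x ≠ y ∧ 0 < m.pt T x y ∧ m.pt T x y ≤ θ then m.pt T x y else 0) +
      (if x = y then m.pt T x y else 0) + (m.pt T x y) ^ 2 / θ := by
    intro y
    have h0 := pt_nonneg m T x y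
    have hsq : 0 ≤ (m.pt T x y) ^ 2 / θ := div_nonneg (sq_nonneg _) hθ.le
    by_cases hxy : x = y
    · rw [if_neg (by tauto), if_pos hxy]
      linarith
    · rw [if_neg hxy]
      by_cases hle : m.pt T x y ≤ θ
      · rcases h0.eq_or_lt with h | h
        · rw [← h] at hsq ⊢
          rw [if_neg (by simp)]
          linarith
        · rw [if_pos ⟨hxy, h, hle⟩]
          linarith
      · rw [if_neg (by tauto)]
        rw [not_le] at hle
        have h3 : m.pt T x y ≤ (m.pt T x y) ^ 2 / θ := by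
          rw [le_div_iff₀ hθ]
          nlinarith
        linarith
  have hsum := Finset.sum_le_sum fun y (_ : y ∈ (Finset.univ : Finset X)) => hpt y
  rw [pt_sum, Finset.sum_add_distrib, Finset.sum_add_distrib, Finset.sum_ite_eq, if_pos (Finset.mem_univ x),
    ← Finset.sum_div] at hsum
  have h3 : (∑ y, (m.pt T x y) ^ 2) / θ < 1 / 2 := by
    rw [div_lt_iff₀ hθ]
    linarith
  linarith

private theorem bs_geom {ρ : ℝ} (h0 : 0 ≤ ρ) (h1 : ρ ≤ 4 / 5) (a b : ℕ) :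
    ∑ j ∈ Ico a b, ρ ^ j ≤ 5 * ρ ^ a := by
  have key : ∀ b, a ≤ b → ∑ j ∈ Ico a b, ρ ^ j ≤ 5 * ρ ^ a - 5 * ρ ^ b := by
    intro b hb
    induction b, hb using Nat.le_induction with
    | base => simp
    | succ n hn ih =>
      rw [Finset.sum_Ico_succ_top hn]
      have h2 : 0 ≤ ρ ^ n := pow_nonneg h0 n
      have h3 : ρ ^ (n + 1) = ρ ^ n * ρ := pow_succ ρ n
      rw [h3]
      nlinarith
  rcases le_total a b with h | h
  · have h2 := key b h
    have h3 : 0 ≤ ρ ^ b := pow_nonneg h0 b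
    linarith
  · rw [Finset.Ico_eq_empty_of_le h, Finset.sum_empty]
    have h3 : 0 ≤ ρ ^ a := pow_nonneg h0 a
    linarith

private theorem bs_third_le {a b c : ℝ} (ha : 0 ≤ a) (hc : 0 ≤ c) (h : a ≤ c ^ 3 * b) (hb : 0 ≤ b) :
    a ^ (1 / 3 : ℝ) ≤ c * b ^ (1 / 3 : ℝ) := by
  have h1 : a ^ (1 / 3 : ℝ) ≤ (c ^ 3 * b) ^ (1 / 3 : ℝ) := Real.rpow_le_rpow ha h (by norm_num)
  rw [Real.mul_rpow (pow_nonneg hc 3) hb, ← Real.rpow_natCast c 3, ← Real.rpow_mul hc] at h1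
  have h2 : ((3 : ℕ) : ℝ) * (1 / 3 : ℝ) = 1 := by norm_num
  rwa [h2, Real.rpow_one] at h1

private theorem bs_layers {X : Type} [Fintype X] [DecidableEq X] (m : CMap X) (T : ℕ) {θ : ℝ} (j1 : ℕ)
    (hj1 : ∀ j, (1 / 2 : ℝ) ^ (j + 1) < θ → j1 ≤ j) : ∃ J : ℕ,
    ∑ x : X, ∑ y : X, (if x ≠ y ∧ 0 < m.pt T x y ∧ m.pt T x y ≤ θ then m.pt T x y else 0) ≤
      Fintype.card X * ∑ j ∈ Ico j1 J, m.layer T j := by
  have hex : ∀ x y : X, ∃ j : ℕ, 0 < m.pt T x y →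
      (1 / 2 : ℝ) ^ (j + 1) < m.pt T x y ∧ m.pt T x y ≤ (1 / 2 : ℝ) ^ j := by
    intro x y
    by_cases h : 0 < m.pt T x y
    · obtain ⟨n, hn⟩ := exists_nat_pow_near_of_lt_one h (pt_le_one m T x y) (by norm_num : (0 : ℝ) < 1 / 2)
        (by norm_num)
      exact ⟨n, fun _ => hn⟩
    · exact ⟨0, fun h' => absurd h' h⟩
  choose jf hjf using hex
  refine ⟨(univ.sup fun x : X => univ.sup fun y : X => jf x y) + 1, ?_⟩
  set J := (univ.sup fun x : X => univ.sup fun y : X => jf x y) + 1 with hJ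
  have hlt : ∀ x y, jf x y < J := by
    intro x y
    rw [hJ, Nat.lt_succ_iff]
    exact (Finset.le_sup (f := fun y => jf x y) (Finset.mem_univ y)).trans
      (Finset.le_sup (f := fun x => univ.sup fun y : X => jf x y) (Finset.mem_univ x))
  rcases Nat.eq_zero_or_pos (Fintype.card X) with h0 | hpos
  · have : IsEmpty X := Fintype.card_eq_zero_iff.1 h0
    simp
  have hN : (0 : ℝ) < Fintype.card X := by exact_mod_cast hpos
  have hl : ∀ j, m.layer T j = (∑ x : X, ∑ y : X,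
      if x ≠ y ∧ (1 / 2 : ℝ) ^ (j + 1) < m.pt T x y ∧ m.pt T x y ≤ (1 / 2 : ℝ) ^ j then m.pt T x y
      else 0) / (Fintype.card X : ℝ) := by
    intro j
    unfold CMap.layer
    congr!
  have hsum : (Fintype.card X : ℝ) * ∑ j ∈ Ico j1 J, m.layer T j = ∑ x : X, ∑ y : X, ∑ j ∈ Ico j1 J,
      if x ≠ y ∧ (1 / 2 : ℝ) ^ (j + 1) < m.pt T x y ∧ m.pt T x y ≤ (1 / 2 : ℝ) ^ j then m.pt T x y
      else 0 := by
    simp only [hl]
    rw [← Finset.sum_div, mul_div_cancel₀ _ hN.ne', Finset.sum_comm]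
    exact Finset.sum_congr rfl fun x _ => Finset.sum_comm
  rw [hsum]
  refine Finset.sum_le_sum fun x _ => Finset.sum_le_sum fun y _ => ?_
  have hnn : ∀ j ∈ Ico j1 J, 0 ≤ (if x ≠ y ∧ (1 / 2 : ℝ) ^ (j + 1) < m.pt T x y ∧
      m.pt T x y ≤ (1 / 2 : ℝ) ^ j then m.pt T x y else 0) := by
    intro j _
    split_ifs
    · exact pt_nonneg m T x y
    · exact le_rfl
  split_ifs with h
  · obtain ⟨h1, h2, h3⟩ := h
    have h4 := hjf x y h2
    have h5 : jf x y ∈ Ico j1 J := Finset.mem_Ico.2 ⟨hj1 _ (h4.1.trans_le h3), hlt x y⟩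
    have h6 := Finset.single_le_sum hnn h5
    rwa [if_pos ⟨h1, h4⟩] at h6
  · exact Finset.sum_nonneg hnn

theorem bad_set : ∃ C : ℝ, 0 < C ∧ ∀ (X : Type) [Fintype X] [DecidableEq X] (m : CMap X),
    m.Planar → ∀ (T : ℕ) (δ : ℝ), 1 ≤ T → 0 < δ → δ ≤ T / 16 →
      (({x : X | m.pt (2 * T) x x < δ / T} : Set X).ncard : ℝ) ≤
        C * Fintype.card X * ((δ * m.fT T) ^ (1 / 3 : ℝ) + δ / T) := by
  refine ⟨3000, by norm_num, ?_⟩
  intro X _ _ m hm T δ hT hδ hδT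
  have hT' : (0 : ℝ) < T := by exact_mod_cast hT
  set θ : ℝ := 2 * δ / T with hθdef
  have hθ : 0 < θ := by positivity
  have hθ2 : θ / 2 = δ / T := by rw [hθdef]; ring
  have hθ16 : θ / 2 ≤ 1 / 16 := by
    rw [hθ2, div_le_iff₀ hT']
    linarith
  have hex : ∃ n : ℕ, (1 / 2 : ℝ) ^ (n + 1) < θ := by
    obtain ⟨n, hn⟩ := exists_pow_lt_of_lt_one hθ (by norm_num : (1 / 2 : ℝ) < 1)
    refine ⟨n, lt_of_le_of_lt ?_ hn⟩
    exact pow_le_pow_of_le_one (by norm_num) (by norm_num) (Nat.le_succ n)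
  classical
  set j1 := Nat.find hex with hj1def
  have hj1 : (1 / 2 : ℝ) ^ (j1 + 1) < θ := Nat.find_spec hex
  obtain ⟨J, hJ⟩ := bs_layers m T (θ := θ) j1 (fun j hj => Nat.find_min' hex hj)
  set S : Finset X := univ.filter fun x => m.pt (2 * T) x x < δ / T with hS
  have hcard : (({x : X | m.pt (2 * T) x x < δ / T} : Set X).ncard : ℝ) = S.card := by
    have h1 : ({x : X | m.pt (2 * T) x x < δ / T} : Set X) = (S : Set X) := by
      ext x
      simp [hS]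
    rw [h1, Set.ncard_coe_finset]
  rw [hcard]
  set N : ℝ := (Fintype.card X : ℝ) with hN
  have hN0 : 0 ≤ N := Nat.cast_nonneg _
  -- lower bound
  have hlow : (S.card : ℝ) / 4 ≤ N * ∑ j ∈ Ico j1 J, m.layer T j := by
    refine le_trans ?_ hJ
    have h1 : (S.card : ℝ) / 4 = ∑ x ∈ S, (1 / 4 : ℝ) := by
      rw [Finset.sum_const, nsmul_eq_mul]
      ring
    rw [h1]
    refine (Finset.sum_le_sum fun x hx => ?_).trans
      (Finset.sum_le_sum_of_subset_of_nonneg (Finset.subset_univ S) fun x _ _ => ?_)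
    · refine bs_row m T x hθ ?_ hθ16
      rw [hθ2]
      exact (Finset.mem_filter.1 hx).2
    · refine Finset.sum_nonneg fun y _ => ?_
      split_ifs
      · exact pt_nonneg m T x y
      · exact le_rfl
  -- upper bound for the layers
  have hQ := Q_nonneg m T
  have hf := fT_nonneg m T
  have hQf := Q_le_fT m T hT
  set A : ℝ := (δ * m.fT T) ^ (1 / 3 : ℝ) with hA
  have hA0 : 0 ≤ A := Real.rpow_nonneg (mul_nonneg hδ.le hf) _
  set ρ : ℝ := (1 / 2 : ℝ) ^ (1 / 3 : ℝ) with hρ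
  have hρ0 : 0 ≤ ρ := Real.rpow_nonneg (by norm_num) _
  have hρ1 : ρ ≤ 4 / 5 := by
    have h1 := bs_third_le (a := 1 / 2) (b := 1) (c := 4 / 5) (by norm_num) (by norm_num) (by norm_num) (by norm_num)
    rwa [Real.one_rpow, mul_one] at h1
  have hpow : ∀ j : ℕ, ((1 / 2 : ℝ) ^ j * m.Q T) ^ (1 / 3 : ℝ) = m.Q T ^ (1 / 3 : ℝ) * ρ ^ j := by
    intro j
    rw [Real.mul_rpow (by positivity) hQ, mul_comm]
    congr 1
    rw [hρ, ← Real.rpow_natCast, ← Real.rpow_natCast, ← Real.rpow_mul (by norm_num), ← Real.rpow_mul (by norm_num),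
      mul_comm]
  have hup : ∑ j ∈ Ico j1 J, m.layer T j ≤ 480 * A + 640 * (δ / T) := by
    have h1 : ∑ j ∈ Ico j1 J, m.layer T j ≤
        ∑ j ∈ Ico j1 J, (16 * (m.Q T ^ (1 / 3 : ℝ) * ρ ^ j) + 32 * (1 / 2 : ℝ) ^ j) := by
      refine Finset.sum_le_sum fun j _ => ?_
      rw [← hpow]
      exact layer_le m hm T j
    refine h1.trans ?_
    rw [Finset.sum_add_distrib, ← Finset.mul_sum, ← Finset.mul_sum, ← Finset.mul_sum]
    have h2 := bs_geom hρ0 hρ1 j1 J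
    have h3 := bs_geom (ρ := 1 / 2) (by norm_num) (by norm_num) j1 J
    have h4 : (1 / 2 : ℝ) ^ j1 ≤ 4 * (δ / T) := by
      rw [pow_succ] at hj1
      have : θ = 2 * (δ / T) := by rw [← hθ2]; ring
      linarith
    have h5 : m.Q T ^ (1 / 3 : ℝ) * ρ ^ j1 ≤ 6 * A := by
      rw [← hpow]
      refine bs_third_le (by positivity) (by norm_num) ?_ (mul_nonneg hδ.le hf)
      calc (1 / 2 : ℝ) ^ j1 * m.Q T ≤ (4 * (δ / T)) * (40 * T * m.fT T) :=
            mul_le_mul h4 hQf hQ (by positivity)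
        _ = 160 * (δ * m.fT T) := by
            field_simp
            ring
        _ ≤ 6 ^ 3 * (δ * m.fT T) := by
            have := mul_nonneg hδ.le hf
            linarith
    have h6 : m.Q T ^ (1 / 3 : ℝ) * ∑ j ∈ Ico j1 J, ρ ^ j ≤ 5 * (6 * A) := by
      calc m.Q T ^ (1 / 3 : ℝ) * ∑ j ∈ Ico j1 J, ρ ^ j ≤ m.Q T ^ (1 / 3 : ℝ) * (5 * ρ ^ j1) :=
            mul_le_mul_of_nonneg_left h2 (Real.rpow_nonneg hQ _)
        _ = 5 * (m.Q T ^ (1 / 3 : ℝ) * ρ ^ j1) := by ring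
        _ ≤ 5 * (6 * A) := by linarith
    linarith
  have hd : 0 ≤ δ / T := by positivity
  have h7 : N * ∑ j ∈ Ico j1 J, m.layer T j ≤ N * (480 * A + 640 * (δ / T)) :=
    mul_le_mul_of_nonneg_left hup hN0
  have h8 : (S.card : ℝ) ≤ 4 * (N * (480 * A + 640 * (δ / T))) := by linarith
  refine h8.trans ?_
  nlinarith [mul_nonneg hN0 hA0, mul_nonneg hN0 hd]

end UIPQ
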