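import Mathlib

/-!
# BipCount: the linear bound for bipartite planar graphs, abstract form

PROOF. W = {w : I × J → ZMod 2 | w = 0 off Γ, all row sums and all column sums are 0}. W is the kernel of
a linear map from the functions supported on Γ (dimension m = |Γ|) to (I → F) × (J → F) (row sums, column sums);
the image satisfies (sum of the row sums) + (sum of the column sums) = 0, so it has dimension at most
p - 1 where p = |I| + |J| (if p = 0 then Γ is empty and we are done; p ≥ 1). So dim W ≥ m - p + 1.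
For c : R → F let ∂c (pr) = c (a pr) + c (b pr) for pr ∈ Γ, 0 otherwise. By h2, ∂c ∈ W; by h1 ∂ is onto W.
For ρ ∈ R let w_ρ = ∂(1_ρ). The w_ρ span W and their sum is ∂(1) = 0. Let N' be the number of ρ with w_ρ ≠ 0.
If N' = 0 then W = 0 and m ≤ p - 1. If N' ≥ 1, dim W ≤ N' - 1 (the nonzero w_ρ span W and they are linearly
dependent). Every nonzero w ∈ W has at least 3 elements in its support (even 4): take (i,j) in the support; the
row sum of i is 0 so there is j' ≠ j with (i,j') in the support; the column sum of j is 0, so there is i' ≠ i with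
(i',j) in the support; these three pairs are distinct. Each pair pr of Γ is in the support of at most two w_ρ
(ρ = a pr, b pr). Counting: 3 N' ≤ 2 m. So m - p + 1 ≤ N' - 1 ≤ 2m/3 - 1, hence m ≤ 3p - 6 ≤ 3p.
-/

namespace UIPQ

open Finset

section
variable {I J R : Type} [Fintype I] [Fintype J] [DecidableEq I] [DecidableEq J]

private def bcExt (Γ : Finset (I × J)) (w : {x // x ∈ Γ} → ZMod 2) (p : I × J) : ZMod 2 :=
  if h : p ∈ Γ then w ⟨p, h⟩ else 0

private lemma bcExt_add (Γ : Finset (I × J)) (v w : {x // x ∈ Γ} → ZMod 2) (p : I × J) :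
    bcExt Γ (v + w) p = bcExt Γ v p + bcExt Γ w p := by
  unfold bcExt; split_ifs <;> simp

private lemma bcExt_smul (Γ : Finset (I × J)) (r : ZMod 2) (w : {x // x ∈ Γ} → ZMod 2) (p : I × J) :
    bcExt Γ (r • w) p = r * bcExt Γ w p := by
  unfold bcExt; split_ifs <;> simp

private def bcL (Γ : Finset (I × J)) : ({x // x ∈ Γ} → ZMod 2) →ₗ[ZMod 2] (I ⊕ J → ZMod 2) where
  toFun w := Sum.elim (fun i => ∑ j, bcExt Γ w (i, j)) (fun j => ∑ i, bcExt Γ w (i, j))
  map_add' v w := by
    funext x
    rcases x with i | j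
    · simp [bcExt_add, Finset.sum_add_distrib]
    · simp [bcExt_add, Finset.sum_add_distrib]
  map_smul' r w := by
    funext x
    rcases x with i | j
    · simp [bcExt_smul, Finset.mul_sum]
    · simp [bcExt_smul, Finset.mul_sum]

private def bcD (Γ : Finset (I × J)) (a b : I × J → R) :
    (R → ZMod 2) →ₗ[ZMod 2] ({x // x ∈ Γ} → ZMod 2) where
  toFun c := fun x => c (a x) + c (b x)
  map_add' v w := by
    funext x
    simp only [Pi.add_apply]
    ring
  map_smul' r w := by
    funext x
    simp only [Pi.smul_apply, smul_eq_mul, RingHom.id_apply]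
    ring

private def bcS (K : Type) [Fintype K] : (K → ZMod 2) →ₗ[ZMod 2] ZMod 2 where
  toFun v := ∑ x, v x
  map_add' v w := by simp [Finset.sum_add_distrib]
  map_smul' r w := by simp [Finset.mul_sum]

private lemma bc_range_le (Γ : Finset (I × J)) :
    LinearMap.range (bcL Γ) ≤ LinearMap.ker (bcS (I ⊕ J)) := by
  rintro _ ⟨w, rfl⟩
  rw [LinearMap.mem_ker]
  show ∑ x, (bcL Γ w) x = 0
  rw [Fintype.sum_sum_type]
  show ∑ i, ∑ j, bcExt Γ w (i, j) + ∑ j, ∑ i, bcExt Γ w (i, j) = 0
  rw [Finset.sum_comm (f := fun j i => bcExt Γ w (i, j))]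
  exact CharTwo.add_self_eq_zero _

private lemma bc_ker_S (K : Type) [Fintype K] [Nonempty K] :
    Module.finrank (ZMod 2) (LinearMap.ker (bcS K)) + 1 = Fintype.card K := by
  classical
  have h := LinearMap.finrank_range_add_finrank_ker (bcS K)
  have hr : LinearMap.range (bcS K) = ⊤ := by
    rw [LinearMap.range_eq_top]
    intro t
    obtain ⟨k⟩ := (inferInstance : Nonempty K)
    refine ⟨Pi.single k t, ?_⟩
    show ∑ x, (Pi.single k t : K → ZMod 2) x = t
    simp
  rw [hr, finrank_top, Module.finrank_self, Module.finrank_fintype_fun_eq_card] at h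
  omega

private lemma bc_dim_ker (Γ : Finset (I × J)) [Nonempty (I ⊕ J)] :
    Γ.card + 1 ≤ Module.finrank (ZMod 2) (LinearMap.ker (bcL Γ)) +
      (Fintype.card I + Fintype.card J) := by
  have h1 := LinearMap.finrank_range_add_finrank_ker (bcL Γ)
  have h2 := Submodule.finrank_mono (bc_range_le Γ)
  have h3 := bc_ker_S (I ⊕ J)
  rw [Fintype.card_sum] at h3
  rw [Module.finrank_fintype_fun_eq_card, Fintype.card_coe] at h1
  omega

private lemma bcD_sum [Fintype R] [DecidableEq R] (Γ : Finset (I × J)) (a b : I × J → R) (c : R → ZMod 2) :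
    bcD Γ a b c = ∑ ρ, c ρ • bcD Γ a b (Pi.single ρ 1) := by
  have h : c = ∑ ρ, c ρ • (Pi.single ρ 1 : R → ZMod 2) := by
    funext x
    simp [Finset.sum_apply, Pi.single_apply]
  conv_lhs => rw [h]
  rw [map_sum]
  simp only [map_smul]

private lemma bc_dim_range [Fintype R] [DecidableEq R] (Γ : Finset (I × J)) (a b : I × J → R) (S : Finset R)
    (hS : ∀ ρ, ρ ∉ S → bcD Γ a b (Pi.single ρ 1) = 0) :
    Module.finrank (ZMod 2) (LinearMap.range (bcD Γ a b)) ≤ S.card - 1 := by
  classical
  rcases S.eq_empty_or_nonempty with h | ⟨ρ0, h0⟩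
  · subst h
    have : LinearMap.range (bcD Γ a b) = ⊥ := by
      rw [eq_bot_iff]
      rintro _ ⟨c, rfl⟩
      rw [Submodule.mem_bot, bcD_sum]
      apply Finset.sum_eq_zero
      intro ρ _
      rw [hS ρ (by simp), smul_zero]
    rw [this, finrank_bot]
    simp
  · have hle : LinearMap.range (bcD Γ a b) ≤
        Submodule.span (ZMod 2) (((S.erase ρ0).image (fun ρ => bcD Γ a b (Pi.single ρ 1)) :
          Finset ({x // x ∈ Γ} → ZMod 2)) : Set ({x // x ∈ Γ} → ZMod 2)) := by
      have hne : ∀ ρ, ρ ≠ ρ0 → bcD Γ a b (Pi.single ρ 1) ∈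
        Submodule.span (ZMod 2) (((S.erase ρ0).image (fun ρ => bcD Γ a b (Pi.single ρ 1)) :
          Finset ({x // x ∈ Γ} → ZMod 2)) : Set ({x // x ∈ Γ} → ZMod 2)) := by
        intro ρ hρ
        by_cases hm : ρ ∈ S
        · apply Submodule.subset_span
          rw [Finset.mem_coe, Finset.mem_image]
          exact ⟨ρ, Finset.mem_erase.2 ⟨hρ, hm⟩, rfl⟩
        · rw [hS ρ hm]
          exact Submodule.zero_mem _
      have hall : ∀ ρ, bcD Γ a b (Pi.single ρ 1) ∈
        Submodule.span (ZMod 2) (((S.erase ρ0).image (fun ρ => bcD Γ a b (Pi.single ρ 1)) :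
          Finset ({x // x ∈ Γ} → ZMod 2)) : Set ({x // x ∈ Γ} → ZMod 2)) := by
        intro ρ
        by_cases hρ : ρ = ρ0
        · subst hρ
          have h1 : bcD Γ a b (fun _ => 1) = 0 := by
            funext x
            show (1 : ZMod 2) + 1 = 0
            exact CharTwo.add_self_eq_zero _
          rw [bcD_sum] at h1
          simp only [one_smul] at h1
          rw [← Finset.add_sum_erase _ _ (Finset.mem_univ ρ)] at h1
          rw [eq_neg_of_add_eq_zero_left h1]
          apply Submodule.neg_mem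
          apply Submodule.sum_mem
          intro σ hσ
          exact hne σ (Finset.mem_erase.1 hσ).1
        · exact hne ρ hρ
      rintro _ ⟨c, rfl⟩
      rw [bcD_sum]
      apply Submodule.sum_mem
      intro ρ _
      exact Submodule.smul_mem _ _ (hall ρ)
    refine (Submodule.finrank_mono hle).trans ?_
    refine (finrank_span_finset_le_card _).trans ?_
    refine Finset.card_image_le.trans ?_
    rw [Finset.card_erase_of_mem h0]

end

private lemma bc_supp {I J : Type} [Fintype I] [Fintype J] [DecidableEq I] [DecidableEq J]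
    (Γ : Finset (I × J)) (g : I × J → ZMod 2) (hr : ∀ i, ∑ j, g (i, j) = 0) (hc : ∀ j, ∑ i, g (i, j) = 0)
    (h0 : ∀ p, p ∉ Γ → g p = 0) (p : I × J) (hp : g p ≠ 0) :
    3 ≤ (Γ.filter (fun q => g q ≠ 0)).card := by
  obtain ⟨i, j⟩ := p
  have hj : ∃ j', j' ≠ j ∧ g (i, j') ≠ 0 := by
    by_contra hcon
    push Not at hcon
    have := hr i
    rw [Finset.sum_eq_single j (fun b _ hb => hcon b hb) (fun h => absurd (Finset.mem_univ _) h)] at this
    exact hp this
  have hi : ∃ i', i' ≠ i ∧ g (i', j) ≠ 0 := by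
    by_contra hcon
    push Not at hcon
    have := hc j
    rw [Finset.sum_eq_single i (fun b _ hb => hcon b hb) (fun h => absurd (Finset.mem_univ _) h)] at this
    exact hp this
  obtain ⟨j', hj', hgj⟩ := hj
  obtain ⟨i', hi', hgi⟩ := hi
  have hmem : ∀ q, g q ≠ 0 → q ∈ Γ.filter (fun q => g q ≠ 0) := by
    intro q hq
    rw [Finset.mem_filter]
    refine ⟨?_, hq⟩
    by_contra hn
    exact hq (h0 q hn)
  have hsub : ({(i, j), (i, j'), (i', j)} : Finset (I × J)) ⊆ Γ.filter (fun q => g q ≠ 0) := by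
    intro q hq
    simp only [Finset.mem_insert, Finset.mem_singleton] at hq
    rcases hq with rfl | rfl | rfl
    · exact hmem _ hp
    · exact hmem _ hgj
    · exact hmem _ hgi
  have hcard : ({(i, j), (i, j'), (i', j)} : Finset (I × J)).card = 3 := by
    rw [Finset.card_eq_three]
    refine ⟨_, _, _, ?_, ?_, ?_, rfl⟩
    · intro h
      exact hj' (Prod.ext_iff.1 h).2.symm
    · intro h
      exact hi' (Prod.ext_iff.1 h).1.symm
    · intro h
      exact hi' (Prod.ext_iff.1 h).1.symm
  rw [← hcard]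
  exact Finset.card_le_card hsub

theorem bip_count {I J R : Type} [Fintype I] [Fintype J] [Fintype R] [DecidableEq I] [DecidableEq J]
    (Γ : Finset (I × J)) (a b : I × J → R)
    (h1 : ∀ w : I × J → ZMod 2, (∀ p, p ∉ Γ → w p = 0) → (∀ i, ∑ j, w (i, j) = 0) →
      (∀ j, ∑ i, w (i, j) = 0) → ∃ c : R → ZMod 2, ∀ p ∈ Γ, w p = c (a p) + c (b p))
    (h2 : ∀ c : R → ZMod 2,
      (∀ i, ∑ j, (if (i, j) ∈ Γ then c (a (i, j)) + c (b (i, j)) else 0) = 0) ∧
      ∀ j, ∑ i, (if (i, j) ∈ Γ then c (a (i, j)) + c (b (i, j)) else 0) = 0) :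
    Γ.card ≤ 3 * (Fintype.card I + Fintype.card J) := by
  classical
  rcases isEmpty_or_nonempty (I ⊕ J) with hE | hN
  · have : Γ = ∅ := by
      rw [Finset.eq_empty_iff_forall_notMem]
      intro p _
      exact hE.elim (Sum.inl p.1)
    rw [this]
    simp
  have hker : LinearMap.ker (bcL Γ) ≤ LinearMap.range (bcD Γ a b) := by
    intro w hw
    rw [LinearMap.mem_ker] at hw
    obtain ⟨c, hc⟩ := h1 (bcExt Γ w) (fun p hp => by unfold bcExt; rw [dif_neg hp])
      (fun i => congrFun hw (Sum.inl i)) (fun j => congrFun hw (Sum.inr j))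
    refine ⟨c, ?_⟩
    funext x
    have := hc x.1 x.2
    unfold bcExt at this
    rw [dif_pos x.2] at this
    exact this.symm
  set S : Finset R := Finset.univ.filter (fun ρ => bcD Γ a b (Pi.single ρ 1) ≠ 0) with hS
  have hdim := bc_dim_ker Γ
  have hle := Submodule.finrank_mono hker
  have hrg := bc_dim_range Γ a b S (fun ρ hρ => by
    by_contra hn
    exact hρ (Finset.mem_filter.2 ⟨Finset.mem_univ _, hn⟩))
  -- counting
  let g : R → I × J → ZMod 2 := fun ρ p =>
    if p ∈ Γ then (Pi.single ρ 1 : R → ZMod 2) (a p) + (Pi.single ρ 1 : R → ZMod 2) (b p) else 0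
  have h3 : ∀ ρ ∈ S, 3 ≤ (Γ.filter (fun q => g ρ q ≠ 0)).card := by
    intro ρ hρ
    have hne := (Finset.mem_filter.1 hρ).2
    obtain ⟨x, hx⟩ := Function.ne_iff.1 hne
    refine bc_supp Γ (g ρ) (h2 (Pi.single ρ 1)).1 (h2 (Pi.single ρ 1)).2 ?_ x.1 ?_
    · intro p hp
      show (if p ∈ Γ then _ else _) = _
      rw [if_neg hp]
    · show (if x.1 ∈ Γ then _ else _) ≠ _
      rw [if_pos x.2]
      exact hx
  have hcount : 3 * S.card ≤ 2 * Γ.card := by
    calc 3 * S.card = ∑ ρ ∈ S, 3 := by rw [Finset.sum_const, smul_eq_mul, mul_comm]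
      _ ≤ ∑ ρ ∈ S, (Γ.filter (fun q => g ρ q ≠ 0)).card := Finset.sum_le_sum h3
      _ = ∑ ρ ∈ S, ∑ q ∈ Γ, if g ρ q ≠ 0 then 1 else 0 := by
          apply Finset.sum_congr rfl
          intro ρ _
          rw [Finset.card_filter]
      _ ≤ ∑ ρ, ∑ q ∈ Γ, (if g ρ q ≠ 0 then 1 else 0) :=
          Finset.sum_le_sum_of_subset (Finset.subset_univ _)
      _ = ∑ q ∈ Γ, ∑ ρ, (if g ρ q ≠ 0 then 1 else 0) := Finset.sum_comm
      _ ≤ ∑ q ∈ Γ, 2 := by
          apply Finset.sum_le_sum
          intro q _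
          rw [← Finset.card_filter]
          refine (Finset.card_le_card (t := {a q, b q}) ?_).trans Finset.card_le_two
          intro ρ hρ
          rw [Finset.mem_filter] at hρ
          have hgq := hρ.2
          rw [Finset.mem_insert, Finset.mem_singleton]
          by_contra hcon
          push Not at hcon
          apply hgq
          show (if q ∈ Γ then (Pi.single ρ 1 : R → ZMod 2) (a q) + (Pi.single ρ 1 : R → ZMod 2) (b q)
            else 0) = 0
          rw [Pi.single_apply, Pi.single_apply, if_neg hcon.1.symm, if_neg hcon.2.symm]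
          simp
      _ = 2 * Γ.card := by rw [Finset.sum_const, smul_eq_mul, mul_comm]
  omega

end UIPQ
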