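import Pool.Agent.Lib.UIPQ.A.ThmA

/-!
# CapH: most darts of a planar map have small capacity (end of part A)

PROOF. `EH_eq`: EH χ = 4 ∑_x χ x (χ x - (∑ i, χ (u_i x))/4) : expand ∑_x ∑_i (χ x - χ (u_i x))² (Equiv.sum_comp; i = 0
contributes 0, i = 1: ∑ (χ - χ∘k)², i = 2, 3 both ∑ (χ - χ∘r)²).
`green_l2`: ∑_v (green T x v)² = ∑_{s,t<T} pt (s+t) x x (pt_symm, pt_add) ≤ T ∑_{u<2T} pt u x x ≤ 4 T green T x x:
∑_{u<2T} pt u x x ≤ 2 ∑_{s<T} pt (2s) x x (pt_odd_le), and ∑_{s<T} pt(2s) x x ≤ 2 ∑_{s<⌈T/2⌉} pt (2s) x x ≤ 2 green T x x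
by monotonicity (pt_even_anti).
`capH_le`: let T ≥ 1, g = green T x ·, g x ≥ 1 (pt 0 x x = 1). χ = g/g x: χ x = 1, EH χ = 4 ∑_v g v (1_x(v) - pt T x v)/(g x)² ≤
4/g x (EH_eq, green_eq, pt ≥ 0) and ∑ χ² ≤ 4 T/g x. So capH lam x ≤ (4 + 4 lam T)/g x. (capH is the infimum of a set of
nonnegative numbers: csInf_le.)
`typical_capH`: 0 < lam ≤ 1/2, T = ⌈1/lam⌉ ≥ 2, lam T ≤ 1 + lam ≤ 3/2: capH ≤ 10/green T x x, and `thmA`: off a set of at most
ε|X| points green T x x ≥ c log T ≥ c log(1/lam). C = 10/c.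
-/

namespace UIPQ

open Finset

variable {X : Type} [Fintype X]

theorem EH_nonneg (m : CMap X) (χ : X → ℝ) : 0 ≤ m.EH χ := by
  unfold CMap.EH
  positivity

private theorem sq_perm (σ : Equiv.Perm X) (χ : X → ℝ) :
    ∑ x, (χ x - χ (σ x)) ^ 2 = 2 * ∑ x, χ x ^ 2 - 2 * ∑ x, χ x * χ (σ x) := by
  have h1 : ∑ x, (χ (σ x)) ^ 2 = ∑ x, χ x ^ 2 := Equiv.sum_comp σ (fun x => χ x ^ 2)
  have h2 : ∑ x, (χ x - χ (σ x)) ^ 2 =
      ∑ x, (χ x ^ 2 - 2 * (χ x * χ (σ x)) + χ (σ x) ^ 2) := by
    refine Finset.sum_congr rfl fun x _ => by ring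
  rw [h2, Finset.sum_add_distrib, Finset.sum_sub_distrib, ← Finset.mul_sum, h1]
  ring

theorem EH_eq (m : CMap X) (χ : X → ℝ) :
    m.EH χ = 4 * ∑ x, χ x * (χ x - (∑ i : Fin 4, χ (m.u i x)) / 4) := by
  have hu0 : ∀ x, m.u 0 x = x := fun x => rfl
  have hu1 : ∀ x, m.u 1 x = m.k x := fun x => rfl
  have hu2 : ∀ x, m.u 2 x = m.r x := fun x => rfl
  have hu3 : ∀ x, m.u 3 x = m.r⁻¹ x := fun x => rfl
  have hinv : ∑ x, χ x * χ (m.r⁻¹ x) = ∑ x, χ x * χ (m.r x) := by
    rw [← Equiv.sum_comp m.r (fun x => χ x * χ (m.r⁻¹ x))]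
    refine Finset.sum_congr rfl fun x _ => ?_
    rw [show m.r⁻¹ (m.r x) = x from m.r.symm_apply_apply x, mul_comm]
  have hR : ∑ x, χ x * (χ x - (∑ i : Fin 4, χ (m.u i x)) / 4) =
      ∑ x, (3 / 4 * χ x ^ 2 - 1 / 4 * (χ x * χ (m.k x)) - 1 / 4 * (χ x * χ (m.r x))
        - 1 / 4 * (χ x * χ (m.r⁻¹ x))) := by
    refine Finset.sum_congr rfl fun x _ => ?_
    rw [Fin.sum_univ_four, hu0, hu1, hu2, hu3]
    ring
  rw [hR]
  simp only [Finset.sum_sub_distrib, ← Finset.mul_sum]
  rw [hinv]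
  unfold CMap.EH
  rw [sq_perm, sq_perm]
  ring

private theorem green_nonneg (m : CMap X) (T : ℕ) (x v : X) : 0 ≤ m.green T x v :=
  Finset.sum_nonneg fun t _ => pt_nonneg m t x v

private theorem green_ge_one (m : CMap X) (T : ℕ) (hT : 1 ≤ T) (x : X) :
    1 ≤ m.green T x x := by
  classical
  unfold CMap.green
  have h0 : m.pt 0 x x = 1 := by rw [m.pt_zero]; simp
  calc (1 : ℝ) = m.pt 0 x x := h0.symm
    _ ≤ ∑ t ∈ range T, m.pt t x x :=
        Finset.single_le_sum (f := fun t => m.pt t x x) (fun t _ => pt_nonneg m t x x)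
          (Finset.mem_range.2 (by omega))

/-- the sum over the even times below `2n` is at most twice the sum over all the times `< n` -/
private theorem even_sum (m : CMap X) (x : X) (n : ℕ) :
    ∑ s ∈ range n, m.pt (2 * s) x x ≤ 2 * ∑ t ∈ range n, m.pt t x x := by
  have key : ∀ s, m.pt (2 * s) x x ≤ m.pt (2 * (s / 2)) x x := by
    intro s
    exact pt_even_anti m x (by omega : s / 2 ≤ s)
  -- by strong induction in steps of two
  have main : ∀ j, (∑ s ∈ range (2 * j), m.pt (2 * s) x x ≤ 2 * ∑ t ∈ range (2 * j), m.pt t x x) ∧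
      (∑ s ∈ range (2 * j + 1), m.pt (2 * s) x x ≤
        2 * ∑ t ∈ range (2 * j + 1), m.pt t x x) := by
    intro j
    have e1 : ∑ s ∈ range (2 * j), m.pt (2 * s) x x ≤ 2 * ∑ i ∈ range j, m.pt (2 * i) x x := by
      induction j with
      | zero => simp
      | succ j ih =>
        rw [show 2 * (j + 1) = 2 * j + 1 + 1 by ring, Finset.sum_range_succ,
          Finset.sum_range_succ, Finset.sum_range_succ (fun i => m.pt (2 * i) x x) j]
        have h1 := key (2 * j)
        have h2 := key (2 * j + 1)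
        rw [show 2 * j / 2 = j by omega] at h1
        rw [show (2 * j + 1) / 2 = j by omega] at h2
        linarith
    have e2 : ∑ i ∈ range j, m.pt (2 * i) x x ≤ ∑ t ∈ range (2 * j), m.pt t x x := by
      clear e1
      induction j with
      | zero => simp
      | succ j ih =>
        rw [Finset.sum_range_succ, show 2 * (j + 1) = 2 * j + 1 + 1 by ring,
          Finset.sum_range_succ, Finset.sum_range_succ]
        have := pt_nonneg m (2 * j + 1) x x
        linarith
    refine ⟨by linarith, ?_⟩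
    rw [Finset.sum_range_succ, Finset.sum_range_succ (fun t => m.pt t x x)]
    have h1 := key (2 * j)
    rw [show 2 * j / 2 = j by omega] at h1
    have := pt_nonneg m (2 * j) x x
    linarith
  rcases Nat.even_or_odd' n with ⟨j, rfl | rfl⟩
  · exact (main j).1
  · exact (main j).2

private theorem two_sum (m : CMap X) (x : X) (n : ℕ) :
    ∑ u ∈ range (2 * n), m.pt u x x ≤ 2 * ∑ s ∈ range n, m.pt (2 * s) x x := by
  induction n with
  | zero => simp
  | succ n ih =>
    rw [show 2 * (n + 1) = 2 * n + 1 + 1 by ring, Finset.sum_range_succ,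
      Finset.sum_range_succ, Finset.sum_range_succ (fun s => m.pt (2 * s) x x) n]
    have := pt_odd_le m n x
    linarith

theorem green_l2 (m : CMap X) (T : ℕ) (x : X) :
    ∑ v, (m.green T x v) ^ 2 ≤ 4 * T * m.green T x x := by
  have h1 : ∑ v, (m.green T x v) ^ 2 = ∑ s ∈ range T, ∑ t ∈ range T, m.pt (s + t) x x := by
    have : ∀ v, (m.green T x v) ^ 2 =
        ∑ s ∈ range T, ∑ t ∈ range T, m.pt s x v * m.pt t v x := by
      intro v
      unfold CMap.green
      rw [pow_two, Finset.sum_mul_sum]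
      refine Finset.sum_congr rfl fun s _ => Finset.sum_congr rfl fun t _ => ?_
      rw [pt_symm m t x v]
    simp only [this]
    rw [Finset.sum_comm]
    refine Finset.sum_congr rfl fun s _ => ?_
    rw [Finset.sum_comm]
    refine Finset.sum_congr rfl fun t _ => ?_
    exact pt_add m s t x x
  have h2 : ∀ s ∈ range T, ∑ t ∈ range T, m.pt (s + t) x x ≤ ∑ u ∈ range (2 * T), m.pt u x x := by
    intro s hs
    rw [Finset.mem_range] at hs
    have h3 : ∑ t ∈ range T, m.pt (s + t) x x = ∑ u ∈ Finset.Ico s (s + T), m.pt u x x := by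
      rw [Finset.sum_Ico_eq_sum_range]
      simp
    rw [h3]
    refine Finset.sum_le_sum_of_subset_of_nonneg ?_ (fun u _ _ => pt_nonneg m u x x)
    intro u hu
    rw [Finset.mem_Ico] at hu
    rw [Finset.mem_range]
    omega
  have h4 := two_sum m x T
  have h5 := even_sum m x T
  have h6 : ∑ s ∈ range T, ∑ t ∈ range T, m.pt (s + t) x x ≤
      ∑ s ∈ range T, ∑ u ∈ range (2 * T), m.pt u x x := Finset.sum_le_sum h2
  rw [Finset.sum_const, Finset.card_range, nsmul_eq_mul] at h6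
  rw [h1]
  have h7 : (T : ℝ) * ∑ u ∈ range (2 * T), m.pt u x x ≤ T * (4 * m.green T x x) := by
    refine mul_le_mul_of_nonneg_left ?_ (Nat.cast_nonneg _)
    unfold CMap.green
    linarith
  linarith

theorem capH_le (m : CMap X) (lam : ℝ) (hl : 0 ≤ lam) (T : ℕ) (hT : 1 ≤ T) (x : X) :
    m.capH lam x ≤ (4 + 4 * lam * T) / m.green T x x := by
  classical
  set g : X → ℝ := fun v => m.green T x v with hg
  have hgx : 1 ≤ g x := green_ge_one m T hT x
  have hgx0 : 0 < g x := by linarith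
  have hg0 : ∀ v, 0 ≤ g v := fun v => green_nonneg m T x v
  have hbdd : BddBelow {e | ∃ χ : X → ℝ, χ x = 1 ∧ e = m.EH χ + lam * ∑ y : X, χ y ^ 2} := by
    refine ⟨0, ?_⟩
    rintro e ⟨χ, -, rfl⟩
    have h1 := EH_nonneg m χ
    have h2 : 0 ≤ ∑ y : X, χ y ^ 2 := Finset.sum_nonneg fun y _ => sq_nonneg _
    have := mul_nonneg hl h2
    linarith
  have h1 : m.capH lam x ≤ m.EH (fun v => g v / g x) + lam * ∑ y : X, (g y / g x) ^ 2 := by
    unfold CMap.capH
    exact csInf_le hbdd ⟨fun v => g v / g x, div_self hgx0.ne', rfl⟩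
  have hE : m.EH (fun v => g v / g x) ≤ 4 / g x := by
    rw [EH_eq]
    have h3 : ∀ v, (g v / g x) * (g v / g x - (∑ i : Fin 4, g (m.u i v) / g x) / 4) ≤
        if x = v then 1 / g x else 0 := by
      intro v
      have h4 := green_eq m T x v
      have h5 : g v / g x - (∑ i : Fin 4, g (m.u i v) / g x) / 4 =
          ((if x = v then 1 else 0) - m.pt T x v) / g x := by
        rw [← h4, ← Finset.sum_div]
        change _ = (g v - (∑ i : Fin 4, g (m.u i v)) / 4) / g x
        ring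
      rw [h5]
      have h6 := pt_nonneg m T x v
      split_ifs with h
      · subst h
        rw [div_self hgx0.ne', one_mul]
        refine div_le_div_of_nonneg_right ?_ hgx0.le
        linarith
      · have h7 : 0 ≤ g v / g x := div_nonneg (hg0 v) hgx0.le
        have h8 : (0 - m.pt T x v) / g x ≤ 0 := div_nonpos_of_nonpos_of_nonneg (by linarith) hgx0.le
        exact mul_nonpos_of_nonneg_of_nonpos h7 h8
    have h9 : ∑ v, (g v / g x) * (g v / g x - (∑ i : Fin 4, g (m.u i v) / g x) / 4) ≤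
        ∑ v, if x = v then 1 / g x else 0 := Finset.sum_le_sum fun v _ => h3 v
    rw [Finset.sum_ite_eq] at h9
    simp only [Finset.mem_univ, if_true] at h9
    calc _ ≤ 4 * (1 / g x) := by linarith
      _ = 4 / g x := by ring
  have hS : ∑ y : X, (g y / g x) ^ 2 ≤ 4 * T / g x := by
    have h10 : ∑ y : X, (g y / g x) ^ 2 = (∑ y : X, g y ^ 2) / g x ^ 2 := by
      rw [Finset.sum_div]
      refine Finset.sum_congr rfl fun y _ => by rw [div_pow]
    rw [h10, div_le_div_iff₀ (by positivity) hgx0]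
    have h11 : ∑ y : X, g y ^ 2 ≤ 4 * T * g x := green_l2 m T x
    calc (∑ y : X, g y ^ 2) * g x ≤ (4 * T * g x) * g x :=
          mul_le_mul_of_nonneg_right h11 hgx0.le
      _ = 4 * T * g x ^ 2 := by ring
  calc m.capH lam x ≤ 4 / g x + lam * (4 * T / g x) := by
        have := mul_le_mul_of_nonneg_left hS hl
        linarith
    _ = (4 + 4 * lam * T) / m.green T x x := by
        change _ = (4 + 4 * lam * T) / g x
        ring

theorem typical_capH : ∀ ε : ℝ, 0 < ε → ∃ C : ℝ, 0 < C ∧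
    ∀ (X : Type) [Fintype X] [DecidableEq X] (m : CMap X), m.Planar →
      ∀ lam : ℝ, 0 < lam → lam ≤ 1 / 2 →
        (({x : X | C / Real.log (1 / lam) < m.capH lam x} : Set X).ncard : ℝ) ≤
          ε * Fintype.card X := by
  intro ε hε
  obtain ⟨c, hc, hA⟩ := thmA ε hε
  refine ⟨10 / c, by positivity, ?_⟩
  intro X _ _ m hm lam hl hl2
  have h2le : (2 : ℝ) ≤ 1 / lam := by
    rw [le_div_iff₀ hl]
    linarith
  obtain ⟨T, hTdef⟩ : ∃ T : ℕ, T = ⌈1 / lam⌉₊ := ⟨_, rfl⟩
  have hT1 : 1 / lam ≤ T := by rw [hTdef]; exact Nat.le_ceil _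
  have hT2 : (T : ℝ) < 1 / lam + 1 := by
    rw [hTdef]; exact Nat.ceil_lt_add_one (by positivity)
  have hT3 : 2 ≤ T := by
    have : (2 : ℝ) ≤ T := le_trans h2le hT1
    exact_mod_cast this
  refine le_trans ?_ (hA X m hm T hT3)
  rw [Nat.cast_le]
  refine Set.ncard_le_ncard ?_ (Set.toFinite _)
  intro x hx
  change 10 / c / Real.log (1 / lam) < m.capH lam x at hx
  change m.green T x x < c * Real.log T
  by_contra hcon
  rw [not_lt] at hcon
  have hlog : 0 < Real.log (1 / lam) := Real.log_pos (by linarith)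
  have hlogT : Real.log (1 / lam) ≤ Real.log T := Real.log_le_log (by positivity) hT1
  have hge : c * Real.log (1 / lam) ≤ m.green T x x :=
    le_trans (mul_le_mul_of_nonneg_left hlogT hc.le) hcon
  have hpos : 0 < c * Real.log (1 / lam) := mul_pos hc hlog
  have h1 := capH_le m lam hl.le T (by omega) x
  have hlT : lam * T ≤ 3 / 2 := by
    have h3 : lam * T ≤ lam * (1 / lam + 1) := mul_le_mul_of_nonneg_left hT2.le hl.le
    have h4 : lam * (1 / lam + 1) = 1 + lam := by field_simp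
    rw [h4] at h3
    linarith
  have h5 : (4 + 4 * lam * T) / m.green T x x ≤ 10 / (c * Real.log (1 / lam)) := by
    refine div_le_div₀ (by norm_num) (by nlinarith) hpos hge
  have h6 : 10 / (c * Real.log (1 / lam)) = 10 / c / Real.log (1 / lam) := by
    rw [div_div]
  rw [h6] at h5
  linarith

end UIPQ
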