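import Pool.Agent.Lib.UIPQ.FDefs

/-!
# Chain: paths as mod 2 chains, and parity of a cycle on the boundary of a set

A mod 2 chain of the dart graph is a pair (zK, zR): zK x is the value on the edge {x, k x} (so zK (k x) = zK x), zR x is the
value on the edge {x, r x}. Its boundary at x is zK x + zR x + zR (r⁻¹ x).

PROOF. `path_chain`: induction along the path of `HConn` from s to s0 (Relation.ReflTransGen, `head_induction_on` or
`trans_induction_on`); for a step from a to b = k a (a ≠ b) add 1 to zK at a and at b; for a step from a to b = r a add 1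
to zR at a; for a step from a to b with a = r b add 1 to zR at b. (If b = a, e.g. r a = a, do nothing or the same: zR a + zR (r⁻¹ a)
= 2 = 0.) The boundary changes by [x = a] + [x = b].
`cut_parity`: sum the equation hz over x ∈ S: ∑_{x∈S} zK x = ∑_{x ∈ S, k x ∉ S} zK x (the x ∈ S with k x ∈ S are exchanged by the
involution k without fixed points, zK (k x) = zK x: `Finset.sum_involution`), and
∑_{x∈S} zR x + ∑_{x∈S} zR (r⁻¹ x) = ∑_{x ∈ S} zR x + ∑_{r x ∈ S} zR x = the sum over the x with exactly one of x, r x in S.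
-/

namespace UIPQ

open Finset

variable {X : Type} [Fintype X] [DecidableEq X]

theorem path_chain (m : CMap X) (S : Set X) (hS : m.HConn S) (s s0 : X) (hs : s ∈ S) (hs0 : s0 ∈ S) :
    ∃ zK zR : X → ZMod 2, (∀ x, zK (m.k x) = zK x) ∧ (∀ x, zK x ≠ 0 → x ∈ S ∧ m.k x ∈ S) ∧
      (∀ x, zR x ≠ 0 → x ∈ S ∧ m.r x ∈ S) ∧
      ∀ x, zK x + zR x + zR (m.r.symm x) = (if x = s then 1 else 0) + (if x = s0 then 1 else 0) := by
  have h := hS s hs s0 hs0
  clear hs
  induction h using Relation.ReflTransGen.head_induction_on with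
  | refl =>
    refine ⟨fun _ => 0, fun _ => 0, fun _ => rfl, fun x h => absurd rfl h, fun x h => absurd rfl h, fun x => ?_⟩
    have h7 : ((if x = s0 then 1 else 0 : ZMod 2)) + (if x = s0 then 1 else 0) = 0 := CharTwo.add_self_eq_zero _
    rw [h7, add_zero, add_zero]
  | @head a b hab _ ih =>
    obtain ⟨ha, hb, hadj⟩ := hab
    obtain ⟨zK, zR, h1, h2, h3, h4⟩ := ih
    rcases hadj with hadj | hadj | hadj
    · refine ⟨fun x => zK x + ((if x = a then 1 else 0) + if x = b then 1 else 0), zR, fun x => ?_, fun x hx => ?_, h3,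
        fun x => ?_⟩
      · have e1 : (m.k x = a) ↔ (x = b) := by
          rw [hadj]
          exact ⟨fun h => by rw [← h, m.k_k], fun h => by rw [h, m.k_k]⟩
        have e2 : (m.k x = b) ↔ (x = a) := by
          rw [hadj]
          exact ⟨fun h => m.k.injective h, fun h => by rw [h]⟩
        simp only [h1, e1, e2]
        ring
      · by_cases h5 : zK x = 0
        · have h6 : x = a ∨ x = b := by
            by_contra hc
            push Not at hc
            apply hx
            simp [h5, hc.1, hc.2]
          rcases h6 with rfl | rfl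
          · exact ⟨ha, hadj ▸ hb⟩
          · refine ⟨hb, ?_⟩
            rw [hadj, m.k_k]
            exact ha
        · exact h2 x h5
      · have h5 := h4 x
        have h6 : zK x + ((if x = a then 1 else 0) + if x = b then 1 else 0) + zR x + zR (m.r.symm x) =
            (zK x + zR x + zR (m.r.symm x)) + ((if x = a then 1 else 0) + if x = b then 1 else 0) := by ring
        rw [h6, h5]
        have h7 : ((if x = b then 1 else 0 : ZMod 2)) + (if x = b then 1 else 0) = 0 := CharTwo.add_self_eq_zero _
        linear_combination h7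
    · refine ⟨zK, fun x => zR x + (if x = a then 1 else 0), h1, h2, fun x hx => ?_, fun x => ?_⟩
      · by_cases h5 : zR x = 0
        · have h6 : x = a := by
            by_contra hc
            apply hx
            simp [h5, hc]
          rw [h6]
          exact ⟨ha, hadj ▸ hb⟩
        · exact h3 x h5
      · have h5 := h4 x
        have e1 : (m.r.symm x = a) ↔ (x = b) := by
          rw [hadj, Equiv.symm_apply_eq]
        simp only [e1]
        have h7 : ((if x = b then 1 else 0 : ZMod 2)) + (if x = b then 1 else 0) = 0 := CharTwo.add_self_eq_zero _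
        linear_combination h5 + h7
    · refine ⟨zK, fun x => zR x + (if x = b then 1 else 0), h1, h2, fun x hx => ?_, fun x => ?_⟩
      · by_cases h5 : zR x = 0
        · have h6 : x = b := by
            by_contra hc
            apply hx
            simp [h5, hc]
          rw [h6]
          exact ⟨hb, hadj ▸ ha⟩
        · exact h3 x h5
      · have h5 := h4 x
        have e1 : (m.r.symm x = b) ↔ (x = a) := by
          rw [hadj, Equiv.symm_apply_eq]
        simp only [e1]
        have h7 : ((if x = b then 1 else 0 : ZMod 2)) + (if x = b then 1 else 0) = 0 := CharTwo.add_self_eq_zero _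
        linear_combination h5 + h7

theorem cut_parity (m : CMap X) (zK zR : X → ZMod 2) (hk : ∀ x, zK (m.k x) = zK x)
    (hz : ∀ x, zK x + zR x + zR (m.r.symm x) = 0) (S : Finset X) :
    ∑ x ∈ univ.filter (fun x => x ∈ S ∧ m.k x ∉ S), zK x +
      ∑ x ∈ univ.filter (fun x => ¬ (x ∈ S ↔ m.r x ∈ S)), zR x = 0 := by
  have hS : ∀ g : X → ZMod 2, ∑ x ∈ S, g x = ∑ x, if x ∈ S then g x else 0 := by
    intro g
    rw [Finset.sum_ite_mem, Finset.univ_inter]
  have h0 : ∑ x ∈ S, zK x + ∑ x ∈ S, zR x + ∑ x ∈ S, zR (m.r.symm x) = 0 := by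
    rw [← Finset.sum_add_distrib, ← Finset.sum_add_distrib]
    exact Finset.sum_eq_zero fun x _ => hz x
  have h1 : ∑ x ∈ S, zK x = ∑ x ∈ univ.filter (fun x => x ∈ S ∧ m.k x ∉ S), zK x := by
    have e1 : ∑ x ∈ univ.filter (fun x => x ∈ S ∧ m.k x ∈ S), zK x = 0 := by
      refine Finset.sum_involution (fun x _ => m.k x) ?_ ?_ ?_ ?_
      · intro x _
        rw [hk, CharTwo.add_self_eq_zero]
      · intro x _ _
        exact m.k_ne x
      · intro x hx
        rw [Finset.mem_filter] at hx ⊢
        exact ⟨Finset.mem_univ _, hx.2.2, by rw [m.k_k]; exact hx.2.1⟩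
      · intro x _
        exact m.k_k x
    have e2 : ∑ x ∈ S, zK x = ∑ x ∈ univ.filter (fun x => x ∈ S ∧ m.k x ∈ S), zK x +
        ∑ x ∈ univ.filter (fun x => x ∈ S ∧ m.k x ∉ S), zK x := by
      rw [hS, Finset.sum_filter, Finset.sum_filter, ← Finset.sum_add_distrib]
      refine Finset.sum_congr rfl fun x _ => ?_
      by_cases a1 : x ∈ S <;> by_cases a2 : m.k x ∈ S <;> simp [a1, a2]
    rw [e2, e1, zero_add]
  have h2 : ∑ x ∈ S, zR x + ∑ x ∈ S, zR (m.r.symm x) =
      ∑ x ∈ univ.filter (fun x => ¬ (x ∈ S ↔ m.r x ∈ S)), zR x := by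
    rw [hS, hS, ← Equiv.sum_comp m.r (fun x => if x ∈ S then zR (m.r.symm x) else 0), ← Finset.sum_add_distrib,
      Finset.sum_filter]
    refine Finset.sum_congr rfl fun x _ => ?_
    rw [Equiv.symm_apply_apply]
    by_cases a1 : x ∈ S <;> by_cases a2 : m.r x ∈ S <;> simp [a1, a2, CharTwo.add_self_eq_zero]
  rw [← h1, ← h2, ← add_assoc]
  exact h0

end UIPQ
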