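import Pool.Agent.Lib.UIPQ.A.Entropy

/-!
# Cong: the mean square congestion is controlled by the entropy increments

PROOF. cong T v ≤ sum_{t<T} c_t(v) with c_t(v) = sum_x sum_i |a_0 - a_i|/4, a_0 = pt t x v, a_i = pt t x (u_i v)
(triangle inequality, green = sum of pt). |a_0 - a_i| = |√a_0 - √a_i| (√a_0 + √a_i), so by Cauchy-Schwarz over
(x,i): c_t(v)² ≤ (sum_x sum_i (√a_0 - √a_i)²/4) (sum_x sum_i (√a_0 + √a_i)²/4), and the second factor is
≤ sum_x sum_i (2 a_0 + 2 a_i)/4 = 4 (pt_sum_left: sum_x pt t x v = 1). Summing over v with `entropy_production`: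
sum_v c_t(v)² ≤ 40 N dent t, N = |X|. Minkowski in l2(v): sqrt(sum_v (sum_t c_t(v))²) ≤ sum_t sqrt(40 N dent t).
[Minkowski can be avoided: (sum_t c_t)² ≤ (sum_t sqrt(e_t)) (sum_t c_t²/ sqrt(e_t)) for e_t = dent t > 0; the c_t
with e_t = 0 vanish. Or use the norm of EuclideanSpace, or Finset.inner_mul_le_norm_mul_norm.]
So sum_v (cong T v)² ≤ 40 N (sum_{t<T} √(dent t))², and Q T = that / N.
`fT`: Cauchy-Schwarz (sum √d_t)² ≤ (sum_{t<T} (t+1)^(-1/2)) (sum (t+1)^(1/2) d_t), the first factor is ≤ 2 √T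
(induction: 1/√(t+1) ≤ 2(√(t+1) - √t)), so Q T ≤ 40 T fT(T), where fT T = (2/√T) sum_{t<T} √(t+1) dent t (T ≥ 1).
`fT_le`: √(t+1) ≤ √T for t < T.
-/

namespace UIPQ

open Finset

variable {X : Type} [Fintype X]

/-- the congestion at time `t` -/
private noncomputable def cg (m : CMap X) (t : ℕ) (v : X) : ℝ :=
  ∑ x : X, ∑ i : Fin 4, |m.pt t x v - m.pt t x (m.u i v)| / 4

private theorem cg_nonneg (m : CMap X) (t : ℕ) (v : X) : 0 ≤ cg m t v :=
  sum_nonneg fun _ _ => sum_nonneg fun _ _ => div_nonneg (abs_nonneg _) (by norm_num)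

private theorem cong_le (m : CMap X) (T : ℕ) (v : X) : m.cong T v ≤ ∑ t ∈ range T, cg m t v := by
  unfold cg
  rw [sum_comm]
  unfold CMap.cong
  refine sum_le_sum fun x _ => ?_
  rw [sum_comm]
  refine sum_le_sum fun i _ => ?_
  rw [← sum_div]
  refine div_le_div_of_nonneg_right ?_ (by norm_num)
  unfold CMap.green
  rw [← sum_sub_distrib]
  exact abs_sum_le_sum_abs _ _

private theorem cong_nonneg (m : CMap X) (T : ℕ) (v : X) : 0 ≤ m.cong T v :=
  sum_nonneg fun _ _ => sum_nonneg fun _ _ => div_nonneg (abs_nonneg _) (by norm_num)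

private theorem cg_sq (m : CMap X) (t : ℕ) (v : X) : (cg m t v) ^ 2 ≤
    4 * ∑ x : X, ∑ i : Fin 4, (Real.sqrt (m.pt t x v) - Real.sqrt (m.pt t x (m.u i v))) ^ 2 / 4 := by
  have h1 : cg m t v = ∑ p : X × Fin 4,
      (|Real.sqrt (m.pt t p.1 v) - Real.sqrt (m.pt t p.1 (m.u p.2 v))| / 2) *
        ((Real.sqrt (m.pt t p.1 v) + Real.sqrt (m.pt t p.1 (m.u p.2 v))) / 2) := by
    unfold cg
    rw [Fintype.sum_prod_type]
    refine sum_congr rfl fun x _ => sum_congr rfl fun i _ => ?_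
    have e1 := Real.sq_sqrt (pt_nonneg m t x v)
    have e2 := Real.sq_sqrt (pt_nonneg m t x (m.u i v))
    have e3 : m.pt t x v - m.pt t x (m.u i v) =
        (Real.sqrt (m.pt t x v) - Real.sqrt (m.pt t x (m.u i v))) *
          (Real.sqrt (m.pt t x v) + Real.sqrt (m.pt t x (m.u i v))) := by
      linear_combination -e1 + e2
    rw [e3, abs_mul, abs_of_nonneg (a := Real.sqrt (m.pt t x v) + Real.sqrt (m.pt t x (m.u i v)))
      (add_nonneg (Real.sqrt_nonneg _) (Real.sqrt_nonneg _))]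
    ring
  rw [h1]
  refine (sum_mul_sq_le_sq_mul_sq univ _ _).trans ?_
  rw [mul_comm]
  refine mul_le_mul ?_ (le_of_eq ?_) (sum_nonneg fun _ _ => sq_nonneg _) (by norm_num)
  · rw [Fintype.sum_prod_type]
    calc ∑ x : X, ∑ i : Fin 4,
          ((Real.sqrt (m.pt t x v) + Real.sqrt (m.pt t x (m.u i v))) / 2) ^ 2
        ≤ ∑ x : X, ∑ i : Fin 4, (m.pt t x v / 2 + m.pt t x (m.u i v) / 2) := by
          refine sum_le_sum fun x _ => sum_le_sum fun i _ => ?_
          have e1 := Real.sq_sqrt (pt_nonneg m t x v)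
          have e2 := Real.sq_sqrt (pt_nonneg m t x (m.u i v))
          nlinarith [sq_nonneg (Real.sqrt (m.pt t x v) - Real.sqrt (m.pt t x (m.u i v)))]
      _ = 4 := by
          rw [sum_comm]
          have e3 : ∀ i : Fin 4, ∑ x : X, (m.pt t x v / 2 + m.pt t x (m.u i v) / 2) = 1 := by
            intro i
            rw [sum_add_distrib, ← sum_div, ← sum_div, pt_sum_left, pt_sum_left]
            norm_num
          simp only [e3]
          norm_num
  · rw [Fintype.sum_prod_type]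
    refine sum_congr rfl fun x _ => sum_congr rfl fun i _ => ?_
    rw [div_pow, sq_abs]
    norm_num

private theorem cg_sum (m : CMap X) (t : ℕ) :
    ∑ v : X, (cg m t v) ^ 2 ≤ 40 * (Fintype.card X : ℝ) * m.dent t := by
  have h1 := entropy_production m t
  rw [sum_comm] at h1
  calc ∑ v : X, (cg m t v) ^ 2 ≤ ∑ v : X, 4 * ∑ x : X, ∑ i : Fin 4,
        (Real.sqrt (m.pt t x v) - Real.sqrt (m.pt t x (m.u i v))) ^ 2 / 4 :=
        sum_le_sum fun v _ => cg_sq m t v
    _ ≤ 40 * (Fintype.card X : ℝ) * m.dent t := by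
        rw [← mul_sum]
        linarith

private theorem sum_inv_sqrt (T : ℕ) :
    ∑ t ∈ range T, (Real.sqrt ((t : ℝ) + 1))⁻¹ ≤ 2 * Real.sqrt T := by
  induction T with
  | zero => simp
  | succ n ih =>
    rw [sum_range_succ]
    have h0 : (0 : ℝ) ≤ n := Nat.cast_nonneg n
    have h1 : 0 < Real.sqrt ((n : ℝ) + 1) := Real.sqrt_pos.2 (by linarith)
    have h2 : Real.sqrt n ≤ Real.sqrt ((n : ℝ) + 1) := Real.sqrt_le_sqrt (by linarith)
    have h3 := Real.sq_sqrt h0
    have h4 := Real.sq_sqrt (show (0 : ℝ) ≤ (n : ℝ) + 1 by linarith)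
    have h5 : (Real.sqrt ((n : ℝ) + 1))⁻¹ ≤
        2 * (Real.sqrt ((n : ℝ) + 1) - Real.sqrt n) := by
      rw [inv_le_iff_one_le_mul₀ h1]
      nlinarith [Real.sqrt_nonneg (n : ℝ)]
    push_cast
    linarith

theorem cong_sq_le (m : CMap X) (T : ℕ) :
    ∑ v : X, (m.cong T v) ^ 2 ≤
      40 * (Fintype.card X : ℝ) * (∑ t ∈ range T, Real.sqrt (m.dent t)) ^ 2 := by
  have hN : (0 : ℝ) ≤ (Fintype.card X : ℝ) := Nat.cast_nonneg _
  calc ∑ v : X, (m.cong T v) ^ 2 ≤ ∑ v : X, (∑ t ∈ range T, cg m t v) ^ 2 :=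
        sum_le_sum fun v _ => pow_le_pow_left₀ (cong_nonneg m T v) (cong_le m T v) 2
    _ = ∑ s ∈ range T, ∑ t ∈ range T, ∑ v : X, cg m s v * cg m t v := by
        have h1 : ∀ v : X, (∑ t ∈ range T, cg m t v) ^ 2 =
            ∑ s ∈ range T, ∑ t ∈ range T, cg m s v * cg m t v := fun v => by
          rw [sq, sum_mul_sum]
        simp only [h1]
        rw [sum_comm]
        refine sum_congr rfl fun s _ => ?_
        rw [sum_comm]
    _ ≤ ∑ s ∈ range T, ∑ t ∈ range T, Real.sqrt (40 * (Fintype.card X : ℝ) * m.dent s) *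
          Real.sqrt (40 * (Fintype.card X : ℝ) * m.dent t) := by
        refine sum_le_sum fun s _ => sum_le_sum fun t _ => ?_
        refine (Real.sum_mul_le_sqrt_mul_sqrt univ _ _).trans ?_
        exact mul_le_mul (Real.sqrt_le_sqrt (cg_sum m s)) (Real.sqrt_le_sqrt (cg_sum m t))
          (Real.sqrt_nonneg _) (Real.sqrt_nonneg _)
    _ = 40 * (Fintype.card X : ℝ) * (∑ t ∈ range T, Real.sqrt (m.dent t)) ^ 2 := by
        rw [← sum_mul_sum, ← sq]
        have h2 : ∀ t, Real.sqrt (40 * (Fintype.card X : ℝ) * m.dent t) =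
            Real.sqrt (40 * (Fintype.card X : ℝ)) * Real.sqrt (m.dent t) := fun t =>
          Real.sqrt_mul (by positivity) _
        simp only [h2]
        rw [← mul_sum, mul_pow, Real.sq_sqrt (by positivity)]

theorem Q_nonneg (m : CMap X) (T : ℕ) : 0 ≤ m.Q T := by
  exact div_nonneg (sum_nonneg fun _ _ => sq_nonneg _) (Nat.cast_nonneg _)

theorem fT_nonneg (m : CMap X) (T : ℕ) : 0 ≤ m.fT T := by
  exact mul_nonneg (div_nonneg (by norm_num) (Real.sqrt_nonneg _))
    (sum_nonneg fun t _ => mul_nonneg (Real.sqrt_nonneg _) (dent_nonneg m t))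

theorem Q_le_fT (m : CMap X) (T : ℕ) (hT : 1 ≤ T) : m.Q T ≤ 40 * T * m.fT T := by
  have hT0 : (0 : ℝ) < T := by exact_mod_cast hT
  have hsT : 0 < Real.sqrt T := Real.sqrt_pos.2 hT0
  have h0 : 0 ≤ m.fT T := fT_nonneg m T
  rcases Nat.eq_zero_or_pos (Fintype.card X) with hN | hN
  · unfold CMap.Q
    rw [hN, Nat.cast_zero, div_zero]
    positivity
  · have hN' : (0 : ℝ) < (Fintype.card X : ℝ) := by exact_mod_cast hN
    have h1 : m.Q T ≤ 40 * (∑ t ∈ range T, Real.sqrt (m.dent t)) ^ 2 := by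
      unfold CMap.Q
      rw [div_le_iff₀ hN']
      refine (cong_sq_le m T).trans (le_of_eq ?_)
      ring
    have h2 : (∑ t ∈ range T, Real.sqrt (m.dent t)) ^ 2 ≤
        (∑ t ∈ range T, (Real.sqrt ((t : ℝ) + 1))⁻¹) *
          ∑ t ∈ range T, Real.sqrt ((t : ℝ) + 1) * m.dent t := by
      refine sum_sq_le_sum_mul_sum_of_sq_le_mul _ (fun t _ => inv_nonneg.2 (Real.sqrt_nonneg _))
        (fun t _ => mul_nonneg (Real.sqrt_nonneg _) (dent_nonneg m t)) fun t _ => le_of_eq ?_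
      rw [Real.sq_sqrt (dent_nonneg m t), inv_mul_cancel_left₀]
      exact (Real.sqrt_pos.2 (by positivity)).ne'
    have h3 : 0 ≤ ∑ t ∈ range T, Real.sqrt ((t : ℝ) + 1) * m.dent t :=
      sum_nonneg fun t _ => mul_nonneg (Real.sqrt_nonneg _) (dent_nonneg m t)
    have h4 := mul_le_mul_of_nonneg_right (sum_inv_sqrt T) h3
    have h5 : (T : ℝ) * m.fT T =
        2 * Real.sqrt T * ∑ t ∈ range T, Real.sqrt ((t : ℝ) + 1) * m.dent t := by
      unfold CMap.fT
      have h6 : (T : ℝ) = Real.sqrt T * Real.sqrt T := (Real.mul_self_sqrt hT0.le).symm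
      have h7 : (T : ℝ) * (2 / Real.sqrt T) = 2 * Real.sqrt T := by
        rw [mul_div_assoc', div_eq_iff hsT.ne']
        linarith
      rw [← mul_assoc, h7]
    calc m.Q T ≤ 40 * (∑ t ∈ range T, Real.sqrt (m.dent t)) ^ 2 := h1
      _ ≤ 40 * (2 * Real.sqrt T * ∑ t ∈ range T, Real.sqrt ((t : ℝ) + 1) * m.dent t) := by
          linarith
      _ = 40 * T * m.fT T := by rw [← h5]; ring

theorem fT_le (m : CMap X) (T : ℕ) (hT : 1 ≤ T) : m.fT T ≤ 2 * m.ent T := by
  have hT0 : (0 : ℝ) < T := by exact_mod_cast hT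
  have hsT : 0 < Real.sqrt T := Real.sqrt_pos.2 hT0
  have h1 : ∑ t ∈ range T, Real.sqrt ((t : ℝ) + 1) * m.dent t ≤ Real.sqrt T * m.ent T := by
    rw [ent_eq_sum, mul_sum]
    refine sum_le_sum fun t ht => mul_le_mul_of_nonneg_right ?_ (dent_nonneg m t)
    refine Real.sqrt_le_sqrt ?_
    have := Finset.mem_range.1 ht
    exact_mod_cast this
  unfold CMap.fT
  calc 2 / Real.sqrt T * ∑ t ∈ range T, Real.sqrt ((t : ℝ) + 1) * m.dent t
      ≤ 2 / Real.sqrt T * (Real.sqrt T * m.ent T) :=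
        mul_le_mul_of_nonneg_left h1 (div_nonneg (by norm_num) hsT.le)
    _ = 2 * m.ent T := by
        rw [← mul_assoc, div_mul_cancel₀ _ hsT.ne']

end UIPQ
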