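import Mathlib

/-!
# ProdLaw: finite product laws

PROOF. All are instances of `Finset.prod_univ_sum` : ∏ i, ∑ a ∈ t i, f i a = ∑ p ∈ Fintype.piFinset t, ∏ i, f i (p i)
(with t i = univ, Fintype.piFinset_univ). `prod_law_one` : put the factor F in the i-th factor:
∏ z, (w z (p z) * H z (p z)) with H z = F if z = i and 1 otherwise. `prod_law_two` the same with two factors.
`prod_law_indep`: if G does not depend on the coordinate i (G p = G (Function.update p i a) for all a), then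
∑_p (∏ w) (F (p i) * G p) = (∑_a w i a F a) * ∑_p (∏ w) G p : write both sides as iterated sums, the sum over the
coordinate i and the sum over the others (Equiv.piSplitAt or Equiv.funSplitAt), using sum_a w i a = 1.
-/

namespace UIPQ

open Finset

variable {ι α : Type} [Fintype ι] [DecidableEq ι] [Fintype α] [DecidableEq α]

theorem prod_law_total (w : ι → α → ℝ) (hw : ∀ i, ∑ a, w i a = 1) :
    ∑ p : ι → α, ∏ z, w z (p z) = 1 := by
  have h := Finset.prod_univ_sum (fun _ : ι => (univ : Finset α)) w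
  rw [Fintype.piFinset_univ] at h
  rw [← h]
  exact Finset.prod_eq_one fun i _ => hw i

private def swp (i : ι) : ((ι → α) × α) ≃ ((ι → α) × α) where
  toFun x := (Function.update x.1 i x.2, x.1 i)
  invFun x := (Function.update x.1 i x.2, x.1 i)
  left_inv x := by
    refine Prod.ext ?_ ?_
    · show Function.update (Function.update x.1 i x.2) i (x.1 i) = x.1
      rw [Function.update_idem, Function.update_eq_self]
    · show Function.update x.1 i x.2 i = x.2
      rw [Function.update_self]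
  right_inv x := by
    refine Prod.ext ?_ ?_
    · show Function.update (Function.update x.1 i x.2) i (x.1 i) = x.1
      rw [Function.update_idem, Function.update_eq_self]
    · show Function.update x.1 i x.2 i = x.2
      rw [Function.update_self]

private theorem prod_upd (w : ι → α → ℝ) (i : ι) (p : ι → α) (a : α) :
    (∏ z, w z (Function.update p i a z)) * w i (p i) = (∏ z, w z (p z)) * w i a := by
  rw [← Finset.mul_prod_erase univ (fun z => w z (Function.update p i a z)) (mem_univ i),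
    ← Finset.mul_prod_erase univ (fun z => w z (p z)) (mem_univ i)]
  have h : ∏ z ∈ univ.erase i, w z (Function.update p i a z) = ∏ z ∈ univ.erase i, w z (p z) := by
    refine Finset.prod_congr rfl fun z hz => ?_
    rw [Function.update_of_ne (Finset.ne_of_mem_erase hz)]
  rw [h, Function.update_self]
  ring

private theorem indep_aux (w : ι → α → ℝ) (hw : ∀ i, ∑ a, w i a = 1) (i : ι) (F : α → ℝ)
    (G : (ι → α) → ℝ) (hG : ∀ p a, G (Function.update p i a) = G p) :
    ∑ p : ι → α, (∏ z, w z (p z)) * (F (p i) * G p) =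
      (∑ a, w i a * F a) * ∑ p : ι → α, (∏ z, w z (p z)) * G p := by
  have h1 : ∑ p : ι → α, (∏ z, w z (p z)) * (F (p i) * G p) =
      ∑ x : (ι → α) × α, ((∏ z, w z (x.1 z)) * w i x.2) * (F (x.1 i) * G x.1) := by
    rw [Fintype.sum_prod_type]
    refine Finset.sum_congr rfl fun p _ => ?_
    have h2 : ∀ a : α, ((∏ z, w z (p z)) * w i a) * (F (p i) * G p) =
        w i a * ((∏ z, w z (p z)) * (F (p i) * G p)) := fun a => by ring
    show _ = ∑ a : α, ((∏ z, w z (p z)) * w i a) * (F (p i) * G p)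
    rw [Finset.sum_congr rfl fun a _ => h2 a, ← Finset.sum_mul, hw i, one_mul]
  rw [h1, ← Equiv.sum_comp (swp (α := α) i)]
  rw [Fintype.sum_prod_type, Finset.mul_sum]
  refine Finset.sum_congr rfl fun p _ => ?_
  rw [Finset.sum_mul]
  refine Finset.sum_congr rfl fun a _ => ?_
  show ((∏ z, w z (Function.update p i a z)) * w i (p i)) *
    (F (Function.update p i a i) * G (Function.update p i a)) =
      w i a * F a * ((∏ z, w z (p z)) * G p)
  rw [prod_upd, hG, Function.update_self]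
  ring

theorem prod_law_one (w : ι → α → ℝ) (hw : ∀ i, ∑ a, w i a = 1) (i : ι) (F : α → ℝ) :
    ∑ p : ι → α, (∏ z, w z (p z)) * F (p i) = ∑ a, w i a * F a := by
  have h := indep_aux w hw i F (fun _ => 1) (fun _ _ => rfl)
  simp only [mul_one] at h
  rw [h, prod_law_total w hw, mul_one]

theorem prod_law_two (w : ι → α → ℝ) (hw : ∀ i, ∑ a, w i a = 1) (i j : ι) (hij : i ≠ j)
    (F G : α → ℝ) :
    ∑ p : ι → α, (∏ z, w z (p z)) * (F (p i) * G (p j)) =
      (∑ a, w i a * F a) * ∑ a, w j a * G a := by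
  rw [indep_aux w hw i F (fun p => G (p j)) (fun p a => by
    show G (Function.update p i a j) = G (p j)
    rw [Function.update_of_ne hij.symm]), prod_law_one w hw j G]

theorem prod_law_indep (w : ι → α → ℝ) (hw : ∀ i, ∑ a, w i a = 1) (i : ι) (F : α → ℝ)
    (G : (ι → α) → ℝ) (hG : ∀ p a, G (Function.update p i a) = G p) :
    ∑ p : ι → α, (∏ z, w z (p z)) * (F (p i) * G p) =
      (∑ a, w i a * F a) * ∑ p : ι → α, (∏ z, w z (p z)) * G p :=
  indep_aux w hw i F G hG

private theorem unif_w {ρ : ℕ} (hρ : 0 < ρ) (i : ι) :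
    ∑ a : Fin ρ, (fun (_ : ι) (_ : Fin ρ) => (ρ : ℝ)⁻¹) i a = 1 := by
  show ∑ _a : Fin ρ, (ρ : ℝ)⁻¹ = 1
  rw [Finset.sum_const, Finset.card_univ, Fintype.card_fin, nsmul_eq_mul]
  exact mul_inv_cancel₀ (by exact_mod_cast hρ.ne')

private theorem unif_one {ρ : ℕ} (s : Fin ρ) (i : ι) :
    ∑ a : Fin ρ, (fun (_ : ι) (_ : Fin ρ) => (ρ : ℝ)⁻¹) i a * (if a = s then (1 : ℝ) else 0) = (ρ : ℝ)⁻¹ := by
  show ∑ a : Fin ρ, (ρ : ℝ)⁻¹ * (if a = s then (1 : ℝ) else 0) = (ρ : ℝ)⁻¹
  rw [← Finset.mul_sum, Finset.sum_ite_eq' univ s (fun _ => (1 : ℝ)), if_pos (mem_univ s), mul_one]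

private theorem card_gen (ρ : ℕ) (hρ : 0 < ρ) (P : (ι → Fin ρ) → Prop) [DecidablePred P] (k : ℕ)
    (h : ∑ p : ι → Fin ρ, (∏ z, (fun (_ : ι) (_ : Fin ρ) => (ρ : ℝ)⁻¹) z (p z)) *
      (if P p then (1 : ℝ) else 0) = ((ρ : ℝ)⁻¹) ^ k) :
    (ρ : ℝ) ^ k * ((univ : Finset (ι → Fin ρ)).filter P).card = (ρ : ℝ) ^ Fintype.card ι := by
  have hρ' : (ρ : ℝ) ≠ 0 := by exact_mod_cast hρ.ne'
  have h1 : ∀ p : ι → Fin ρ, (∏ z, (fun (_ : ι) (_ : Fin ρ) => (ρ : ℝ)⁻¹) z (p z)) =
      ((ρ : ℝ) ^ Fintype.card ι)⁻¹ := by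
    intro p
    show ∏ _z : ι, (ρ : ℝ)⁻¹ = ((ρ : ℝ) ^ Fintype.card ι)⁻¹
    rw [Finset.prod_const, Finset.card_univ, inv_pow]
  rw [Finset.sum_congr rfl fun p _ => by rw [h1 p], ← Finset.mul_sum, Finset.sum_boole, inv_pow] at h
  have h2 : (ρ : ℝ) ^ Fintype.card ι ≠ 0 := pow_ne_zero _ hρ'
  have h3 : (ρ : ℝ) ^ k ≠ 0 := pow_ne_zero _ hρ'
  field_simp at h
  linarith

/-- The number of functions `ι → Fin ρ` with prescribed values at two (four) distinct points. -/
theorem card_two (ρ : ℕ) (a b : ι) (hab : a ≠ b) (s t : Fin ρ) :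
    (ρ : ℝ) ^ 2 * ((univ : Finset (ι → Fin ρ)).filter (fun p => p a = s ∧ p b = t)).card =
      (ρ : ℝ) ^ Fintype.card ι := by
  have hρ : 0 < ρ := lt_of_le_of_lt (Nat.zero_le _) s.2
  refine card_gen ρ hρ _ 2 ?_
  have h := prod_law_two (fun (_ : ι) (_ : Fin ρ) => (ρ : ℝ)⁻¹) (fun i => unif_w hρ i) a b hab
    (fun c => if c = s then (1 : ℝ) else 0) (fun c => if c = t then (1 : ℝ) else 0)
  rw [unif_one s a, unif_one t b] at h
  rw [pow_two, ← h]
  refine Finset.sum_congr rfl fun p _ => ?_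
  congr 1
  by_cases h1 : p a = s <;> by_cases h2 : p b = t <;> simp [h1, h2]

theorem card_one (ρ : ℕ) (a : ι) (s : Fin ρ) :
    (ρ : ℝ) * ((univ : Finset (ι → Fin ρ)).filter (fun p => p a = s)).card =
      (ρ : ℝ) ^ Fintype.card ι := by
  have hρ : 0 < ρ := lt_of_le_of_lt (Nat.zero_le _) s.2
  have h := prod_law_one (fun (_ : ι) (_ : Fin ρ) => (ρ : ℝ)⁻¹) (fun i => unif_w hρ i) a
    (fun c => if c = s then (1 : ℝ) else 0)
  rw [unif_one s a] at h
  have h1 := card_gen ρ hρ (fun p : ι → Fin ρ => p a = s) 1 (by rw [pow_one]; exact h)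
  rw [pow_one] at h1
  exact h1

theorem card_four (ρ : ℕ) (a b c d : ι) (h : [a, b, c, d].Nodup) (s t u v : Fin ρ) :
    (ρ : ℝ) ^ 4 * ((univ : Finset (ι → Fin ρ)).filter
      (fun p => p a = s ∧ p b = t ∧ p c = u ∧ p d = v)).card = (ρ : ℝ) ^ Fintype.card ι := by
  have hρ : 0 < ρ := lt_of_le_of_lt (Nat.zero_le _) s.2
  simp only [List.nodup_cons, List.mem_cons, List.not_mem_nil, or_false, not_or, List.nodup_nil,
    not_false_eq_true, and_true] at h
  obtain ⟨⟨hab, hac, had⟩, ⟨hbc, hbd⟩, hcd⟩ := h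
  refine card_gen ρ hρ _ 4 ?_
  let w : ι → Fin ρ → ℝ := fun _ _ => (ρ : ℝ)⁻¹
  have hw : ∀ i, ∑ x, w i x = 1 := fun i => unif_w hρ i
  let I : Fin ρ → Fin ρ → ℝ := fun s c => if c = s then (1 : ℝ) else 0
  have h1 := prod_law_two w hw c d hcd (I u) (I v)
  have h2 := indep_aux w hw b (I t) (fun p => I u (p c) * I v (p d)) (fun p x => by
    show I u (Function.update p b x c) * I v (Function.update p b x d) = I u (p c) * I v (p d)
    rw [Function.update_of_ne (Ne.symm hbc), Function.update_of_ne (Ne.symm hbd)])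
  have h3 := indep_aux w hw a (I s) (fun p => I t (p b) * (I u (p c) * I v (p d))) (fun p x => by
    show I t (Function.update p a x b) * (I u (Function.update p a x c) * I v (Function.update p a x d)) =
      I t (p b) * (I u (p c) * I v (p d))
    rw [Function.update_of_ne (Ne.symm hac), Function.update_of_ne (Ne.symm had),
      Function.update_of_ne (Ne.symm hab)])
  have e1 : ∀ (r : Fin ρ) (i : ι), ∑ x, w i x * I r x = (ρ : ℝ)⁻¹ := fun r i => unif_one r i
  have h4 : ∑ p : ι → Fin ρ, (∏ z, w z (p z)) * (I s (p a) * (I t (p b) * (I u (p c) * I v (p d)))) =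
      ((ρ : ℝ)⁻¹) ^ 4 := by
    rw [h3, h2, h1, e1 s a, e1 t b, e1 u c, e1 v d]
    ring
  rw [← h4]
  refine Finset.sum_congr rfl fun p _ => ?_
  show (∏ z, w z (p z)) * _ = (∏ z, w z (p z)) * _
  congr 1
  show (if p a = s ∧ p b = t ∧ p c = u ∧ p d = v then (1 : ℝ) else 0) =
    (if p a = s then (1 : ℝ) else 0) * ((if p b = t then (1 : ℝ) else 0) *
      ((if p c = u then (1 : ℝ) else 0) * (if p d = v then (1 : ℝ) else 0)))
  by_cases h5 : p a = s <;> by_cases h6 : p b = t <;> by_cases h7 : p c = u <;>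
    by_cases h8 : p d = v <;> simp [h5, h6, h7, h8]

end UIPQ
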