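import Pool.Agent.Lib.UIPQ.FDefs
import Pool.Agent.Lib.UIPQ.A.ProdLaw

/-!
# Parent: random parent functions following a flow

X finite, x ∈ X the source, φ v w = amount of flow from v to w, only from higher to lower values of g;
b y = amount absorbed at y. For v ≠ x: inflow = b v + outflow.

PROOF. q v := point mass at v if v = x or inflow(v) = 0; otherwise q v w = φ w v / inflow(v), inflow(v) =
∑ w, φ w v. It is a law (IsLaw).
GOOD PATHS: let 0 < q v (π v) for all v. Then π v = v or 0 < φ (π v) v. If v ≠ x and inflow(v) > 0 then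
φ (π v) v > 0 so g v < g (π v). Let b y > 0, y ≠ x: inflow(y) = b y + outflow > 0. If v ≠ x has inflow(v) > 0 and
w = π v ≠ x then outflow(w) ≥ φ w v > 0, so inflow(w) > 0 (b ≥ 0). So from y, as long as x is not visited, g
strictly increases along the path: X is finite, so x is reached. (If y = x: n = 0.)
MASS: for v ≠ x let F v = ∑_{y ≠ x} b y * pathProb q x y v. CLAIM F v ≤ ∑ w, φ w v (= inflow v). Strong induction
on g v: (downwards: assume the claim for all w ≠ x with g w < g v). For y ≠ x: v is on the path from y iff y = v or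
there is w ≠ x, w on the path from y, π w = v, w ≠ v (w unique, but the union bound is enough; take the last point
before v in the path). So 1[v on path y] ≤ 1[y = v] + ∑_{w ≠ x, w ≠ v} 1[w on path y] 1[π w = v]. The event {w on path y}
does not depend on the coordinate π w (it is decided by the values of π at the points of the path before w, which are
≠ w at the first visit of w): `prod_law_indep` gives
 pathProb q x y v ≤ 1[y = v] + ∑_{w ≠ x, w ≠ v} pathProb q x y w * q w v.
Multiply by b y, sum over y ≠ x: F v ≤ b v + ∑_{w ≠ x, w ≠ v} F w * q w v, and for these w, q w v = φ v w/inflow(w) if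
inflow(w) > 0 (and 0 otherwise, as w ≠ v), which is > 0 only if g w < g v, so F w ≤ inflow(w) and F w q w v ≤ φ v w.
Total F v ≤ b v + ∑ w, φ v w = inflow v.
For v = x: pathProb ≤ 1 (prod_law_total), so ∑_{y ≠ x} b y pathProb q x y x ≤ ∑_{y ≠ x} b y.
-/

namespace UIPQ

open Finset

variable {X : Type} [Fintype X] [DecidableEq X]

open Classical in
private theorem pathProb_eq (q : X → X → ℝ) (x y v : X) :
    pathProb q x y v = ∑ π : X → X, (∏ z, q z (π z)) * (if onPath π x y v then 1 else 0) := by
  unfold pathProb
  refine Finset.sum_congr rfl fun π _ => ?_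
  split_ifs <;> simp

private theorem onPath_rec {π : X → X} {x y v : X} (h : onPath π x y v) :
    y = v ∨ ∃ w, w ≠ x ∧ w ≠ v ∧ π w = v ∧ onPath π x y w := by
  classical
  have hex : ∃ n : ℕ, π^[n] y = v ∧ ∀ j < n, π^[j] y ≠ x := h
  have h1 := Nat.find_spec hex
  rcases hn : Nat.find hex with _ | m
  · left
    rw [hn] at h1
    exact h1.1
  · right
    rw [hn] at h1
    refine ⟨π^[m] y, h1.2 m (Nat.lt_succ_self m), ?_, ?_, m, rfl, fun j hj => h1.2 j (by omega)⟩
    · intro hv
      have h2 : ¬ (π^[m] y = v ∧ ∀ j < m, π^[j] y ≠ x) := Nat.find_min hex (by omega)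
      exact h2 ⟨hv, fun j hj => h1.2 j (by omega)⟩
    · rw [← Function.iterate_succ_apply' π m y]
      exact h1.1

private theorem onPath_update {π : X → X} {x y w : X} (h : onPath π x y w) (a : X) :
    onPath (Function.update π w a) x y w := by
  classical
  have hex : ∃ n : ℕ, π^[n] y = w ∧ ∀ j < n, π^[j] y ≠ x := h
  have h1 := Nat.find_spec hex
  set n := Nat.find hex with hn
  have hne : ∀ j < n, π^[j] y ≠ w := by
    intro j hj hw
    have h2 : ¬ (π^[j] y = w ∧ ∀ i < j, π^[i] y ≠ x) := Nat.find_min hex hj
    exact h2 ⟨hw, fun i hi => h1.2 i (by omega)⟩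
  have heq : ∀ j ≤ n, (Function.update π w a)^[j] y = π^[j] y := by
    intro j
    induction j with
    | zero => intro _; rfl
    | succ j ih =>
      intro hj
      rw [Function.iterate_succ_apply', Function.iterate_succ_apply', ih (by omega),
        Function.update_of_ne (hne j (by omega))]
  refine ⟨n, ?_, ?_⟩
  · rw [heq n le_rfl]
    exact h1.1
  · intro j hj
    rw [heq j hj.le]
    exact h1.2 j hj

private theorem onPath_update_iff (π : X → X) (x y w a : X) :
    onPath (Function.update π w a) x y w ↔ onPath π x y w := by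
  constructor
  · intro h
    have h1 := onPath_update h (π w)
    rwa [Function.update_idem, Function.update_eq_self] at h1
  · intro h
    exact onPath_update h a

theorem pathProb_nonneg (q : X → X → ℝ) (hq : IsLaw q) (x y v : X) : 0 ≤ pathProb q x y v := by
  classical
  rw [pathProb_eq]
  refine Finset.sum_nonneg fun π _ => mul_nonneg (Finset.prod_nonneg fun z _ => hq.nonneg _ _) ?_
  split_ifs <;> norm_num

theorem pathProb_le_one (q : X → X → ℝ) (hq : IsLaw q) (x y v : X) : pathProb q x y v ≤ 1 := by
  classical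
  rw [pathProb_eq]
  refine le_trans ?_ (prod_law_total q hq.sum_one).le
  refine Finset.sum_le_sum fun π _ => ?_
  refine mul_le_of_le_one_right (Finset.prod_nonneg fun z _ => hq.nonneg _ _) ?_
  split_ifs <;> norm_num

private theorem pathProb_rec (q : X → X → ℝ) (hq : IsLaw q) (x y v : X) :
    pathProb q x y v ≤ (if y = v then 1 else 0) +
      ∑ w ∈ univ.filter (fun w => w ≠ x ∧ w ≠ v), q w v * pathProb q x y w := by
  classical
  have hpt : ∀ π : X → X, (if onPath π x y v then (1 : ℝ) else 0) ≤ (if y = v then 1 else 0) +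
      ∑ w ∈ univ.filter (fun w => w ≠ x ∧ w ≠ v),
        (if π w = v then (1 : ℝ) else 0) * (if onPath π x y w then 1 else 0) := by
    intro π
    have hnn : ∀ w ∈ univ.filter (fun w => w ≠ x ∧ w ≠ v),
        (0 : ℝ) ≤ (if π w = v then (1 : ℝ) else 0) * (if onPath π x y w then 1 else 0) := by
      intro w _
      split_ifs <;> norm_num
    have hs := Finset.sum_nonneg hnn
    by_cases h : onPath π x y v
    · rw [if_pos h]
      rcases onPath_rec h with h1 | ⟨w, hwx, hwv, hπ, hw⟩
      · rw [if_pos h1]
        linarith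
      · have h2 := Finset.single_le_sum hnn (Finset.mem_filter.2 ⟨Finset.mem_univ w, hwx, hwv⟩)
        rw [if_pos hπ, if_pos hw] at h2
        have h3 : (0 : ℝ) ≤ if y = v then 1 else 0 := by split_ifs <;> norm_num
        linarith
    · rw [if_neg h]
      have h3 : (0 : ℝ) ≤ if y = v then 1 else 0 := by split_ifs <;> norm_num
      linarith
  rw [pathProb_eq]
  calc ∑ π : X → X, (∏ z, q z (π z)) * (if onPath π x y v then 1 else 0)
      ≤ ∑ π : X → X, (∏ z, q z (π z)) * ((if y = v then 1 else 0) +
      ∑ w ∈ univ.filter (fun w => w ≠ x ∧ w ≠ v),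
        (if π w = v then (1 : ℝ) else 0) * (if onPath π x y w then 1 else 0)) :=
        Finset.sum_le_sum fun π _ => mul_le_mul_of_nonneg_left (hpt π)
          (Finset.prod_nonneg fun z _ => hq.nonneg _ _)
    _ = (∑ π : X → X, (∏ z, q z (π z))) * (if y = v then 1 else 0) +
        ∑ w ∈ univ.filter (fun w => w ≠ x ∧ w ≠ v), ∑ π : X → X, (∏ z, q z (π z)) *
          ((if π w = v then (1 : ℝ) else 0) * (if onPath π x y w then 1 else 0)) := by
        rw [Finset.sum_comm, Finset.sum_mul, ← Finset.sum_add_distrib]
        refine Finset.sum_congr rfl fun π _ => ?_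
        rw [mul_add, Finset.mul_sum]
    _ = (if y = v then 1 else 0) +
      ∑ w ∈ univ.filter (fun w => w ≠ x ∧ w ≠ v), q w v * pathProb q x y w := by
        rw [prod_law_total q hq.sum_one, one_mul]
        congr 1
        refine Finset.sum_congr rfl fun w _ => ?_
        have h1 := prod_law_indep q hq.sum_one w (fun a => if a = v then (1 : ℝ) else 0)
          (fun π => if onPath π x y w then (1 : ℝ) else 0) (by
            intro π a
            simp only [onPath_update_iff])
        rw [h1, pathProb_eq]
        congr 1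
        simp

theorem parent_law (x : X) (g b : X → ℝ) (φ : X → X → ℝ) (hφ : ∀ v w, 0 ≤ φ v w)
    (hg : ∀ v w, 0 < φ v w → g w < g v) (hb : ∀ v, 0 ≤ b v)
    (hcons : ∀ v, v ≠ x → ∑ w, φ w v = b v + ∑ w, φ v w) :
    ∃ q : X → X → ℝ, IsLaw q ∧
      (∀ π : X → X, (∀ v, 0 < q v (π v)) →
        (∀ v, π v = v ∨ 0 < φ (π v) v) ∧ ∀ y, 0 < b y → ∃ n : ℕ, π^[n] y = x) ∧
      (∀ v, v ≠ x → ∑ y ∈ univ.erase x, b y * pathProb q x y v ≤ ∑ w, φ w v) ∧
      ∑ y ∈ univ.erase x, b y * pathProb q x y x ≤ ∑ y ∈ univ.erase x, b y := by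
  classical
  set inf : X → ℝ := fun v => ∑ w, φ w v with hinf
  have hinf0 : ∀ v, 0 ≤ inf v := fun v => Finset.sum_nonneg fun w _ => hφ w v
  set q : X → X → ℝ := fun v w => if v = x ∨ inf v = 0 then (if w = v then 1 else 0) else φ w v / inf v
    with hqdef
  have hq : IsLaw q := by
    refine ⟨?_, ?_⟩
    · intro v w
      simp only [hqdef]
      split_ifs
      · norm_num
      · norm_num
      · exact div_nonneg (hφ _ _) (hinf0 _)
    · intro v
      simp only [hqdef]
      by_cases h : v = x ∨ inf v = 0
      · simp only [if_pos h]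
        simp
      · simp only [if_neg h]
        rw [← Finset.sum_div]
        push Not at h
        exact div_self h.2
  refine ⟨q, hq, ?_, ?_, ?_⟩
  · intro π hπ
    have hstep : ∀ v, v ≠ x → inf v ≠ 0 → 0 < φ (π v) v := by
      intro v hv hi
      have h1 := hπ v
      have h2 : q v (π v) = φ (π v) v / inf v := by
        simp only [hqdef]
        rw [if_neg (by push Not; exact ⟨hv, hi⟩)]
      rw [h2] at h1
      have h3 : 0 < inf v := lt_of_le_of_ne (hinf0 v) (Ne.symm hi)
      exact (div_pos_iff_of_pos_right h3).1 h1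
    refine ⟨?_, ?_⟩
    · intro v
      by_cases h : v = x ∨ inf v = 0
      · left
        have h1 := hπ v
        have h2 : q v (π v) = if π v = v then 1 else 0 := by
          simp only [hqdef]
          rw [if_pos h]
        rw [h2] at h1
        by_contra hne
        rw [if_neg hne] at h1
        exact lt_irrefl _ h1
      · right
        push Not at h
        exact hstep v h.1 h.2
    · have hwf : WellFounded (fun a c : X => g c < g a) := by
        have : IsTrans X (fun a c : X => g c < g a) := ⟨fun _ _ _ h1 h2 => lt_trans h2 h1⟩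
        have : Std.Irrefl (fun a c : X => g c < g a) := ⟨fun _ h => lt_irrefl _ h⟩
        exact Finite.wellFounded_of_trans_of_irrefl _
      have hP : ∀ v, inf v ≠ 0 → ∃ n : ℕ, π^[n] v = x := by
        intro v
        refine hwf.induction (C := fun v => inf v ≠ 0 → ∃ n : ℕ, π^[n] v = x) v ?_
        intro v ih hi
        by_cases hv : v = x
        · exact ⟨0, hv⟩
        have h1 := hstep v hv hi
        have h2 := hg _ _ h1
        by_cases hx : π v = x
        · exact ⟨1, hx⟩
        have h3 : inf (π v) ≠ 0 := by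
          have h4 : inf (π v) = b (π v) + ∑ w, φ (π v) w := hcons _ hx
          have h5 : φ (π v) v ≤ ∑ w, φ (π v) w :=
            Finset.single_le_sum (fun w _ => hφ (π v) w) (Finset.mem_univ v)
          have h6 := hb (π v)
          rw [h4]
          exact (by linarith : (0 : ℝ) < b (π v) + ∑ w, φ (π v) w).ne'
        obtain ⟨n, hn⟩ := ih (π v) h2 h3
        exact ⟨n + 1, hn⟩
      intro y hy
      by_cases hyx : y = x
      · exact ⟨0, hyx⟩
      · refine hP y ?_
        have h4 : inf y = b y + ∑ w, φ y w := hcons _ hyx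
        have h5 : 0 ≤ ∑ w, φ y w := Finset.sum_nonneg fun w _ => hφ y w
        rw [h4]
        exact (by linarith : (0 : ℝ) < b y + ∑ w, φ y w).ne'
  · have hwf : WellFounded (fun a c : X => g a < g c) := by
      have : IsTrans X (fun a c : X => g a < g c) := ⟨fun _ _ _ h1 h2 => lt_trans h1 h2⟩
      have : Std.Irrefl (fun a c : X => g a < g c) := ⟨fun _ h => lt_irrefl _ h⟩
      exact Finite.wellFounded_of_trans_of_irrefl _
    intro v
    refine hwf.induction (C := fun v => v ≠ x → ∑ y ∈ univ.erase x, b y * pathProb q x y v ≤ ∑ w, φ w v) v ?_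
    intro v ih hv
    have h1 : ∑ y ∈ univ.erase x, b y * pathProb q x y v ≤
        ∑ y ∈ univ.erase x, b y * ((if y = v then 1 else 0) +
          ∑ w ∈ univ.filter (fun w => w ≠ x ∧ w ≠ v), q w v * pathProb q x y w) :=
      Finset.sum_le_sum fun y _ => mul_le_mul_of_nonneg_left (pathProb_rec q hq x y v) (hb y)
    have h2 : ∑ y ∈ univ.erase x, b y * ((if y = v then 1 else 0) +
          ∑ w ∈ univ.filter (fun w => w ≠ x ∧ w ≠ v), q w v * pathProb q x y w) =
        b v + ∑ w ∈ univ.filter (fun w => w ≠ x ∧ w ≠ v),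
          q w v * ∑ y ∈ univ.erase x, b y * pathProb q x y w := by
      simp only [mul_add, Finset.sum_add_distrib]
      congr 1
      · simp only [mul_ite, mul_one, mul_zero]
        rw [Finset.sum_ite_eq' (univ.erase x) v b, if_pos (Finset.mem_erase.2 ⟨hv, Finset.mem_univ v⟩)]
      · simp only [Finset.mul_sum]
        rw [Finset.sum_comm]
        refine Finset.sum_congr rfl fun w _ => Finset.sum_congr rfl fun y _ => ?_
        ring
    have h3 : ∑ w ∈ univ.filter (fun w => w ≠ x ∧ w ≠ v),
          q w v * ∑ y ∈ univ.erase x, b y * pathProb q x y w ≤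
        ∑ w ∈ univ.filter (fun w => w ≠ x ∧ w ≠ v), φ v w := by
      refine Finset.sum_le_sum fun w hw => ?_
      obtain ⟨-, hwx, hwv⟩ := Finset.mem_filter.1 hw
      by_cases hi : inf w = 0
      · have h4 : q w v = 0 := by
          simp only [hqdef]
          rw [if_pos (Or.inr hi), if_neg (Ne.symm hwv)]
        rw [h4, zero_mul]
        exact hφ v w
      · have h4 : q w v = φ v w / inf w := by
          simp only [hqdef]
          rw [if_neg (by push Not; exact ⟨hwx, hi⟩)]
        have h5 : 0 < inf w := lt_of_le_of_ne (hinf0 w) (Ne.symm hi)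
        rw [h4]
        rcases (hφ v w).eq_or_lt with h6 | h6
        · rw [← h6, zero_div, zero_mul]
        · have h7 := ih w (hg v w h6) hwx
          rw [div_mul_eq_mul_div, div_le_iff₀ h5]
          exact mul_le_mul_of_nonneg_left h7 h6.le
    have h4 : ∑ w ∈ univ.filter (fun w => w ≠ x ∧ w ≠ v), φ v w ≤ ∑ w, φ v w :=
      Finset.sum_le_sum_of_subset_of_nonneg (Finset.filter_subset _ _) fun w _ _ => hφ v w
    rw [hcons v hv]
    linarith
  · refine Finset.sum_le_sum fun y _ => ?_
    exact mul_le_of_le_one_right (hb y) (pathProb_le_one q hq x y x)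

end UIPQ
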