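import Pool.Agent.Lib.UIPQ.A.CrossFix
import Pool.Agent.Lib.UIPQ.A.Parent

/-!
# Cross: the crossing lemma for random routings

PROOF. N = |X|, M = |Γ|, C v = ∑ p ∈ Γ, pathProb (q p.1) p.1 p.2 v. Weight of Π : X → (X → X): W Π = ∏_x ∏_v q x v (Π x v).
∑_Π W Π = 1 (prod_law_total twice: the weights w x p = ∏_v q x v (p v) on functions p : X → X have sum 1).
If W Π > 0 then all q x v (Π x v) > 0, so the hypotheses of `crossing_fixed` hold for Π by hgood. Average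
`crossing_fixed` over Π: M/ρ² ≤ 8N/ρ + E[badCount]/(2ρ⁴), and
 E[badCount] ≤ ∑_{(p,q) ∈ Γ×Γ, p.1 ≠ q.1} ∑_v P(v on path p and v on path q), and for p.1 ≠ q.1 the product law
`prod_law_two` gives P(both) = pathProb (q p.1) p.1 p.2 v * pathProb (q q.1) q.1 q.2 v. So E[badCount] ≤ ∑_v (C v)².
Choose ρ = ⌊M/(16N)⌋ (N ≥ 1, otherwise Γ is empty and the claim is 0 ≤ 0): ρ ≥ 2 because M ≥ 32 N, 16 N ρ ≤ M and
ρ ≥ M/(32 N). Then 8N/ρ ≤ M/(2ρ²), so M/(2ρ²) ≤ (∑ C²)/(2ρ⁴), M ρ² ≤ ∑ C², and M³/(1024 N²) ≤ M ρ².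
-/

namespace UIPQ

open Finset

variable {X : Type} [Fintype X] [DecidableEq X]

private theorem cr_pathProb (q : X → X → ℝ) (x y v : X) [DecidablePred fun π : X → X => onPath π x y v] :
    pathProb q x y v = ∑ π : X → X, (∏ w : X, q w (π w)) * (if onPath π x y v then 1 else 0) := by
  unfold pathProb
  refine Finset.sum_congr rfl fun π _ => ?_
  split_ifs <;> simp

open Classical in
private theorem cr_bad (q : X → X → X → ℝ) (hq : ∀ x, IsLaw (q x)) (Γ : Finset (X × X)) :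
    ∑ P : X → X → X, (∏ x, ∏ v, q x v (P x v)) * (badCount P Γ : ℝ) ≤
      ∑ v, (∑ p ∈ Γ, pathProb (q p.1) p.1 p.2 v) ^ 2 := by
  have hW : ∀ P : X → X → X, 0 ≤ ∏ x, ∏ v, q x v (P x v) := fun P =>
    Finset.prod_nonneg fun x _ => Finset.prod_nonneg fun v _ => (hq x).nonneg _ _
  have hb : ∀ P : X → X → X, (badCount P Γ : ℝ) ≤ ∑ z ∈ Γ ×ˢ Γ, ∑ v,
      (if z.1.1 ≠ z.2.1 then ((if onPath (P z.1.1) z.1.1 z.1.2 v then (1 : ℝ) else 0) *
        (if onPath (P z.2.1) z.2.1 z.2.2 v then (1 : ℝ) else 0)) else 0) := by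
    intro P
    unfold badCount
    rw [Finset.card_filter]
    push_cast
    refine Finset.sum_le_sum fun z _ => ?_
    have hnn : ∀ v ∈ (univ : Finset X), 0 ≤ (if z.1.1 ≠ z.2.1 then
        ((if onPath (P z.1.1) z.1.1 z.1.2 v then (1 : ℝ) else 0) *
        (if onPath (P z.2.1) z.2.1 z.2.2 v then (1 : ℝ) else 0)) else 0) := by
      intro v _
      split_ifs <;> norm_num
    by_cases h : z.1.1 ≠ z.2.1 ∧ z.1.2 ≠ z.2.2 ∧ z.1.1 ≠ z.2.2 ∧ z.2.1 ≠ z.1.2 ∧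
        ∃ v, onPath (P z.1.1) z.1.1 z.1.2 v ∧ onPath (P z.2.1) z.2.1 z.2.2 v
    · rw [if_pos h]
      obtain ⟨h1, -, -, -, v, h2, h3⟩ := h
      refine le_trans ?_ (Finset.single_le_sum hnn (Finset.mem_univ v))
      rw [if_pos h1, if_pos h2, if_pos h3, mul_one]
    · rw [if_neg h]
      exact Finset.sum_nonneg hnn
  have hprob : ∀ (z : (X × X) × (X × X)) (v : X), z.1.1 ≠ z.2.1 →
      ∑ P : X → X → X, (∏ x, ∏ v, q x v (P x v)) *
        ((if onPath (P z.1.1) z.1.1 z.1.2 v then (1 : ℝ) else 0) *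
        (if onPath (P z.2.1) z.2.1 z.2.2 v then (1 : ℝ) else 0)) =
      pathProb (q z.1.1) z.1.1 z.1.2 v * pathProb (q z.2.1) z.2.1 z.2.2 v := by
    intro z v hz
    have h1 := prod_law_two (fun (x : X) (π : X → X) => ∏ v, q x v (π v))
      (fun x => prod_law_total (q x) (hq x).sum_one) z.1.1 z.2.1 hz
      (fun π => if onPath π z.1.1 z.1.2 v then (1 : ℝ) else 0)
      (fun π => if onPath π z.2.1 z.2.2 v then (1 : ℝ) else 0)
    rw [cr_pathProb, cr_pathProb]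
    convert h1 using 1
  calc ∑ P : X → X → X, (∏ x, ∏ v, q x v (P x v)) * (badCount P Γ : ℝ)
      ≤ ∑ P : X → X → X, (∏ x, ∏ v, q x v (P x v)) * ∑ z ∈ Γ ×ˢ Γ, ∑ v,
      (if z.1.1 ≠ z.2.1 then ((if onPath (P z.1.1) z.1.1 z.1.2 v then (1 : ℝ) else 0) *
        (if onPath (P z.2.1) z.2.1 z.2.2 v then (1 : ℝ) else 0)) else 0) :=
        Finset.sum_le_sum fun P _ => mul_le_mul_of_nonneg_left (hb P) (hW P)
    _ = ∑ z ∈ Γ ×ˢ Γ, ∑ v, ∑ P : X → X → X, (∏ x, ∏ v, q x v (P x v)) *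
      (if z.1.1 ≠ z.2.1 then ((if onPath (P z.1.1) z.1.1 z.1.2 v then (1 : ℝ) else 0) *
        (if onPath (P z.2.1) z.2.1 z.2.2 v then (1 : ℝ) else 0)) else 0) := by
        simp only [Finset.mul_sum]
        rw [Finset.sum_comm]
        exact Finset.sum_congr rfl fun z _ => Finset.sum_comm
    _ ≤ ∑ z ∈ Γ ×ˢ Γ, ∑ v, pathProb (q z.1.1) z.1.1 z.1.2 v *
        pathProb (q z.2.1) z.2.1 z.2.2 v := by
        refine Finset.sum_le_sum fun z _ => Finset.sum_le_sum fun v _ => ?_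
        by_cases hz : z.1.1 ≠ z.2.1
        · simp only [if_pos hz]
          exact (hprob z v hz).le
        · simp only [if_neg hz, mul_zero, Finset.sum_const_zero]
          exact mul_nonneg (pathProb_nonneg _ (hq _) _ _ _) (pathProb_nonneg _ (hq _) _ _ _)
    _ = ∑ v, (∑ p ∈ Γ, pathProb (q p.1) p.1 p.2 v) ^ 2 := by
        rw [Finset.sum_comm]
        refine Finset.sum_congr rfl fun v _ => ?_
        rw [sq, Finset.sum_mul_sum, Finset.sum_product]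

theorem crossing (m : CMap X) (hm : m.Planar) (q : X → X → X → ℝ) (hq : ∀ x, IsLaw (q x))
    (Γ : Finset (X × X)) (hne : ∀ p ∈ Γ, p.1 ≠ p.2)
    (hgood : ∀ x, ∀ π : X → X, (∀ v, 0 < q x v (π v)) →
      (∀ v, π v = v ∨ m.HAdj v (π v)) ∧ ∀ y, (x, y) ∈ Γ → ∃ n : ℕ, π^[n] y = x)
    (hM : 32 * Fintype.card X ≤ Γ.card) :
    (Γ.card : ℝ) ^ 3 ≤ 1024 * (Fintype.card X : ℝ) ^ 2 *
      ∑ v, (∑ p ∈ Γ, pathProb (q p.1) p.1 p.2 v) ^ 2 := by
  classical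
  rcases Nat.eq_zero_or_pos Γ.card with h0 | hpos
  · rw [h0]
    have h1 : 0 ≤ ∑ v, (∑ p ∈ Γ, pathProb (q p.1) p.1 p.2 v) ^ 2 :=
      Finset.sum_nonneg fun v _ => sq_nonneg _
    have h2 : (0 : ℝ) ≤ 1024 * (Fintype.card X : ℝ) ^ 2 *
      ∑ v, (∑ p ∈ Γ, pathProb (q p.1) p.1 p.2 v) ^ 2 := by positivity
    simpa using h2
  obtain ⟨p0, hp0⟩ := Finset.card_pos.1 hpos
  have hN : 0 < Fintype.card X := Fintype.card_pos_iff.2 ⟨p0.1⟩
  set N := Fintype.card X with hNdef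
  set M := Γ.card with hMdef
  set S := ∑ v, (∑ p ∈ Γ, pathProb (q p.1) p.1 p.2 v) ^ 2 with hS
  obtain ⟨ρ, hρ2, hρM, hMρ⟩ : ∃ ρ : ℕ, 2 ≤ ρ ∧ 16 * N * ρ ≤ M ∧ M ≤ 32 * N * ρ := by
    refine ⟨M / (16 * N), ?_, ?_, ?_⟩
    · rw [Nat.le_div_iff_mul_le (by positivity)]
      omega
    · exact Nat.mul_div_le M (16 * N)
    · have h1 : 2 ≤ M / (16 * N) := by
        rw [Nat.le_div_iff_mul_le (by positivity)]
        omega
      have h2 : M < 16 * N * (M / (16 * N) + 1) := Nat.lt_mul_div_succ M (by positivity)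
      nlinarith
  have hW : ∀ P : X → X → X, 0 ≤ ∏ x, ∏ v, q x v (P x v) := fun P =>
    Finset.prod_nonneg fun x _ => Finset.prod_nonneg fun v _ => (hq x).nonneg _ _
  have hW1 : ∑ P : X → X → X, ∏ x, ∏ v, q x v (P x v) = 1 :=
    prod_law_total (fun (x : X) (π : X → X) => ∏ v, q x v (π v))
      (fun x => prod_law_total (q x) (hq x).sum_one)
  have hfix : ∀ P : X → X → X, (∏ x, ∏ v, q x v (P x v)) * ((M : ℝ) / (ρ : ℝ) ^ 2) ≤
      (∏ x, ∏ v, q x v (P x v)) * (8 * (N : ℝ) / ρ + (badCount P Γ : ℝ) / (2 * (ρ : ℝ) ^ 4)) := by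
    intro P
    rcases (hW P).eq_or_lt with h | h
    · rw [← h, zero_mul, zero_mul]
    · refine mul_le_mul_of_nonneg_left ?_ h.le
      have hpos : ∀ x v, 0 < q x v (P x v) := by
        intro x v
        refine lt_of_le_of_ne ((hq x).nonneg _ _) fun h0 => ?_
        rw [Finset.prod_eq_zero (Finset.mem_univ x)
          (Finset.prod_eq_zero (Finset.mem_univ v) h0.symm)] at h
        exact lt_irrefl _ h
      refine crossing_fixed m hm P Γ hne ?_ ?_ ρ hρ2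
      · intro p hp
        exact (hgood p.1 (P p.1) (hpos p.1)).2 p.2 hp
      · intro x v
        exact (hgood x (P x) (hpos x)).1 v
  have hsum := Finset.sum_le_sum fun P (_ : P ∈ (univ : Finset (X → X → X))) => hfix P
  rw [← Finset.sum_mul, hW1, one_mul] at hsum
  have hsplit : ∑ P : X → X → X, (∏ x, ∏ v, q x v (P x v)) *
      (8 * (N : ℝ) / ρ + (badCount P Γ : ℝ) / (2 * (ρ : ℝ) ^ 4)) =
      8 * (N : ℝ) / ρ + (∑ P : X → X → X, (∏ x, ∏ v, q x v (P x v)) * (badCount P Γ : ℝ)) /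
        (2 * (ρ : ℝ) ^ 4) := by
    simp only [mul_add]
    rw [Finset.sum_add_distrib, ← Finset.sum_mul, hW1, one_mul, Finset.sum_div]
    congr 1
    exact Finset.sum_congr rfl fun P _ => by rw [mul_div_assoc]
  rw [hsplit] at hsum
  have hbad := cr_bad q hq Γ
  have hρ0 : (0 : ℝ) < ρ := by
    have : 0 < ρ := by omega
    exact_mod_cast this
  have hmain : (M : ℝ) / (ρ : ℝ) ^ 2 ≤ 8 * (N : ℝ) / ρ + S / (2 * (ρ : ℝ) ^ 4) := by
    refine hsum.trans ?_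
    have h1 : (∑ P : X → X → X, (∏ x, ∏ v, q x v (P x v)) * (badCount P Γ : ℝ)) /
        (2 * (ρ : ℝ) ^ 4) ≤ S / (2 * (ρ : ℝ) ^ 4) :=
      div_le_div_of_nonneg_right hbad (by positivity)
    linarith
  have h1 : 2 * (M : ℝ) * (ρ : ℝ) ^ 2 ≤ 16 * N * (ρ : ℝ) ^ 3 + S := by
    have h2 := mul_le_mul_of_nonneg_right hmain (show (0 : ℝ) ≤ 2 * (ρ : ℝ) ^ 4 by positivity)
    have h3 : (M : ℝ) / (ρ : ℝ) ^ 2 * (2 * (ρ : ℝ) ^ 4) = 2 * (M : ℝ) * (ρ : ℝ) ^ 2 := by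
      field_simp
    have h4 : (8 * (N : ℝ) / ρ + S / (2 * (ρ : ℝ) ^ 4)) * (2 * (ρ : ℝ) ^ 4) =
        16 * N * (ρ : ℝ) ^ 3 + S := by
      field_simp
      ring
    rw [h3, h4] at h2
    exact h2
  have hρM' : 16 * (N : ℝ) * ρ ≤ M := by exact_mod_cast hρM
  have hMρ' : (M : ℝ) ≤ 32 * N * ρ := by exact_mod_cast hMρ
  have h5 : 16 * (N : ℝ) * (ρ : ℝ) ^ 3 ≤ M * (ρ : ℝ) ^ 2 := by
    calc 16 * (N : ℝ) * (ρ : ℝ) ^ 3 = 16 * (N : ℝ) * ρ * (ρ : ℝ) ^ 2 := by ring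
      _ ≤ M * (ρ : ℝ) ^ 2 := mul_le_mul_of_nonneg_right hρM' (by positivity)
  have h6 : (M : ℝ) * (ρ : ℝ) ^ 2 ≤ S := by linarith
  calc (M : ℝ) ^ 3 = (M : ℝ) * (M : ℝ) ^ 2 := by ring
    _ ≤ (M : ℝ) * (32 * (N : ℝ) * (ρ : ℝ)) ^ 2 :=
        mul_le_mul_of_nonneg_left (pow_le_pow_left₀ (by positivity) hMρ' 2) (by positivity)
    _ = 1024 * (N : ℝ) ^ 2 * ((M : ℝ) * (ρ : ℝ) ^ 2) := by ring
    _ ≤ 1024 * (N : ℝ) ^ 2 * S := mul_le_mul_of_nonneg_left h6 (by positivity)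

end UIPQ
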