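import Pool.Agent.Lib.UIPQ.A.NoBad
import Pool.Agent.Lib.UIPQ.A.ProdLaw

/-!
# CrossFix: the crossing inequality for a fixed routing, averaged over random roles

PROOF. For a role function s : X → Fin ρ (ρ ≥ 2; i0 = 0, i1 = 1 in Fin ρ) let Ctr = {s = i0}, Tgt = {s = i1} (disjoint),
Γ' = {p ∈ Γ : s p.1 = i0, s p.2 = i1}. B' = ordered bad pairs inside Γ' : (p,q) ∈ Γ' × Γ' with p.1 ≠ q.1, p.2 ≠ q.2 and a
common point of the two paths. B' is symmetric and irreflexive, so there is a set D of at most |B'|/2 elements of Γ' which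
meets every bad pair (for each unordered bad pair {p,q} remove one of the two; the number of unordered pairs is |B'|/2).
`no_bad` applied to Γ' \ D: |Γ'| - |B'|/2 ≤ 4 (|Ctr| + |Tgt|).
In B' one has automatically p.1 ≠ q.2 and q.1 ≠ p.2 (different roles), so B' is the set of elements of the bad set of the
statement all of whose four (distinct) points p.1, p.2, q.1, q.2 have the prescribed roles. Sum over all ρ^N functions s
(N = |X|) and divide by ρ^N: by card_two each p ∈ Γ (p.1 ≠ p.2) is in Γ' for ρ^(N-2) functions s; by card_four each element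
of the bad set is in B' for ρ^(N-4) functions; |Ctr| and |Tgt| have mean N/ρ (card_one). This gives
 M/ρ² - bad/(2ρ⁴) ≤ 8 N/ρ.
-/

namespace UIPQ

open Finset

variable {X : Type} [Fintype X] [DecidableEq X]

open Classical in
/-- The number of ordered bad pairs of paths. -/
noncomputable def badCount (π : X → X → X) (Γ : Finset (X × X)) : ℕ :=
  ((Γ ×ˢ Γ).filter (fun z => z.1.1 ≠ z.2.1 ∧ z.1.2 ≠ z.2.2 ∧ z.1.1 ≠ z.2.2 ∧ z.2.1 ≠ z.1.2 ∧
    ∃ v, onPath (π z.1.1) z.1.1 z.1.2 v ∧ onPath (π z.2.1) z.2.1 z.2.2 v)).card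

private theorem cf_cover {α : Type} [DecidableEq α] (R : α → α → Prop)
    (hs : ∀ p q, R p q → R q p) (hi : ∀ p, ¬ R p p) (V : Finset α) :
    ∀ P : Finset (α × α), (∀ p ∈ V, ∀ q ∈ V, R p q → (p, q) ∈ P) →
      ∃ D ⊆ V, 2 * D.card ≤ P.card ∧ ∀ p ∈ V, ∀ q ∈ V, p ∉ D → q ∉ D → ¬ R p q := by
  induction V using Finset.induction_on with
  | empty =>
    intro P _
    refine ⟨∅, Finset.empty_subset _, by simp, fun p hp => absurd hp (Finset.notMem_empty p)⟩
  | insert a V ha ih =>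
    intro P hP
    obtain ⟨D, hDV, hD, hR⟩ := ih (P.filter (fun z => z.1 ∈ V ∧ z.2 ∈ V)) (by
      intro p hp q hq h
      exact Finset.mem_filter.2
        ⟨hP p (Finset.mem_insert_of_mem hp) q (Finset.mem_insert_of_mem hq) h, hp, hq⟩)
    by_cases h : ∃ q ∈ V, q ∉ D ∧ R a q
    · obtain ⟨q, hq, hqD, haq⟩ := h
      have haq' : a ≠ q := fun h => ha (h ▸ hq)
      refine ⟨insert a D, Finset.insert_subset_insert a hDV, ?_, ?_⟩
      · have h1 : (insert a D).card = D.card + 1 :=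
          Finset.card_insert_of_notMem (fun h => ha (hDV h))
        have hdis : Disjoint (P.filter (fun z => z.1 ∈ V ∧ z.2 ∈ V)) {(a, q), (q, a)} := by
          rw [Finset.disjoint_right]
          intro z hz hz'
          have h2 := (Finset.mem_filter.1 hz').2
          rcases Finset.mem_insert.1 hz with h3 | h3
          · rw [h3] at h2
            exact ha h2.1
          · rw [Finset.mem_singleton.1 h3] at h2
            exact ha h2.2
        have h2 : (P.filter (fun z => z.1 ∈ V ∧ z.2 ∈ V) ∪ {(a, q), (q, a)}).card =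
            (P.filter (fun z => z.1 ∈ V ∧ z.2 ∈ V)).card + 2 := by
          rw [Finset.card_union_of_disjoint hdis, Finset.card_pair]
          intro h3
          exact haq' (Prod.mk.inj h3).1
        have h3 : P.filter (fun z => z.1 ∈ V ∧ z.2 ∈ V) ∪ {(a, q), (q, a)} ⊆ P := by
          apply Finset.union_subset (Finset.filter_subset _ _)
          intro z hz
          rcases Finset.mem_insert.1 hz with h3 | h3
          · rw [h3]
            exact hP a (Finset.mem_insert_self a V) q (Finset.mem_insert_of_mem hq) haq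
          · rw [Finset.mem_singleton.1 h3]
            exact hP q (Finset.mem_insert_of_mem hq) a (Finset.mem_insert_self a V) (hs a q haq)
        have h4 := Finset.card_le_card h3
        omega
      · intro p hp q' hq' hpD hqD'
        have hp1 : p ∈ V := (Finset.mem_insert.1 hp).resolve_left
          (fun h => hpD (by rw [h]; exact Finset.mem_insert_self a D))
        have hq1 : q' ∈ V := (Finset.mem_insert.1 hq').resolve_left
          (fun h => hqD' (by rw [h]; exact Finset.mem_insert_self a D))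
        exact hR p hp1 q' hq1 (fun h => hpD (Finset.mem_insert_of_mem h))
          (fun h => hqD' (Finset.mem_insert_of_mem h))
    · push Not at h
      refine ⟨D, hDV.trans (Finset.subset_insert a V),
        hD.trans (Finset.card_le_card (Finset.filter_subset _ _)), ?_⟩
      intro p hp q hq hpD hqD hpq
      rcases Finset.mem_insert.1 hp with h1 | h1
      · rcases Finset.mem_insert.1 hq with h2 | h2
        · rw [h1, h2] at hpq
          exact hi a hpq
        · rw [h1] at hpq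
          exact h q h2 hqD hpq
      · rcases Finset.mem_insert.1 hq with h2 | h2
        · rw [h2] at hpq
          exact h p h1 hpD (hs p a hpq)
        · exact hR p h1 q h2 hpD hqD hpq

open Classical in
private theorem cf_bad (π : X → X → X) (Γ : Finset (X × X)) :
    ∃ B : Finset ((X × X) × (X × X)), B.card = badCount π Γ ∧
      ∀ z, z ∈ B ↔ (z.1 ∈ Γ ∧ z.2 ∈ Γ) ∧ (z.1.1 ≠ z.2.1 ∧ z.1.2 ≠ z.2.2 ∧ z.1.1 ≠ z.2.2 ∧
        z.2.1 ≠ z.1.2 ∧ ∃ v, onPath (π z.1.1) z.1.1 z.1.2 v ∧ onPath (π z.2.1) z.2.1 z.2.2 v) := by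
  refine ⟨(Γ ×ˢ Γ).filter (fun z => z.1.1 ≠ z.2.1 ∧ z.1.2 ≠ z.2.2 ∧ z.1.1 ≠ z.2.2 ∧ z.2.1 ≠ z.1.2 ∧
    ∃ v, onPath (π z.1.1) z.1.1 z.1.2 v ∧ onPath (π z.2.1) z.2.1 z.2.2 v), rfl, fun z => ?_⟩
  rw [Finset.mem_filter, Finset.mem_product]

private theorem cf_double {α β : Type} [Fintype α] (B : Finset β) (Pr : α → β → Prop)
    [∀ a b, Decidable (Pr a b)] (c t : ℝ)
    (h : ∀ b ∈ B, c * ((univ : Finset α).filter (fun a => Pr a b)).card = t) :
    c * ∑ a : α, ((B.filter (fun b => Pr a b)).card : ℝ) = B.card * t := by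
  have h1 : ∑ a : α, ((B.filter (fun b => Pr a b)).card : ℝ) =
      ∑ b ∈ B, (((univ : Finset α).filter (fun a => Pr a b)).card : ℝ) := by
    have h2 : ∀ a : α, ((B.filter (fun b => Pr a b)).card : ℝ) =
        ∑ b ∈ B, if Pr a b then (1 : ℝ) else 0 := by
      intro a
      rw [Finset.sum_boole]
    have h3 : ∀ b : β, (((univ : Finset α).filter (fun a => Pr a b)).card : ℝ) =
        ∑ a : α, if Pr a b then (1 : ℝ) else 0 := by
      intro b
      rw [Finset.sum_boole]
    simp only [h2, h3]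
    exact Finset.sum_comm
  rw [h1, Finset.mul_sum, Finset.sum_congr rfl h, Finset.sum_const, nsmul_eq_mul]

theorem crossing_fixed (m : CMap X) (hm : m.Planar) (π : X → X → X) (Γ : Finset (X × X))
    (hne : ∀ p ∈ Γ, p.1 ≠ p.2) (hreach : ∀ p ∈ Γ, ∃ n : ℕ, (π p.1)^[n] p.2 = p.1)
    (hstep : ∀ x v, π x v = v ∨ m.HAdj v (π x v)) (ρ : ℕ) (hρ : 2 ≤ ρ) :
    (Γ.card : ℝ) / (ρ : ℝ) ^ 2 ≤
      8 * (Fintype.card X : ℝ) / ρ + (badCount π Γ : ℝ) / (2 * (ρ : ℝ) ^ 4) := by
  obtain ⟨B, hBc, hB⟩ := cf_bad π Γ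
  let i0 : Fin ρ := ⟨0, by omega⟩
  let i1 : Fin ρ := ⟨1, by omega⟩
  have h01 : i0 ≠ i1 := by
    intro h
    have := congrArg Fin.val h
    exact absurd this (by simp [i0, i1])
  -- the inequality for one role function
  have key : ∀ s : X → Fin ρ,
      2 * (Γ.filter (fun p => s p.1 = i0 ∧ s p.2 = i1)).card ≤
        8 * (((univ : Finset X).filter (fun x => s x = i0)).card +
          ((univ : Finset X).filter (fun x => s x = i1)).card) +
        (B.filter (fun z => s z.1.1 = i0 ∧ s z.1.2 = i1 ∧ s z.2.1 = i0 ∧ s z.2.2 = i1)).card := by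
    intro s
    obtain ⟨D, hDV, hD, hR⟩ := cf_cover
      (fun p q : X × X => p.1 ≠ q.1 ∧ p.2 ≠ q.2 ∧
        ∃ v, onPath (π p.1) p.1 p.2 v ∧ onPath (π q.1) q.1 q.2 v)
      (fun p q h => ⟨h.1.symm, h.2.1.symm, by
        obtain ⟨v, h1, h2⟩ := h.2.2
        exact ⟨v, h2, h1⟩⟩)
      (fun p h => h.1 rfl) (Γ.filter (fun p => s p.1 = i0 ∧ s p.2 = i1))
      (B.filter (fun z => s z.1.1 = i0 ∧ s z.1.2 = i1 ∧ s z.2.1 = i0 ∧ s z.2.2 = i1)) (by
        intro p hp q hq h
        rw [Finset.mem_filter] at hp hq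
        rw [Finset.mem_filter, hB]
        refine ⟨⟨⟨hp.1, hq.1⟩, h.1, h.2.1, ?_, ?_, h.2.2⟩, hp.2.1, hp.2.2, hq.2.1, hq.2.2⟩
        · intro h1
          apply h01
          have h1' : p.1 = q.2 := h1
          rw [← hp.2.1, h1', hq.2.2]
        · intro h1
          apply h01
          have h1' : q.1 = p.2 := h1
          rw [← hq.2.1, h1', hp.2.2])
    have h1 := no_bad m hm ((univ : Finset X).filter (fun x => s x = i0))
      ((univ : Finset X).filter (fun x => s x = i1)) π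
      (Γ.filter (fun p => s p.1 = i0 ∧ s p.2 = i1) \ D)
      (by
        intro p hp
        have h2 := (Finset.mem_filter.1 (Finset.mem_sdiff.1 hp).1).2
        exact ⟨Finset.mem_filter.2 ⟨Finset.mem_univ _, h2.1⟩,
          Finset.mem_filter.2 ⟨Finset.mem_univ _, h2.2⟩⟩)
      (fun p hp => hreach p (Finset.mem_filter.1 (Finset.mem_sdiff.1 hp).1).1) hstep
      (by
        intro p hp q hq h2 h3 v h4
        rw [Finset.mem_sdiff] at hp hq
        exact hR p hp.1 q hq.1 hp.2 hq.2 ⟨h2, h3, v, h4⟩)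
    have h2 := Finset.card_sdiff_add_card_eq_card hDV
    omega
  -- sum over the role functions
  have hN : (0 : ℝ) < (ρ : ℝ) ^ Fintype.card X := pow_pos (by exact_mod_cast (by omega : 0 < ρ)) _
  have hρ0 : (0 : ℝ) < ρ := by exact_mod_cast (by omega : 0 < ρ)
  have s1 := cf_double (α := X → Fin ρ) Γ (fun s p => s p.1 = i0 ∧ s p.2 = i1) ((ρ : ℝ) ^ 2)
    ((ρ : ℝ) ^ Fintype.card X) (fun p hp => card_two ρ p.1 p.2 (hne p hp) i0 i1)
  have s2 := cf_double (α := X → Fin ρ) (univ : Finset X) (fun s x => s x = i0) (ρ : ℝ)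
    ((ρ : ℝ) ^ Fintype.card X) (fun x _ => card_one ρ x i0)
  have s3 := cf_double (α := X → Fin ρ) (univ : Finset X) (fun s x => s x = i1) (ρ : ℝ)
    ((ρ : ℝ) ^ Fintype.card X) (fun x _ => card_one ρ x i1)
  have s4 := cf_double (α := X → Fin ρ) B
    (fun s z => s z.1.1 = i0 ∧ s z.1.2 = i1 ∧ s z.2.1 = i0 ∧ s z.2.2 = i1) ((ρ : ℝ) ^ 4)
    ((ρ : ℝ) ^ Fintype.card X) (fun z hz => by
      have h1 := (hB z).1 hz
      refine card_four ρ z.1.1 z.1.2 z.2.1 z.2.2 ?_ i0 i1 i0 i1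
      have h2 := hne z.1 h1.1.1
      have h3 := hne z.2 h1.1.2
      simp only [List.nodup_cons, List.mem_cons, List.not_mem_nil, or_false, not_or,
        not_false_eq_true, List.nodup_nil, and_true]
      exact ⟨⟨h2, h1.2.1, h1.2.2.2.1⟩, ⟨h1.2.2.2.2.1.symm, h1.2.2.1⟩, h3⟩)
  have hsum : ∑ s : X → Fin ρ, (2 * ((Γ.filter (fun p => s p.1 = i0 ∧ s p.2 = i1)).card : ℝ)) ≤
      ∑ s : X → Fin ρ, (8 * ((((univ : Finset X).filter (fun x => s x = i0)).card : ℝ) +
          ((univ : Finset X).filter (fun x => s x = i1)).card) +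
        ((B.filter (fun z => s z.1.1 = i0 ∧ s z.1.2 = i1 ∧ s z.2.1 = i0 ∧ s z.2.2 = i1)).card : ℝ)) := by
    refine Finset.sum_le_sum fun s _ => ?_
    exact_mod_cast key s
  rw [← Finset.mul_sum, Finset.sum_add_distrib, ← Finset.mul_sum, Finset.sum_add_distrib] at hsum
  have e1 : ∑ s : X → Fin ρ, ((Γ.filter (fun p => s p.1 = i0 ∧ s p.2 = i1)).card : ℝ) =
      (Γ.card : ℝ) * (ρ : ℝ) ^ Fintype.card X / (ρ : ℝ) ^ 2 := by
    rw [eq_div_iff (by positivity), mul_comm]
    exact s1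
  have e2 : ∑ s : X → Fin ρ, (((univ : Finset X).filter (fun x => s x = i0)).card : ℝ) =
      (Fintype.card X : ℝ) * (ρ : ℝ) ^ Fintype.card X / (ρ : ℝ) := by
    rw [eq_div_iff (by positivity), mul_comm]
    exact s2
  have e3 : ∑ s : X → Fin ρ, (((univ : Finset X).filter (fun x => s x = i1)).card : ℝ) =
      (Fintype.card X : ℝ) * (ρ : ℝ) ^ Fintype.card X / (ρ : ℝ) := by
    rw [eq_div_iff (by positivity), mul_comm]
    exact s3
  have e4 : ∑ s : X → Fin ρ, ((B.filter (fun z => s z.1.1 = i0 ∧ s z.1.2 = i1 ∧ s z.2.1 = i0 ∧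
      s z.2.2 = i1)).card : ℝ) = (B.card : ℝ) * (ρ : ℝ) ^ Fintype.card X / (ρ : ℝ) ^ 4 := by
    rw [eq_div_iff (by positivity), mul_comm]
    exact s4
  rw [e1, e2, e3, e4, hBc] at hsum
  have h5 : (Γ.card : ℝ) / (ρ : ℝ) ^ 2 * (2 * (ρ : ℝ) ^ Fintype.card X) ≤
      (8 * (Fintype.card X : ℝ) / ρ + (badCount π Γ : ℝ) / (2 * (ρ : ℝ) ^ 4)) *
        (2 * (ρ : ℝ) ^ Fintype.card X) := by
    calc (Γ.card : ℝ) / (ρ : ℝ) ^ 2 * (2 * (ρ : ℝ) ^ Fintype.card X)
        = 2 * ((Γ.card : ℝ) * (ρ : ℝ) ^ Fintype.card X / (ρ : ℝ) ^ 2) := by ring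
      _ ≤ _ := hsum
      _ = _ := by
        field_simp
        ring
  exact le_of_mul_le_mul_right h5 (by positivity)

end UIPQ
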