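import Pool.Agent.Lib.UIPQ.FDefs

/-!
# Cut: the genus inequality and the cut form (planarity as linear algebra mod 2)

PROOF. Everything over F = ZMod 2, X finite. (If X is empty all is trivial: `genus_le` reads 0 ≤ 4.)
K = {G : X → F | G (k x) = G x}: dimension |X|/2 (functions on the set of k-orbits, all of size 2; or:
the map G ↦ G∘k + G on X → F has kernel K and image inside K, and image = K because a k-invariant G is
H + H∘k with H = G on one element of each pair; so 2 dim K = |X|).
U = functions on `Vertex` (dimension V), delta : U → K, delta c (x) = c (vert x) + c (vert (k x)).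
The kernel of delta is the constants, because `Connected` says that any two darts are joined by moves r
(same vertex) and k: so rank delta = V - 1 (X nonempty).
B : K → (Face → F), (B G) φ = sum of G over the darts x of the face φ. The rank of B is at least F - 1:
a linear functional s on (Face → F) (a vector s : Face → F) which vanishes on the image of B satisfies
s(face x) + s(face (k x)) = 0 for all x (apply it to B G with G = 1_{x} + 1_{k x}), and s (face (f x)) = s (face x);
as r x = f (k x), s is invariant under k and r, hence constant: the annihilator of the image has dimension at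
most 1. Hence dim ker B = |X|/2 - rank B ≤ |X|/2 - F + 1.
The image of delta lies in ker B: for G x = c(vert x) + c (vert (k x)) one has c(vert (k x)) = c (vert (r (k x)))
= c (vert (f x)), so the sum of G over an orbit of f is sum c(vert x) + sum c(vert (f x)) = 0.
So V - 1 ≤ dim ker B ≤ |X|/2 - F + 1: this is `genus_le`. If m is planar the two ends are equal, so
image delta = ker B: this is `cut_form` (c of the statement is c ∘ vert).
-/

namespace UIPQ

open Module

section general

variable {X : Type}

private def fc (m : CMap X) (x : X) : m.Face := Quotient.mk (Equiv.Perm.SameCycle.setoid m.f) x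

private theorem fc_eq (m : CMap X) (x y : X) : fc m x = fc m y ↔ m.f.SameCycle x y :=
  ⟨fun h => Quotient.exact h, fun h => Quotient.sound h⟩

private theorem vert_r (m : CMap X) (x : X) : m.vert (m.r x) = m.vert x :=
  Quotient.sound (show m.r.SameCycle (m.r x) x from (Equiv.Perm.sameCycle_apply_left.2 (Equiv.Perm.SameCycle.refl _ _)))

private theorem fc_f (m : CMap X) (x : X) : fc m (m.f x) = fc m x :=
  Quotient.sound (show m.f.SameCycle (m.f x) x from (Equiv.Perm.sameCycle_apply_left.2 (Equiv.Perm.SameCycle.refl _ _)))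

private theorem add_self2 (a : ZMod 2) : a + a = 0 := by
  revert a; decide

private theorem eq_of_add2 {a b : ZMod 2} (h : a + b = 0) : a = b := by
  revert a b; decide

/-- functions invariant under `r` and `k` are constant -/
private theorem const_of_inv {A : Type} (m : CMap X) (hc : m.Connected) (s : X → A) (hr : ∀ x, s (m.r x) = s x)
    (hk : ∀ x, s (m.k x) = s x) (x y : X) : s x = s y := by
  have h1 := hc x y
  induction h1 with
  | rel a b h =>
    rcases h with h | h
    · rw [h, hr]
    · rw [h, hk]
  | refl a => rfl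
  | symm a b _ ih => exact ih.symm
  | trans a b c _ _ ih1 ih2 => exact ih1.trans ih2

/-- the functions on the edges -/
private def Kk (m : CMap X) : Submodule (ZMod 2) (X → ZMod 2) where
  carrier := {G | ∀ x, G (m.k x) = G x}
  zero_mem' := fun _ => rfl
  add_mem' := by
    intro a b ha hb x
    show a (m.k x) + b (m.k x) = a x + b x
    rw [ha x, hb x]
  smul_mem' := by
    intro c a ha x
    show c • a (m.k x) = c • a x
    rw [ha x]

private theorem mem_Kk {m : CMap X} {G : X → ZMod 2} : G ∈ Kk m ↔ ∀ x, G (m.k x) = G x := Iff.rfl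

private def Tk (m : CMap X) : (X → ZMod 2) →ₗ[ZMod 2] (X → ZMod 2) where
  toFun G x := G x + G (m.k x)
  map_add' := by
    intro a b
    funext x
    show a x + b x + (a (m.k x) + b (m.k x)) = a x + a (m.k x) + (b x + b (m.k x))
    ring
  map_smul' := by
    intro c a
    funext x
    show c * a x + c * a (m.k x) = c * (a x + a (m.k x))
    ring

private theorem ker_Tk (m : CMap X) : LinearMap.ker (Tk m) = Kk m := by
  ext G
  rw [LinearMap.mem_ker, mem_Kk]
  constructor
  · intro h x
    have h1 : G x + G (m.k x) = 0 := congrFun h x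
    exact (eq_of_add2 h1).symm
  · intro h
    funext x
    show G x + G (m.k x) = 0
    rw [h x]
    exact add_self2 _

private def Dl (m : CMap X) : (m.Vertex → ZMod 2) →ₗ[ZMod 2] (X → ZMod 2) where
  toFun c x := c (m.vert x) + c (m.vert (m.k x))
  map_add' := by
    intro a b
    funext x
    show a (m.vert x) + b (m.vert x) + (a (m.vert (m.k x)) + b (m.vert (m.k x))) =
      a (m.vert x) + a (m.vert (m.k x)) + (b (m.vert x) + b (m.vert (m.k x)))
    ring
  map_smul' := by
    intro c a
    funext x
    show c * a (m.vert x) + c * a (m.vert (m.k x)) = c * (a (m.vert x) + a (m.vert (m.k x)))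
    ring

private theorem Dl_apply (m : CMap X) (c : m.Vertex → ZMod 2) (x : X) :
    Dl m c x = c (m.vert x) + c (m.vert (m.k x)) := rfl

end general

variable {X : Type} [Fintype X]

private theorem Kk_dim (m : CMap X) : 2 * finrank (ZMod 2) (Kk m) ≤ Nat.card X := by
  classical
  have h1 : Kk m ≤ LinearMap.range (Tk m) := by
    intro G hG
    have e := Fintype.equivFin X
    refine ⟨fun x => if e x < e (m.k x) then G x else 0, ?_⟩
    funext x
    show (if e x < e (m.k x) then G x else 0) + (if e (m.k x) < e (m.k (m.k x)) then G (m.k x) else 0) = G x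
    rw [m.k_k, hG x]
    rcases lt_trichotomy (e x) (e (m.k x)) with h | h | h
    · rw [if_pos h, if_neg h.not_gt, add_zero]
    · exact absurd (e.injective h).symm (m.k_ne x)
    · rw [if_neg h.not_gt, if_pos h, zero_add]
  have h2 := LinearMap.finrank_range_add_finrank_ker (Tk m)
  rw [ker_Tk, Module.finrank_fintype_fun_eq_card, ← Nat.card_eq_fintype_card] at h2
  have h3 := Submodule.finrank_mono h1
  omega

open Classical in
private noncomputable def Bm (m : CMap X) : (X → ZMod 2) →ₗ[ZMod 2] (m.Face → ZMod 2) where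
  toFun G φ := ∑ x, if fc m x = φ then G x else 0
  map_add' := by
    intro a b
    funext φ
    show (∑ x, if fc m x = φ then a x + b x else 0) =
      (∑ x, if fc m x = φ then a x else 0) + ∑ x, if fc m x = φ then b x else 0
    rw [← Finset.sum_add_distrib]
    refine Finset.sum_congr rfl fun x _ => ?_
    split_ifs <;> simp
  map_smul' := by
    intro c a
    funext φ
    show (∑ x, if fc m x = φ then c * a x else 0) = c * ∑ x, if fc m x = φ then a x else 0
    rw [Finset.mul_sum]
    refine Finset.sum_congr rfl fun x _ => ?_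
    split_ifs <;> simp

open Classical in
private theorem Bm_apply (m : CMap X) (G : X → ZMod 2) (φ : m.Face) :
    Bm m G φ = ∑ x, if fc m x = φ then G x else 0 := rfl

private theorem Bm_fc (m : CMap X) (G : X → ZMod 2) (x : X) : Bm m G (fc m x) = orbSum m.f G x := by
  classical
  rw [Bm_apply]
  unfold orbSum
  rw [Finset.sum_filter]
  refine Finset.sum_congr rfl fun y _ => ?_
  have h1 : fc m y = fc m x ↔ m.f.SameCycle x y := by
    rw [eq_comm, fc_eq]
  by_cases h : m.f.SameCycle x y
  · rw [if_pos (h1.2 h), if_pos h]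
  · rw [if_neg fun h' => h (h1.1 h'), if_neg h]

private theorem Bm_single [DecidableEq X] (m : CMap X) [DecidableEq m.Face] (x : X) :
    Bm m (Pi.single x 1) = Pi.single (fc m x) 1 := by
  classical
  funext φ
  rw [Bm_apply, Finset.sum_eq_single x]
  · rw [Pi.single_eq_same]
    by_cases h : fc m x = φ
    · rw [if_pos h, ← h, Pi.single_eq_same]
    · rw [if_neg h, Pi.single_eq_of_ne (Ne.symm h)]
  · intro y _ hy
    rw [Pi.single_eq_of_ne hy]
    simp
  · intro h
    exact absurd (Finset.mem_univ x) h

private instance (m : CMap X) : Finite m.Vertex := by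
  unfold CMap.Vertex
  infer_instance

private instance (m : CMap X) : Finite m.Face := by
  unfold CMap.Face
  infer_instance

/-- the sum of `c(vert x) + c(vert (k x))` over a face is zero -/
private theorem Bm_Dl (m : CMap X) (c : m.Vertex → ZMod 2) : Bm m (Dl m c) = 0 := by
  classical
  funext φ
  rw [Bm_apply]
  have h1 : ∀ x, m.vert (m.k x) = m.vert (m.f x) := by
    intro x
    rw [m.f_apply, vert_r]
  have h2 : (∑ x, if fc m x = φ then Dl m c x else 0) =
      (∑ x, if fc m x = φ then c (m.vert x) else 0) + ∑ x, if fc m (m.f x) = φ then c (m.vert (m.f x)) else 0 := by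
    rw [← Finset.sum_add_distrib]
    refine Finset.sum_congr rfl fun x _ => ?_
    rw [fc_f, Dl_apply, h1]
    split_ifs <;> simp
  rw [h2, Equiv.sum_comp m.f (fun x => if fc m x = φ then c (m.vert x) else 0)]
  exact add_self2 _

private noncomputable def Zz (m : CMap X) : Submodule (ZMod 2) (X → ZMod 2) :=
  (LinearMap.ker (Bm m ∘ₗ (Kk m).subtype)).map (Kk m).subtype

private theorem mem_Zz {m : CMap X} {G : X → ZMod 2} : G ∈ Zz m ↔ G ∈ Kk m ∧ Bm m G = 0 := by
  unfold Zz
  rw [Submodule.mem_map]
  constructor
  · rintro ⟨g, hg, rfl⟩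
    exact ⟨g.2, hg⟩
  · rintro ⟨h1, h2⟩
    exact ⟨⟨G, h1⟩, h2, rfl⟩

private theorem Dl_le (m : CMap X) : LinearMap.range (Dl m) ≤ Zz m := by
  rintro _ ⟨c, rfl⟩
  rw [mem_Zz]
  refine ⟨fun x => ?_, Bm_Dl m c⟩
  rw [Dl_apply, Dl_apply, m.k_k, add_comm]

private theorem finrank_le_one {V : Type*} [AddCommGroup V] [Module (ZMod 2) V] (W : Submodule (ZMod 2) V) (v : V)
    (h : W ≤ Submodule.span (ZMod 2) {v}) : finrank (ZMod 2) W ≤ 1 := by
  have h1 : finrank (ZMod 2) (Submodule.span (ZMod 2) ({v} : Set V)) ≤ 1 := by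
    simpa using finrank_span_le_card (R := ZMod 2) ({v} : Set V)
  exact (Submodule.finrank_mono h).trans h1

private theorem Dl_dim (m : CMap X) (hc : m.Connected) :
    Nat.card m.Vertex ≤ finrank (ZMod 2) (LinearMap.range (Dl m)) + 1 := by
  classical
  haveI := Fintype.ofFinite m.Vertex
  have h1 := LinearMap.finrank_range_add_finrank_ker (Dl m)
  rw [Module.finrank_fintype_fun_eq_card, ← Nat.card_eq_fintype_card] at h1
  have h2 : finrank (ZMod 2) (LinearMap.ker (Dl m)) ≤ 1 := by
    refine finrank_le_one _ (fun _ => 1) fun c hcc => ?_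
    rw [Submodule.mem_span_singleton]
    have h3 : ∀ x y, c (m.vert x) = c (m.vert y) := by
      refine const_of_inv m hc (fun x => c (m.vert x)) (fun x => ?_) fun x => ?_
      · show c (m.vert (m.r x)) = c (m.vert x)
        rw [vert_r]
      · have h4 : c (m.vert x) + c (m.vert (m.k x)) = 0 := congrFun hcc x
        exact (eq_of_add2 h4).symm
    by_cases hX : Nonempty X
    · obtain ⟨x0⟩ := hX
      refine ⟨c (m.vert x0), funext fun v => ?_⟩
      obtain ⟨x, rfl⟩ : ∃ x, m.vert x = v := Quotient.exists_rep v
      show c (m.vert x0) * 1 = c (m.vert x)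
      rw [mul_one]
      exact h3 _ _
    · refine ⟨0, funext fun v => ?_⟩
      obtain ⟨x, rfl⟩ : ∃ x, m.vert x = v := Quotient.exists_rep v
      exact absurd ⟨x⟩ hX
  omega

private theorem Bm_dim (m : CMap X) (hc : m.Connected) :
    Nat.card m.Face ≤ finrank (ZMod 2) (LinearMap.range (Bm m ∘ₗ (Kk m).subtype)) + 1 := by
  classical
  haveI := Fintype.ofFinite m.Face
  have h1 := Subspace.finrank_add_finrank_dualAnnihilator_eq (LinearMap.range (Bm m ∘ₗ (Kk m).subtype))
  rw [Module.finrank_fintype_fun_eq_card, ← Nat.card_eq_fintype_card] at h1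
  have h2 : finrank (ZMod 2) (LinearMap.range (Bm m ∘ₗ (Kk m).subtype)).dualAnnihilator ≤ 1 := by
    refine finrank_le_one _ (∑ ψ, LinearMap.proj ψ) fun t ht => ?_
    rw [Submodule.mem_span_singleton]
    rw [Submodule.mem_dualAnnihilator] at ht
    have h3 : ∀ x : X, t (Pi.single (fc m (m.k x)) 1) = t (Pi.single (fc m x) 1) := by
      intro x
      have h4 : (Pi.single x 1 + Pi.single (m.k x) 1 : X → ZMod 2) ∈ Kk m := by
        intro y
        show (Pi.single x 1 : X → ZMod 2) (m.k y) + (Pi.single (m.k x) 1 : X → ZMod 2) (m.k y) =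
          (Pi.single x 1 : X → ZMod 2) y + (Pi.single (m.k x) 1 : X → ZMod 2) y
        simp only [Pi.single_apply]
        have h5 : (m.k y = x) ↔ (y = m.k x) := by
          constructor
          · rintro rfl; rw [m.k_k]
          · rintro rfl; rw [m.k_k]
        have h6 : (m.k y = m.k x) ↔ (y = x) := m.k.injective.eq_iff
        simp only [h5, h6]
        ring
      have h5 := ht _ ⟨⟨_, h4⟩, rfl⟩
      change t (Bm m (Pi.single x 1 + Pi.single (m.k x) 1)) = 0 at h5
      rw [map_add, Bm_single, Bm_single, map_add] at h5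
      exact (eq_of_add2 h5).symm
    have h4 : ∀ x y : X, t (Pi.single (fc m x) 1) = t (Pi.single (fc m y) 1) := by
      refine const_of_inv m hc (fun x => t (Pi.single (fc m x) 1)) (fun x => ?_) h3
      show t (Pi.single (fc m (m.r x)) 1) = t (Pi.single (fc m x) 1)
      have h5 : m.r x = m.f (m.k x) := by rw [m.f_apply, m.k_k]
      rw [h5, fc_f, h3]
    have h5 : ∀ ψ φ : m.Face, t (Pi.single ψ 1) = t (Pi.single φ 1) := by
      intro ψ φ
      obtain ⟨x, rfl⟩ : ∃ x, fc m x = ψ := Quotient.exists_rep ψ
      obtain ⟨y, rfl⟩ : ∃ x, fc m x = φ := Quotient.exists_rep φ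
      exact h4 x y
    by_cases hX : Nonempty m.Face
    · obtain ⟨ψ0⟩ := hX
      refine ⟨t (Pi.single ψ0 1), ?_⟩
      refine LinearMap.pi_ext fun ψ a => ?_
      have h6 : (Pi.single ψ a : m.Face → ZMod 2) = a • Pi.single ψ 1 := by
        rw [← Pi.single_smul, smul_eq_mul, mul_one]
      rw [h6, map_smul, map_smul, h5 ψ ψ0, LinearMap.smul_apply, LinearMap.sum_apply]
      simp
    · refine ⟨0, ?_⟩
      refine LinearMap.pi_ext fun ψ a => ?_
      exact absurd ⟨ψ⟩ hX
  omega

private theorem Zz_dim (m : CMap X) :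
    2 * (finrank (ZMod 2) (LinearMap.range (Bm m ∘ₗ (Kk m).subtype)) + finrank (ZMod 2) (Zz m)) ≤ Nat.card X := by
  have h1 := LinearMap.finrank_range_add_finrank_ker (Bm m ∘ₗ (Kk m).subtype)
  have h2 : finrank (ZMod 2) (Zz m) = finrank (ZMod 2) (LinearMap.ker (Bm m ∘ₗ (Kk m).subtype)) :=
    Submodule.finrank_map_subtype_eq _ _
  rw [h2, h1]
  exact Kk_dim m

theorem genus_le (m : CMap X) (hc : m.Connected) :
    2 * (Nat.card m.Vertex + Nat.card m.Face) ≤ Nat.card X + 4 := by
  have h1 := Zz_dim m
  have h2 := Bm_dim m hc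
  have h3 := Dl_dim m hc
  have h4 := Submodule.finrank_mono (Dl_le m)
  omega

theorem cut_form (m : CMap X) (hm : m.Planar) (G : X → ZMod 2) (hk : ∀ x, G (m.k x) = G x)
    (hf : ∀ x, orbSum m.f G x = 0) :
    ∃ c : X → ZMod 2, (∀ x, c (m.r x) = c x) ∧ ∀ x, G x = c x + c (m.k x) := by
  have h1 := Zz_dim m
  have h2 := Bm_dim m hm.conn
  have h3 := Dl_dim m hm.conn
  have h4 := hm.euler
  have h5 : LinearMap.range (Dl m) = Zz m := Submodule.eq_of_le_of_finrank_le (Dl_le m) (by omega)
  have h6 : G ∈ Zz m := by
    rw [mem_Zz]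
    refine ⟨hk, funext fun φ => ?_⟩
    obtain ⟨x, rfl⟩ : ∃ x, fc m x = φ := Quotient.exists_rep φ
    rw [Bm_fc]
    exact hf x
  rw [← h5] at h6
  obtain ⟨c, hc⟩ := h6
  refine ⟨fun x => c (m.vert x), fun x => ?_, fun x => ?_⟩
  · show c (m.vert (m.r x)) = c (m.vert x)
    rw [vert_r]
  · rw [← hc]
    rfl

end UIPQ
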