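import Pool.Agent.Lib.UIPQ.A.Cut

/-!
# Cyc: the cycle form, and every mod 2 cycle of the dart graph is the boundary of a colouring of its faces

PROOF.
`dual_planar`: m.dual = (r := f, k := k), and m.dual.f = m.r (`CMap.dual_f`). So Vertex of the dual = Face
of m (definitional) and Face of the dual = Vertex of m (rewrite with dual_f). Connected: r x = f (k x), so the
moves f, k generate the moves r, k and conversely (f x = r (k x)).
`cycle_form` = `cut_form` applied to m.dual.
`hcycle_form`: zK x = value of z on the edge {x, k x}, zR x = value of z on the edge {x, r x}. Summing the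
equation hz over an r-orbit: the sums of zR x and of zR (r⁻¹ x) are equal and cancel, so the sum of zK over every
r-orbit is 0; `cycle_form` gives c, f-invariant, with zK x = c x + c (k x). Put C x := zR x + c (k x). C is
r-invariant: C x + C (r⁻¹ x) = zR x + zR (r⁻¹ x) + c (k x) + c (k (r⁻¹ x)) = zK x + c (k x) + c (k (r⁻¹ x)) by hz, and
f (k (r⁻¹ x)) = r (k (k (r⁻¹ x))) = x, so c (k (r⁻¹ x)) = c x, and the total is zK x + c x + c (k x) = 0.
-/

namespace UIPQ

variable {X : Type} [Fintype X]

theorem dual_planar (m : CMap X) (hm : m.Planar) : m.dual.Planar := by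
  refine ⟨?_, ?_⟩
  · intro x y
    have h := hm.conn x y
    induction h with
    | rel a b h =>
      rcases h with h | h
      · -- b = r a = f (k a)
        have h1 : Relation.EqvGen (fun a b => b = m.dual.r a ∨ b = m.dual.k a) a (m.k a) :=
          Relation.EqvGen.rel _ _ (Or.inr rfl)
        have h2 : Relation.EqvGen (fun a b => b = m.dual.r a ∨ b = m.dual.k a) (m.k a) b := by
          refine Relation.EqvGen.rel _ _ (Or.inl ?_)
          rw [h]
          show m.r a = m.r (m.k (m.k a))
          rw [m.k_k]
        exact Relation.EqvGen.trans _ _ _ h1 h2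
      · exact Relation.EqvGen.rel _ _ (Or.inr h)
    | refl a => exact Relation.EqvGen.refl _
    | symm a b _ ih => exact Relation.EqvGen.symm _ _ ih
    | trans a b c _ _ ih1 ih2 => exact Relation.EqvGen.trans _ _ _ ih1 ih2
  · have h1 : Nat.card m.dual.Vertex = Nat.card m.Face := rfl
    have h2 : Nat.card m.dual.Face = Nat.card m.Vertex := by
      unfold CMap.Face CMap.Vertex
      rw [m.dual_f]
    rw [h1, h2, add_comm (Nat.card m.Face)]
    exact hm.euler

theorem cycle_form (m : CMap X) (hm : m.Planar) (G : X → ZMod 2) (hk : ∀ x, G (m.k x) = G x)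
    (hr : ∀ x, orbSum m.r G x = 0) :
    ∃ c : X → ZMod 2, (∀ x, c (m.f x) = c x) ∧ ∀ x, G x = c x + c (m.k x) := by
  have h := cut_form m.dual (dual_planar m hm) G hk (by
    intro x
    rw [m.dual_f]
    exact hr x)
  exact h

theorem hcycle_form (m : CMap X) (hm : m.Planar) (zK zR : X → ZMod 2)
    (hk : ∀ x, zK (m.k x) = zK x) (hz : ∀ x, zK x + zR x + zR (m.r.symm x) = 0) :
    ∃ c C : X → ZMod 2, (∀ x, c (m.f x) = c x) ∧ (∀ x, C (m.r x) = C x) ∧
      (∀ x, zK x = c x + c (m.k x)) ∧ ∀ x, zR x = C x + c (m.k x) := by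
  have two : ∀ a : ZMod 2, a + a = 0 := by decide
  have e1 : ∀ a b : ZMod 2, a + b = 0 → a = b := by decide
  have hr : ∀ x, orbSum m.r zK x = 0 := by
    intro x
    classical
    have a1 : ∀ y, zK y = zR y + zR (m.r.symm y) := by
      intro y
      have := hz y
      rw [add_assoc] at this
      exact e1 _ _ this
    unfold orbSum
    have a2 : ∑ y ∈ Finset.univ.filter (fun y => m.r.SameCycle x y), zK y =
        ∑ y ∈ Finset.univ.filter (fun y => m.r.SameCycle x y), zR y +
        ∑ y ∈ Finset.univ.filter (fun y => m.r.SameCycle x y), zR (m.r.symm y) := by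
      rw [← Finset.sum_add_distrib]
      exact Finset.sum_congr rfl fun y _ => a1 y
    have a3 : ∑ y ∈ Finset.univ.filter (fun y => m.r.SameCycle x y), zR (m.r.symm y) =
        ∑ y ∈ Finset.univ.filter (fun y => m.r.SameCycle x y), zR y := by
      refine Finset.sum_bij' (fun y _ => m.r.symm y) (fun y _ => m.r y) ?_ ?_ ?_ ?_ ?_
      · intro y hy
        rw [Finset.mem_filter] at hy ⊢
        refine ⟨Finset.mem_univ _, ?_⟩
        exact (Equiv.Perm.sameCycle_symm_apply_right).2 hy.2
      · intro y hy
        rw [Finset.mem_filter] at hy ⊢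
        exact ⟨Finset.mem_univ _, Equiv.Perm.sameCycle_apply_right.2 hy.2⟩
      · intro y _
        exact m.r.apply_symm_apply y
      · intro y _
        exact m.r.symm_apply_apply y
      · intro y _
        rfl
    rw [a3] at a2
    rw [two] at a2
    convert a2
  obtain ⟨c, hc1, hc2⟩ := cycle_form m hm zK hk hr
  refine ⟨c, fun x => zR x + c (m.k x), hc1, ?_, hc2, ?_⟩
  · intro x
    -- C (r x) = C x
    have b1 := hz (m.r x)
    rw [Equiv.symm_apply_apply] at b1
    have b2 := hc2 (m.r x)
    have b3 : c (m.k x) = c (m.r x) := by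
      have := hc1 (m.k x)
      rw [← this]
      show c (m.r (m.k (m.k x))) = c (m.r x)
      rw [m.k_k]
    show zR (m.r x) + c (m.k (m.r x)) = zR x + c (m.k x)
    rw [b3]
    rw [b2] at b1
    have key : ∀ p q r s : ZMod 2, p + q + r + s = 0 → r + q = s + p := by decide
    exact key (c (m.r x)) (c (m.k (m.r x))) (zR (m.r x)) (zR x) b1
  · intro x
    show zR x = zR x + c (m.k x) + c (m.k x)
    rw [add_assoc, two, add_zero]

end UIPQ
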