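import Pool.Agent.Lib.UIPQ.A.EntLog

/-!
# EntBd: Ent_T ≤ 2 log T + C, and the sum of the f_T over dyadic times

PROOF. `ent_le`: let E = ent T ≥ 0, T ≥ 1. Q ≤ 40 T fT ≤ 80 T E (Q_le_fT, fT_le). By `ent_log`
E ≤ log(1 + 80 T E) + C ≤ log T + log(1 + 80 E) + C (1 + 80 T E ≤ T (1 + 80 E)), and log(1 + 80 E) ≤ E/2 + C'
(log(1+80E) = log((1+80E)/160) + log 160 ≤ (1+80E)/160 + log 160). So E/2 ≤ log T + C + C'.
`fT_sum`: exchange the sums: ∑_{i ≤ I} fT (2^i) = ∑_{t < 2^I} √(t+1) dent t ∑_{i ≤ I, t < 2^i} 2 · 2^(-i/2), and the inner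
sum is at most 2 (t+1)^(-1/2)/(1 - 2^(-1/2)) ≤ 7 (t+1)^(-1/2) (geometric series starting at the first i with 2^i ≥ t+1;
2/(1 - 1/√2) = 6.83). With dent ≥ 0 and ent_eq_sum: ≤ 7 ent (2^I).
`fT_sum_le`: 7 ent(2^I) ≤ 7 (2 I log 2 + C) ≤ 10 I + 7 C (14 log 2 < 9.71).
-/

namespace UIPQ

open Finset

/-- the geometric sum -/
private theorem entBd_geo (t n : ℕ) :
    ∑ i ∈ range n, (if t < 2 ^ i then (Real.sqrt ((2 : ℝ) ^ i))⁻¹ else 0) +
      7 / 2 * min (Real.sqrt ((2 : ℝ) ^ n))⁻¹ (Real.sqrt ((t : ℝ) + 1))⁻¹ ≤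
        7 / 2 * (Real.sqrt ((t : ℝ) + 1))⁻¹ := by
  have ht0 : (0 : ℝ) < (t : ℝ) + 1 := by positivity
  induction n with
  | zero =>
    rw [range_zero, sum_empty, zero_add]
    exact mul_le_mul_of_nonneg_left (min_le_right _ _) (by norm_num)
  | succ n ih =>
    rw [sum_range_succ]
    have h2 : (0 : ℝ) < (2 : ℝ) ^ n := by positivity
    by_cases h : t < 2 ^ n
    · rw [if_pos h]
      have h3 : (t : ℝ) + 1 ≤ 2 ^ n := by exact_mod_cast h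
      have h4 : (Real.sqrt ((2 : ℝ) ^ n))⁻¹ ≤ (Real.sqrt ((t : ℝ) + 1))⁻¹ :=
        inv_anti₀ (Real.sqrt_pos.2 ht0) (Real.sqrt_le_sqrt h3)
      rw [min_eq_left h4] at ih
      have h5 : (Real.sqrt ((2 : ℝ) ^ (n + 1)))⁻¹ ≤ 5 / 7 * (Real.sqrt ((2 : ℝ) ^ n))⁻¹ := by
        rw [pow_succ, Real.sqrt_mul h2.le, mul_inv, mul_comm]
        refine mul_le_mul_of_nonneg_right ?_ (inv_nonneg.2 (Real.sqrt_nonneg _))
        have h6 : (7 / 5 : ℝ) ≤ Real.sqrt 2 := Real.le_sqrt_of_sq_le (by norm_num)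
        have h7 := inv_anti₀ (by norm_num : (0 : ℝ) < 7 / 5) h6
        rwa [inv_div] at h7
      have h6 := min_le_left (Real.sqrt ((2 : ℝ) ^ (n + 1)))⁻¹ (Real.sqrt ((t : ℝ) + 1))⁻¹
      linarith
    · rw [if_neg h, add_zero]
      have h3 : (2 : ℝ) ^ n ≤ (t : ℝ) + 1 := by
        have h4 : (2 : ℝ) ^ n ≤ (t : ℝ) := by exact_mod_cast not_lt.1 h
        linarith
      have h4 : (Real.sqrt ((t : ℝ) + 1))⁻¹ ≤ (Real.sqrt ((2 : ℝ) ^ n))⁻¹ :=
        inv_anti₀ (Real.sqrt_pos.2 h2) (Real.sqrt_le_sqrt h3)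
      rw [min_eq_right h4] at ih
      have h6 := min_le_right (Real.sqrt ((2 : ℝ) ^ (n + 1)))⁻¹ (Real.sqrt ((t : ℝ) + 1))⁻¹
      linarith

private theorem entBd_geo' (t n : ℕ) :
    Real.sqrt ((t : ℝ) + 1) *
      ∑ i ∈ range n, (if t < 2 ^ i then (Real.sqrt ((2 : ℝ) ^ i))⁻¹ else 0) ≤ 7 / 2 := by
  have ht0 : (0 : ℝ) < (t : ℝ) + 1 := by positivity
  have h0 : 0 < Real.sqrt ((t : ℝ) + 1) := Real.sqrt_pos.2 ht0
  have h1 := entBd_geo t n
  have h2 : 0 ≤ min (Real.sqrt ((2 : ℝ) ^ n))⁻¹ (Real.sqrt ((t : ℝ) + 1))⁻¹ :=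
    le_min (inv_nonneg.2 (Real.sqrt_nonneg _)) (inv_nonneg.2 (Real.sqrt_nonneg _))
  have h3 : ∑ i ∈ range n, (if t < 2 ^ i then (Real.sqrt ((2 : ℝ) ^ i))⁻¹ else 0) ≤
      7 / 2 * (Real.sqrt ((t : ℝ) + 1))⁻¹ := by linarith
  calc _ ≤ Real.sqrt ((t : ℝ) + 1) * (7 / 2 * (Real.sqrt ((t : ℝ) + 1))⁻¹) :=
        mul_le_mul_of_nonneg_left h3 h0.le
    _ = 7 / 2 := by
        field_simp

theorem ent_le : ∃ C : ℝ, 0 ≤ C ∧ ∀ (X : Type) [Fintype X] [DecidableEq X] (m : CMap X),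
    m.Planar → ∀ T : ℕ, 1 ≤ T → m.ent T ≤ 2 * Real.log T + C := by
  obtain ⟨C1, hC1, h⟩ := ent_log
  have hlog : 0 ≤ Real.log 160 := Real.log_nonneg (by norm_num)
  refine ⟨2 * (Real.log 160 + C1), by positivity, ?_⟩
  intro X _ _ m hm T hT
  have hE := ent_nonneg m T
  have h1 := h X m hm T
  have hQ := Q_nonneg m T
  have hT' : (1 : ℝ) ≤ T := by exact_mod_cast hT
  have hQ2 : m.Q T ≤ 80 * T * m.ent T := by
    have h2 := Q_le_fT m T hT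
    have h3 := fT_le m T hT
    have h4 : 40 * (T : ℝ) * m.fT T ≤ 40 * T * (2 * m.ent T) :=
      mul_le_mul_of_nonneg_left h3 (by positivity)
    linarith
  have h2 : 1 + m.Q T ≤ T * (1 + 80 * m.ent T) := by
    have h3 : (1 : ℝ) ≤ T := hT'
    linarith
  have h3 : Real.log (1 + m.Q T) ≤ Real.log T + Real.log (1 + 80 * m.ent T) := by
    rw [← Real.log_mul (by positivity) (by positivity)]
    exact Real.log_le_log (by positivity) h2
  have h4 : Real.log (1 + 80 * m.ent T) ≤ m.ent T / 2 + Real.log 160 := by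
    have h5 : (1 + 80 * m.ent T) = ((1 + 80 * m.ent T) / 160) * 160 := by ring
    rw [h5, Real.log_mul (by positivity) (by norm_num)]
    have h6 := Real.log_le_sub_one_of_pos (show 0 < (1 + 80 * m.ent T) / 160 by positivity)
    linarith
  linarith

theorem fT_sum {X : Type} [Fintype X] (m : CMap X) (I : ℕ) :
    ∑ i ∈ range (I + 1), m.fT (2 ^ i) ≤ 7 * m.ent (2 ^ I) := by
  have h1 : ∀ i ∈ range (I + 1), m.fT (2 ^ i) = ∑ t ∈ range (2 ^ I),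
      2 * (m.dent t * (Real.sqrt ((t : ℝ) + 1) *
        (if t < 2 ^ i then (Real.sqrt ((2 : ℝ) ^ i))⁻¹ else 0))) := by
    intro i hi
    have hi' : i ≤ I := Nat.lt_succ_iff.1 (mem_range.1 hi)
    have hsub : range (2 ^ i) = (range (2 ^ I)).filter (fun t => t < 2 ^ i) := by
      ext t
      rw [mem_filter, mem_range, mem_range]
      exact ⟨fun h => ⟨h.trans_le (Nat.pow_le_pow_right (by norm_num) hi'), h⟩, fun h => h.2⟩
    unfold CMap.fT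
    rw [hsub, sum_filter, mul_sum]
    refine sum_congr rfl fun t _ => ?_
    push_cast
    split_ifs
    · rw [div_eq_mul_inv]
      ring
    · ring
  rw [sum_congr rfl h1, sum_comm, ent_eq_sum, mul_sum]
  refine sum_le_sum fun t _ => ?_
  rw [← mul_sum, ← mul_sum, ← mul_sum]
  have h2 := entBd_geo' t (I + 1)
  have h3 := dent_nonneg m t
  have h4 := mul_le_mul_of_nonneg_left h2 h3
  linarith

theorem fT_sum_le : ∃ C : ℝ, 0 ≤ C ∧ ∀ (X : Type) [Fintype X] [DecidableEq X] (m : CMap X),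
    m.Planar → ∀ I : ℕ, ∑ i ∈ range (I + 1), m.fT (2 ^ i) ≤ 10 * I + C := by
  obtain ⟨C1, hC1, h⟩ := ent_le
  refine ⟨7 * C1, by positivity, ?_⟩
  intro X _ _ m hm I
  have h1 := fT_sum m I
  have h2 := h X m hm (2 ^ I) Nat.one_le_two_pow
  have h3 : Real.log ((2 ^ I : ℕ) : ℝ) = I * Real.log 2 := by
    push_cast
    rw [Real.log_pow]
  rw [h3] at h2
  have h4 := Real.log_two_lt_d9
  have h5 : (I : ℝ) * Real.log 2 ≤ I * 0.6931471808 :=
    mul_le_mul_of_nonneg_left h4.le (Nat.cast_nonneg I)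
  have h6 : (0 : ℝ) ≤ I := Nat.cast_nonneg I
  linarith

end UIPQ
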