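import Pool.Agent.Lib.UIPQ.A.Layer

/-!
# EntLog: Ent_T ≤ log (1 + Q_T) + C

PROOF. m planar (X may be empty: then ent = 0). N = |X|. Write L = log 2. For x ≠ y with p = pt T x y > 0 let j be the layer of
(x,y): (1/2)^(j+1) < p ≤ (1/2)^j (p ≤ 1), so negMulLog p = p log(1/p) ≤ p (j+1) L. The diagonal terms contribute at most
(1/N) ∑_x negMulLog (pt T x x) ≤ 1 (negMulLog ≤ 1/e ≤ 1 on [0,1]). X finite: there is J such that all positive pt T x y are
> (1/2)^J. So ent T ≤ 1 + L ∑_{j<J} (j+1) m_j, m_j = layer T j, ∑ m_j ≤ 1 (layer_sum). Let j0 = the least natural number with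
2^j0 ≥ 1 + Q; 2^j0 ≤ 2(1+Q), so j0 L ≤ log(1+Q) + L. As j + 1 ≤ (j0 + 1) + (j - j0)^+ :
 ∑ (j+1) m_j ≤ (j0+1) + ∑_{i ≥ 1} i m_{j0+i}, and by layer_le, 2^(-j0) Q ≤ 1:
 m_{j0+i} ≤ 16 (2^(-i))^(1/3) + 32 · 2^(-i). The series ∑ i (16 · 2^(-i/3) + 32 · 2^(-i)) converges (its sum is < 400).
So ent T ≤ log(1+Q) + C0 with C0 = 1 + 2L + 400 L.
(The constant must be absolute: it comes before X, m, T.)
-/

namespace UIPQ

open Finset

/-- the bound of one term -/
private noncomputable def Fs (i : ℕ) : ℝ :=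
  (i : ℝ) * (16 * ((1 / 2 : ℝ) ^ i) ^ (1 / 3 : ℝ) + 32 * (1 / 2 : ℝ) ^ i)

private theorem Fs_nonneg (i : ℕ) : 0 ≤ Fs i := by
  unfold Fs
  positivity

private theorem Fs_summable : Summable Fs := by
  have h0 : (0 : ℝ) < 1 / 2 := by norm_num
  have hr : ((1 / 2 : ℝ) ^ (1 / 3 : ℝ)) < 1 := Real.rpow_lt_one h0.le (by norm_num) (by norm_num)
  have hr0 : 0 ≤ ((1 / 2 : ℝ) ^ (1 / 3 : ℝ)) := Real.rpow_nonneg h0.le _
  have h1 : Summable (fun n : ℕ => (n : ℝ) ^ 1 * ((1 / 2 : ℝ) ^ (1 / 3 : ℝ)) ^ n) :=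
    summable_pow_mul_geometric_of_norm_lt_one 1 (by rwa [Real.norm_of_nonneg hr0])
  have h2 : Summable (fun n : ℕ => (n : ℝ) ^ 1 * (1 / 2 : ℝ) ^ n) :=
    summable_pow_mul_geometric_of_norm_lt_one 1 (by rw [Real.norm_of_nonneg h0.le]; norm_num)
  refine ((h1.mul_left 16).add (h2.mul_left 32)).congr fun n => ?_
  unfold Fs
  have h3 : ((1 / 2 : ℝ) ^ n) ^ (1 / 3 : ℝ) = ((1 / 2 : ℝ) ^ (1 / 3 : ℝ)) ^ n := by
    rw [← Real.rpow_natCast, ← Real.rpow_natCast, ← Real.rpow_mul h0.le, ← Real.rpow_mul h0.le, mul_comm]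
  rw [h3]
  ring

private theorem Fs_shift (j0 J : ℕ) : ∑ j ∈ range J, Fs (j - j0) = ∑ i ∈ range (J - j0), Fs i := by
  induction J with
  | zero => simp
  | succ J ih =>
    rw [sum_range_succ, ih]
    rcases lt_or_ge J j0 with h | h
    · rw [show J + 1 - j0 = 0 by omega, show J - j0 = 0 by omega]
      simp [Fs]
    · rw [show J + 1 - j0 = (J - j0) + 1 by omega, sum_range_succ]

/-- the part of the transition probabilities in one layer -/
private noncomputable def gl {X : Type} (m : CMap X) (T j : ℕ) (x y : X) : ℝ := by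
  classical exact if x ≠ y ∧ (1 / 2 : ℝ) ^ (j + 1) < m.pt T x y ∧ m.pt T x y ≤ (1 / 2 : ℝ) ^ j then m.pt T x y
    else 0

private theorem gl_nonneg {X : Type} [Fintype X] (m : CMap X) (T j : ℕ) (x y : X) : 0 ≤ gl m T j x y := by
  unfold gl
  split_ifs
  · exact pt_nonneg m T x y
  · exact le_rfl

private theorem gl_eq {X : Type} (m : CMap X) (T j : ℕ) (x y : X) (hxy : x ≠ y)
    (h1 : (1 / 2 : ℝ) ^ (j + 1) < m.pt T x y) (h2 : m.pt T x y ≤ (1 / 2 : ℝ) ^ j) :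
    gl m T j x y = m.pt T x y := by
  unfold gl
  rw [if_pos ⟨hxy, h1, h2⟩]

private theorem layer_eq {X : Type} [Fintype X] (m : CMap X) (T j : ℕ) :
    m.layer T j = (∑ x : X, ∑ y : X, gl m T j x y) / (Fintype.card X : ℝ) := rfl

private theorem negMulLog_le_one {p : ℝ} (h0 : 0 ≤ p) (h1 : p ≤ 1) : Real.negMulLog p ≤ 1 := by
  rcases h0.eq_or_lt with h | h
  · rw [← h, Real.negMulLog_zero]
    exact zero_le_one
  · have h2 := Real.one_sub_inv_le_log_of_pos h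
    have h3 : p * (1 - p⁻¹) ≤ p * Real.log p := mul_le_mul_of_nonneg_left h2 h0
    have h4 : p * (1 - p⁻¹) = p - 1 := by field_simp
    rw [Real.negMulLog]
    linarith

/-- the pointwise bound -/
private theorem point_le {X : Type} [Fintype X] [DecidableEq X] (m : CMap X) (T J : ℕ)
    (hJ : ∀ x y : X, 0 < m.pt T x y → (1 / 2 : ℝ) ^ J < m.pt T x y) (x y : X) :
    Real.negMulLog (m.pt T x y) ≤ (if x = y then 1 else 0) +
      ∑ j ∈ range J, ((j : ℝ) + 1) * Real.log 2 * gl m T j x y := by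
  have hL : 0 < Real.log 2 := Real.log_pos one_lt_two
  have hterm : ∀ j ∈ range J, 0 ≤ ((j : ℝ) + 1) * Real.log 2 * gl m T j x y := fun j _ =>
    mul_nonneg (by positivity) (gl_nonneg m T j x y)
  have hsum : 0 ≤ ∑ j ∈ range J, ((j : ℝ) + 1) * Real.log 2 * gl m T j x y := sum_nonneg hterm
  by_cases hxy : x = y
  · rw [if_pos hxy]
    have := negMulLog_le_one (pt_nonneg m T x y) (pt_le_one m T x y)
    linarith
  · rw [if_neg hxy, zero_add]
    rcases (pt_nonneg m T x y).eq_or_lt with h | h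
    · rw [← h, Real.negMulLog_zero]
      exact hsum
    · have hex : ∃ j, (1 / 2 : ℝ) ^ j < m.pt T x y := ⟨J, hJ x y h⟩
      classical
      obtain ⟨j', hj', hmin⟩ : ∃ j', (1 / 2 : ℝ) ^ j' < m.pt T x y ∧
          ∀ i < j', ¬ (1 / 2 : ℝ) ^ i < m.pt T x y :=
        ⟨Nat.find hex, Nat.find_spec hex, fun i hi => Nat.find_min hex hi⟩
      have hj0 : j' ≠ 0 := by
        rintro rfl
        rw [pow_zero] at hj'
        exact absurd (pt_le_one m T x y) (not_le.2 hj')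
      obtain ⟨j, rfl⟩ := Nat.exists_eq_succ_of_ne_zero hj0
      have hjJ : j < J := by
        by_contra hc
        exact hmin J (by omega) (hJ x y h)
      have h1 : m.pt T x y ≤ (1 / 2 : ℝ) ^ j := not_lt.1 (hmin j (by omega))
      have h2 : -(((j : ℝ) + 1) * Real.log 2) ≤ Real.log (m.pt T x y) := by
        have h3 : Real.log ((1 / 2 : ℝ) ^ (j + 1)) ≤ Real.log (m.pt T x y) :=
          Real.log_le_log (by positivity) hj'.le
        have h4 : Real.log ((1 / 2 : ℝ) ^ (j + 1)) = -(((j : ℝ) + 1) * Real.log 2) := by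
          rw [Real.log_pow, one_div, Real.log_inv]
          push_cast
          ring
        rwa [h4] at h3
      calc Real.negMulLog (m.pt T x y) = m.pt T x y * (- Real.log (m.pt T x y)) := by
            rw [Real.negMulLog]; ring
        _ ≤ m.pt T x y * (((j : ℝ) + 1) * Real.log 2) :=
            mul_le_mul_of_nonneg_left (by linarith) h.le
        _ = ((j : ℝ) + 1) * Real.log 2 * gl m T j x y := by
            rw [gl_eq m T j x y hxy hj' h1]; ring
        _ ≤ _ := single_le_sum (f := fun j : ℕ => ((j : ℝ) + 1) * Real.log 2 * gl m T j x y)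
            hterm (mem_range.2 hjJ)

private theorem ent_le_layers {X : Type} [Fintype X] [DecidableEq X] [Nonempty X] (m : CMap X) (T : ℕ) :
    ∃ J : ℕ, m.ent T ≤ 1 + Real.log 2 * ∑ j ∈ range J, ((j : ℝ) + 1) * m.layer T j := by
  have h1 : ∀ p : X × X, ∃ J : ℕ, 0 < m.pt T p.1 p.2 → (1 / 2 : ℝ) ^ J < m.pt T p.1 p.2 := by
    intro p
    by_cases hp : 0 < m.pt T p.1 p.2
    · obtain ⟨J, hJ⟩ := exists_pow_lt_of_lt_one hp (show (1 / 2 : ℝ) < 1 by norm_num)
      exact ⟨J, fun _ => hJ⟩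
    · exact ⟨0, fun h => absurd h hp⟩
  choose Jf hJf using h1
  have hJ : ∀ x y : X, 0 < m.pt T x y → (1 / 2 : ℝ) ^ (univ.sup Jf) < m.pt T x y := by
    intro x y hxy
    refine lt_of_le_of_lt ?_ (hJf (x, y) hxy)
    exact pow_le_pow_of_le_one (by norm_num) (by norm_num) (le_sup (f := Jf) (mem_univ (x, y)))
  refine ⟨univ.sup Jf, ?_⟩
  have hN : (0 : ℝ) < Fintype.card X := by exact_mod_cast Fintype.card_pos
  rw [CMap.ent, div_le_iff₀ hN]
  have h2 : ∑ x : X, ∑ y : X, Real.negMulLog (m.pt T x y) ≤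
      ∑ x : X, ∑ y : X, ((if x = y then (1 : ℝ) else 0) +
        ∑ j ∈ range (univ.sup Jf), ((j : ℝ) + 1) * Real.log 2 * gl m T j x y) :=
    sum_le_sum fun x _ => sum_le_sum fun y _ => point_le m T _ hJ x y
  refine h2.trans (le_of_eq ?_)
  have h3 : ∀ x : X, ∑ y : X, ((if x = y then (1 : ℝ) else 0) +
        ∑ j ∈ range (univ.sup Jf), ((j : ℝ) + 1) * Real.log 2 * gl m T j x y) =
      1 + ∑ j ∈ range (univ.sup Jf), ((j : ℝ) + 1) * Real.log 2 * ∑ y : X, gl m T j x y := by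
    intro x
    rw [sum_add_distrib, sum_ite_eq, if_pos (mem_univ x), sum_comm]
    congr 1
    exact sum_congr rfl fun j _ => (mul_sum _ _ _).symm
  rw [sum_congr rfl fun x _ => h3 x, sum_add_distrib, sum_comm, sum_const, card_univ, nsmul_eq_mul, mul_one,
    add_mul, one_mul, mul_sum, sum_mul]
  congr 1
  refine sum_congr rfl fun j _ => ?_
  rw [← mul_sum, layer_eq]
  field_simp

private theorem layers_le {X : Type} [Fintype X] [DecidableEq X] (m : CMap X) (hm : m.Planar) (T J j0 : ℕ)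
    (hQ0 : 0 ≤ m.Q T) (hQ : m.Q T ≤ 2 ^ j0) :
    ∑ j ∈ range J, ((j : ℝ) + 1) * m.layer T j ≤ (j0 : ℝ) + 1 + ∑' i, Fs i := by
  have h1 : ∀ j ∈ range J, ((j : ℝ) + 1) * m.layer T j ≤ ((j0 : ℝ) + 1) * m.layer T j + Fs (j - j0) := by
    intro j _
    rcases lt_or_ge j j0 with h | h
    · have h2 : (j : ℝ) ≤ j0 := by exact_mod_cast h.le
      have h3 := mul_le_mul_of_nonneg_right (show (j : ℝ) + 1 ≤ (j0 : ℝ) + 1 by linarith)
        (layer_nonneg m T j)
      have h4 := Fs_nonneg (j - j0)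
      linarith
    · obtain ⟨i, rfl⟩ := Nat.exists_eq_add_of_le h
      rw [Nat.add_sub_cancel_left]
      have h2 : ((1 / 2 : ℝ) ^ (j0 + i) * m.Q T) ≤ (1 / 2 : ℝ) ^ i := by
        rw [pow_add]
        have h5 : (1 / 2 : ℝ) ^ j0 * m.Q T ≤ 1 := by
          calc (1 / 2 : ℝ) ^ j0 * m.Q T ≤ (1 / 2 : ℝ) ^ j0 * 2 ^ j0 :=
                mul_le_mul_of_nonneg_left hQ (by positivity)
            _ = 1 := by rw [← mul_pow]; norm_num
        calc (1 / 2 : ℝ) ^ j0 * (1 / 2 : ℝ) ^ i * m.Q T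
            = (1 / 2 : ℝ) ^ i * ((1 / 2 : ℝ) ^ j0 * m.Q T) := by ring
          _ ≤ (1 / 2 : ℝ) ^ i * 1 := mul_le_mul_of_nonneg_left h5 (by positivity)
          _ = _ := mul_one _
      have h3 : ((1 / 2 : ℝ) ^ (j0 + i) * m.Q T) ^ (1 / 3 : ℝ) ≤ ((1 / 2 : ℝ) ^ i) ^ (1 / 3 : ℝ) :=
        Real.rpow_le_rpow (by positivity) h2 (by norm_num)
      have h4 : (1 / 2 : ℝ) ^ (j0 + i) ≤ (1 / 2 : ℝ) ^ i :=
        pow_le_pow_of_le_one (by norm_num) (by norm_num) (by omega)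
      have h6 : m.layer T (j0 + i) ≤ 16 * ((1 / 2 : ℝ) ^ i) ^ (1 / 3 : ℝ) + 32 * (1 / 2 : ℝ) ^ i := by
        have := layer_le m hm T (j0 + i)
        linarith
      have h7 := mul_le_mul_of_nonneg_left h6 (show (0 : ℝ) ≤ (i : ℝ) by positivity)
      unfold Fs
      push_cast
      linarith
  refine (sum_le_sum h1).trans ?_
  rw [sum_add_distrib, ← mul_sum, Fs_shift]
  have h2 := mul_le_mul_of_nonneg_left (layer_sum m T J) (show (0 : ℝ) ≤ (j0 : ℝ) + 1 by positivity)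
  have h3 : ∑ i ∈ range (J - j0), Fs i ≤ ∑' i, Fs i :=
    Fs_summable.sum_le_tsum _ fun i _ => Fs_nonneg i
  linarith

theorem ent_log : ∃ C : ℝ, 0 ≤ C ∧ ∀ (X : Type) [Fintype X] [DecidableEq X] (m : CMap X),
    m.Planar → ∀ T : ℕ, m.ent T ≤ Real.log (1 + m.Q T) + C := by
  have hL : 0 < Real.log 2 := Real.log_pos one_lt_two
  have hS : 0 ≤ ∑' i, Fs i := tsum_nonneg Fs_nonneg
  refine ⟨1 + 2 * Real.log 2 + Real.log 2 * ∑' i, Fs i, by positivity, ?_⟩
  intro X _ _ m hm T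
  have hQ0 : 0 ≤ m.Q T := by
    unfold CMap.Q
    positivity
  rcases isEmpty_or_nonempty X with hX | hX
  · have h1 : m.ent T = 0 := by
      unfold CMap.ent
      simp
    have h2 : 0 ≤ Real.log (1 + m.Q T) := Real.log_nonneg (by linarith)
    rw [h1]
    positivity
  · obtain ⟨J, hJ⟩ := ent_le_layers m T
    classical
    have hex : ∃ j : ℕ, 1 + m.Q T ≤ 2 ^ j := by
      obtain ⟨j, hj⟩ := pow_unbounded_of_one_lt (1 + m.Q T) one_lt_two
      exact ⟨j, hj.le⟩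
    obtain ⟨j0, hj0, hmin⟩ : ∃ j0 : ℕ, 1 + m.Q T ≤ 2 ^ j0 ∧ ∀ i < j0, ¬ 1 + m.Q T ≤ 2 ^ i :=
      ⟨Nat.find hex, Nat.find_spec hex, fun i hi => Nat.find_min hex hi⟩
    have h1 := layers_le m hm T J j0 hQ0 (by linarith)
    have h2 : (2 : ℝ) ^ j0 ≤ 2 * (1 + m.Q T) := by
      rcases Nat.eq_zero_or_pos j0 with h | h
      · rw [h, pow_zero]; linarith
      · obtain ⟨i, rfl⟩ := Nat.exists_eq_succ_of_ne_zero h.ne'
        have := not_le.1 (hmin i (by omega))
        rw [Nat.succ_eq_add_one, pow_succ]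
        linarith
    have h3 : (j0 : ℝ) * Real.log 2 ≤ Real.log 2 + Real.log (1 + m.Q T) := by
      rw [← Real.log_pow, ← Real.log_mul (by norm_num) (by linarith)]
      exact Real.log_le_log (by positivity) h2
    have h4 := mul_le_mul_of_nonneg_left h1 hL.le
    linarith

end UIPQ
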