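import Pool.Agent.Lib.UIPQ.A.Walk

/-!
# Entropy: the entropy increment controls the Hellinger gradient

PROOF. Fix x, write a_i(v) = pt t x (u_i v), so a_0(v) = pt t x v and abar(v) = pt (t+1) x v = (sum a_i(v))/4.
As each u_i is a bijection, sum_v a_i(v) log a_i(v) does not depend on i, and the entropy increment of the row x is
 sum_v negMulLog (abar v) - sum_v negMulLog (a_0 v) = sum_v ( (1/4) sum_i a_i log a_i - abar log abar ).
For a, b ≥ 0 with (b = 0 → a = 0): a log a - a log b ≥ a - b + (√a - √b)². [If a = 0: the right side is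
-b + b = 0. If a, b > 0: log s ≥ 1 - 1/s with s = √(a/b) gives a log (a/b) = 2 a log s ≥ 2a - 2√(ab) =
a - b + (√a - √b)².] With b = abar (abar = 0 forces a_i = 0) and averaging over i the linear terms cancel:
 increment ≥ sum_v G_v, G_v = (1/4) sum_i (√a_i - √abar)².
And (√a_0 - √a_i)² ≤ 2 (√a_0 - √abar)² + 2 (√a_i - √abar)², so
 sum_i (1/4)(√a_0 - √a_i)² ≤ 2 (√a_0 - √abar)² + 2 G_v ≤ 8 G_v + 2 G_v = 10 G_v.
Sum over v and x; ent = (sum over x of the row entropies)/|X|. `dent_nonneg` follows, `ent_zero`: pt 0 is 0 or 1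
and negMulLog 0 = negMulLog 1 = 0; `ent_nonneg`: negMulLog ≥ 0 on [0,1].
-/

namespace UIPQ

open Finset

variable {X : Type} [Fintype X]

private theorem ent_key {a b : ℝ} (ha : 0 ≤ a) (hb : 0 ≤ b) (h : b = 0 → a = 0) :
    a - b + (Real.sqrt a - Real.sqrt b) ^ 2 ≤ a * Real.log a - a * Real.log b := by
  rcases ha.eq_or_lt with h0 | h0
  · rw [← h0, Real.sqrt_zero, zero_sub, zero_sub, neg_sq, Real.sq_sqrt hb]
    simp
  · have hb0 : 0 < b := lt_of_le_of_ne hb fun h' => h0.ne' (h h'.symm)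
    have hp : 0 < Real.sqrt a := Real.sqrt_pos.2 h0
    have hq : 0 < Real.sqrt b := Real.sqrt_pos.2 hb0
    have h1 := Real.one_sub_inv_le_log_of_pos (div_pos hp hq)
    rw [Real.log_div hp.ne' hq.ne', Real.log_sqrt ha, Real.log_sqrt hb, inv_div] at h1
    have h2 : Real.sqrt a ^ 2 = a := Real.sq_sqrt ha
    have h3 : Real.sqrt b ^ 2 = b := Real.sq_sqrt hb
    have h5 : a * (Real.sqrt b / Real.sqrt a) = Real.sqrt a * Real.sqrt b := by
      rw [mul_div_assoc', div_eq_iff hp.ne']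
      nth_rewrite 1 [← h2]
      ring
    have h6 := mul_le_mul_of_nonneg_left h1 (by positivity : 0 ≤ 2 * a)
    have h7 : 2 * a * (1 - Real.sqrt b / Real.sqrt a) = 2 * a - 2 * (Real.sqrt a * Real.sqrt b) := by
      rw [← h5]
      ring
    rw [h7] at h6
    nlinarith [h6, h2, h3]

private theorem ent_point (a : Fin 4 → ℝ) (ha : ∀ i, 0 ≤ a i) (b : ℝ) (hb : b = (∑ i, a i) / 4) :
    ∑ i : Fin 4, (Real.sqrt (a 0) - Real.sqrt (a i)) ^ 2 / 4 ≤
      10 * (Real.negMulLog b - (∑ i, Real.negMulLog (a i)) / 4) := by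
  have hb0 : 0 ≤ b := by
    rw [hb]
    exact div_nonneg (Finset.sum_nonneg fun i _ => ha i) (by norm_num)
  have hz : ∀ i, b = 0 → a i = 0 := by
    intro i h
    have h1 : ∑ i, a i = 0 := by linarith
    exact (Finset.sum_eq_zero_iff_of_nonneg fun i _ => ha i).1 h1 i (Finset.mem_univ i)
  have k0 := ent_key (ha 0) hb0 (hz 0)
  have k1 := ent_key (ha 1) hb0 (hz 1)
  have k2 := ent_key (ha 2) hb0 (hz 2)
  have k3 := ent_key (ha 3) hb0 (hz 3)
  simp only [Fin.sum_univ_four] at hb ⊢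
  have hL : a 0 * Real.log b + a 1 * Real.log b + a 2 * Real.log b + a 3 * Real.log b =
      4 * (b * Real.log b) := by
    rw [hb]
    ring
  simp only [Real.negMulLog]
  set y := Real.sqrt b
  set x0 := Real.sqrt (a 0)
  set x1 := Real.sqrt (a 1)
  set x2 := Real.sqrt (a 2)
  set x3 := Real.sqrt (a 3)
  nlinarith [sq_nonneg (x0 + x1 - 2 * y), sq_nonneg (x0 + x2 - 2 * y), sq_nonneg (x0 + x3 - 2 * y),
    sq_nonneg (x1 - y), sq_nonneg (x2 - y), sq_nonneg (x3 - y), sq_nonneg (x0 - y)]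

private theorem ent_row (m : CMap X) (t : ℕ) (x : X) :
    ∑ v : X, ∑ i : Fin 4,
      (Real.sqrt (m.pt t x v) - Real.sqrt (m.pt t x (m.u i v))) ^ 2 / 4 ≤
        10 * (∑ v, Real.negMulLog (m.pt (t + 1) x v) - ∑ v, Real.negMulLog (m.pt t x v)) := by
  have h2 : ∑ v, Real.negMulLog (m.pt t x v) =
      ∑ v, (∑ i : Fin 4, Real.negMulLog (m.pt t x (m.u i v))) / 4 := by
    rw [← Finset.sum_div, Finset.sum_comm]
    have h1 : ∀ i : Fin 4, ∑ v, Real.negMulLog (m.pt t x (m.u i v)) =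
        ∑ v, Real.negMulLog (m.pt t x v) := fun i =>
      Equiv.sum_comp (m.u i) fun v => Real.negMulLog (m.pt t x v)
    simp only [h1]
    rw [Finset.sum_const, Finset.card_univ, Fintype.card_fin, nsmul_eq_mul]
    ring
  rw [h2, ← Finset.sum_sub_distrib, Finset.mul_sum]
  refine Finset.sum_le_sum fun v _ => ?_
  exact ent_point (fun i => m.pt t x (m.u i v)) (fun i => pt_nonneg m t x _) (m.pt (t + 1) x v) rfl

theorem entropy_production (m : CMap X) (t : ℕ) :
    ∑ x : X, ∑ v : X, ∑ i : Fin 4,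
      (Real.sqrt (m.pt t x v) - Real.sqrt (m.pt t x (m.u i v))) ^ 2 / 4 ≤
        10 * (Fintype.card X : ℝ) * m.dent t := by
  rcases isEmpty_or_nonempty X with hX | hX
  · simp
  · have hc : (0 : ℝ) < Fintype.card X := Nat.cast_pos.2 Fintype.card_pos
    have h1 : (Fintype.card X : ℝ) * m.dent t =
        ∑ x, (∑ v, Real.negMulLog (m.pt (t + 1) x v) - ∑ v, Real.negMulLog (m.pt t x v)) := by
      rw [Finset.sum_sub_distrib]
      unfold CMap.dent CMap.ent
      field_simp
    rw [mul_assoc, h1, Finset.mul_sum]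
    exact Finset.sum_le_sum fun x _ => ent_row m t x

theorem dent_nonneg (m : CMap X) (t : ℕ) : 0 ≤ m.dent t := by
  rcases isEmpty_or_nonempty X with hX | hX
  · simp [CMap.dent, CMap.ent]
  · have hc : (0 : ℝ) < Fintype.card X := Nat.cast_pos.2 Fintype.card_pos
    have h1 := entropy_production m t
    have h2 : (0 : ℝ) ≤ ∑ x : X, ∑ v : X, ∑ i : Fin 4,
        (Real.sqrt (m.pt t x v) - Real.sqrt (m.pt t x (m.u i v))) ^ 2 / 4 :=
      Finset.sum_nonneg fun x _ => Finset.sum_nonneg fun v _ => Finset.sum_nonneg fun i _ => by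
        positivity
    by_contra h3
    push Not at h3
    have h4 : 10 * (Fintype.card X : ℝ) * m.dent t < 0 := mul_neg_of_pos_of_neg (by positivity) h3
    linarith

theorem ent_zero (m : CMap X) : m.ent 0 = 0 := by
  classical
  unfold CMap.ent
  have h1 : ∑ x : X, ∑ y : X, Real.negMulLog (m.pt 0 x y) = 0 := by
    refine Finset.sum_eq_zero fun x _ => Finset.sum_eq_zero fun y _ => ?_
    rw [CMap.pt_zero]
    split_ifs
    · exact Real.negMulLog_one
    · exact Real.negMulLog_zero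
  rw [h1, zero_div]

theorem ent_nonneg (m : CMap X) (t : ℕ) : 0 ≤ m.ent t := by
  unfold CMap.ent
  exact div_nonneg (Finset.sum_nonneg fun x _ => Finset.sum_nonneg fun y _ =>
    Real.negMulLog_nonneg (pt_nonneg m t x y) (pt_le_one m t x y)) (Nat.cast_nonneg _)

/-- `Ent_T` is the sum of the increments. -/
theorem ent_eq_sum (m : CMap X) (T : ℕ) : m.ent T = ∑ t ∈ range T, m.dent t := by
  unfold CMap.dent
  rw [Finset.sum_range_sub, ent_zero, sub_zero]

end UIPQ
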