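import Pool.Agent.Lib.UIPQ.A.Walk
import Pool.Agent.Lib.UIPQ.A.Parent

/-!
# Law: the random parent functions of the walk

PROOF. g = m.green T x, b y = m.pt T x y, φ v w = ∑ i, if m.u i v = w then max (g v - g w) 0 / 4 else 0.
0 < φ v w implies g w < g v and (w = v is impossible) m.HAdj v w (m.u i v = w for some i ≠ 0: w = k v, w = r v, or
w = r⁻¹ v i.e. v = r w).
∑ w, φ v w = ∑ i, max (g v - g (u_i v)) 0 / 4 (exchange the sums). ∑ w, φ w v = ∑ i, max (g ((u_i)⁻¹ v) - g v) 0/4
= ∑ i, max (g (u_i v) - g v) 0 / 4 (u_inv). `green_eq` for v ≠ x: ∑ i, (g (u_i v) - g v)/4 = pt T x v, and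
max a 0 = a + max (-a) 0, so inflow = b + outflow: hypothesis hcons of `parent_law`.
The law q of `parent_law` works: v ≠ x: ∑ w, φ w v = ∑ i max(..)/4 ≤ ∑ i |g v - g (u_i v)|/4. v = x:
∑_{y ≠ x} b y = 1 - pt T x x = g x - ∑ i g (u_i x)/4 (green_eq at v = x) = ∑ i (g x - g (u_i x))/4 ≤ ∑ |..|/4.
-/

namespace UIPQ

open Finset

variable {X : Type} [Fintype X] [DecidableEq X]

/-- the flow -/
private noncomputable def law_phi (m : CMap X) (g : X → ℝ) (v w : X) : ℝ :=
  ∑ i : Fin 4, if m.u i v = w then max (g v - g w) 0 / 4 else 0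

omit [Fintype X] in
private theorem law_phi_nonneg (m : CMap X) (g : X → ℝ) (v w : X) : 0 ≤ law_phi m g v w := by
  unfold law_phi
  refine Finset.sum_nonneg fun i _ => ?_
  split_ifs
  · positivity
  · exact le_rfl

omit [Fintype X] in
private theorem law_phi_pos (m : CMap X) (g : X → ℝ) {v w : X} (h : 0 < law_phi m g v w) :
    g w < g v ∧ ∃ i, m.u i v = w := by
  unfold law_phi at h
  obtain ⟨i, -, hi⟩ := Finset.exists_lt_of_sum_lt (s := univ) (f := fun _ : Fin 4 => (0 : ℝ)) (by simpa using h)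
  split_ifs at hi with h1
  · refine ⟨?_, i, h1⟩
    by_contra hc
    rw [max_eq_right (by linarith)] at hi
    norm_num at hi
  · exact absurd hi (lt_irrefl _)

private theorem law_out (m : CMap X) (g : X → ℝ) (v : X) :
    ∑ w, law_phi m g v w = ∑ i : Fin 4, max (g v - g (m.u i v)) 0 / 4 := by
  unfold law_phi
  rw [Finset.sum_comm]
  refine Finset.sum_congr rfl fun i _ => ?_
  rw [Finset.sum_ite_eq univ (m.u i v) (fun w => max (g v - g w) 0 / 4), if_pos (mem_univ _)]

private theorem law_in (m : CMap X) (g : X → ℝ) (v : X) :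
    ∑ w, law_phi m g w v = ∑ i : Fin 4, max (g (m.u i v) - g v) 0 / 4 := by
  obtain ⟨s, hs⟩ := u_inv m
  unfold law_phi
  rw [Finset.sum_comm, ← Equiv.sum_comp s (fun i => max (g (m.u i v) - g v) 0 / 4)]
  refine Finset.sum_congr rfl fun i _ => ?_
  rw [← hs i]
  have h1 : ∀ w, (m.u i w = v ↔ (m.u i)⁻¹ v = w) := by
    intro w
    constructor
    · rintro rfl
      exact Equiv.symm_apply_apply _ _
    · rintro rfl
      exact Equiv.apply_symm_apply _ _
  simp_rw [h1]
  rw [Finset.sum_ite_eq univ ((m.u i)⁻¹ v) (fun w => max (g w - g v) 0 / 4), if_pos (mem_univ _)]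

omit [Fintype X] [DecidableEq X] in
private theorem law_adj (m : CMap X) {v w : X} (hne : w ≠ v) (h : ∃ i, m.u i w = v) : m.HAdj v w := by
  obtain ⟨i, hi⟩ := h
  fin_cases i
  · exact absurd hi hne
  · left
    have h1 : m.k w = v := hi
    rw [← h1, m.k_k]
  · right; right
    exact hi.symm
  · right; left
    have h1 : m.r⁻¹ w = v := hi
    rw [← h1]
    exact (Equiv.apply_symm_apply m.r w).symm

omit [Fintype X] [DecidableEq X] in
private theorem law_sum4 (m : CMap X) (g : X → ℝ) (v : X) :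
    ∑ i : Fin 4, (g v - g (m.u i v)) / 4 = g v - (∑ i : Fin 4, g (m.u i v)) / 4 := by
  rw [← Finset.sum_div, Finset.sum_sub_distrib, Finset.sum_const, Finset.card_univ, Fintype.card_fin,
    nsmul_eq_mul]
  push_cast
  ring

theorem exists_law (m : CMap X) (T : ℕ) (x : X) :
    ∃ q : X → X → ℝ, IsLaw q ∧
      (∀ π : X → X, (∀ v, 0 < q v (π v)) →
        (∀ v, π v = v ∨ m.HAdj v (π v)) ∧ ∀ y, 0 < m.pt T x y → ∃ n : ℕ, π^[n] y = x) ∧
      ∀ v, ∑ y ∈ univ.erase x, m.pt T x y * pathProb q x y v ≤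
        ∑ i : Fin 4, |m.green T x v - m.green T x (m.u i v)| / 4 := by
  obtain ⟨q, h1, h2, h3, h4⟩ := parent_law x (m.green T x) (m.pt T x) (law_phi m (m.green T x))
    (law_phi_nonneg m _) (fun v w h => (law_phi_pos m _ h).1) (pt_nonneg m T x) (by
      intro v hv
      have h5 := green_eq m T x v
      rw [if_neg (fun h => hv h.symm), ← law_sum4, zero_sub] at h5
      rw [law_in, law_out, ← sub_eq_iff_eq_add, ← Finset.sum_sub_distrib]
      have h6 : m.pt T x v = ∑ i : Fin 4, -((m.green T x v - m.green T x (m.u i v)) / 4) := by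
        rw [Finset.sum_neg_distrib, h5, neg_neg]
      rw [h6]
      refine Finset.sum_congr rfl fun i _ => ?_
      rcases le_total (m.green T x v) (m.green T x (m.u i v)) with h | h
      · rw [max_eq_left (by linarith), max_eq_right (by linarith)]
        ring
      · rw [max_eq_right (by linarith), max_eq_left (by linarith)]
        ring)
  refine ⟨q, h1, fun π hπ => ⟨fun v => ?_, (h2 π hπ).2⟩, fun v => ?_⟩
  · rcases (h2 π hπ).1 v with h | h
    · exact Or.inl h
    · obtain ⟨h5, h6⟩ := law_phi_pos m _ h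
      exact Or.inr (law_adj m (fun e => absurd h5 (by rw [e]; exact lt_irrefl _)) h6)
  · by_cases hv : v = x
    · rw [hv]
      have h5 := green_eq m T x x
      rw [if_pos rfl, ← law_sum4] at h5
      have h6 := pt_sum m T x
      rw [← Finset.add_sum_erase univ (m.pt T x) (mem_univ x)] at h6
      calc _ ≤ ∑ y ∈ univ.erase x, m.pt T x y := h4
        _ = ∑ i : Fin 4, (m.green T x x - m.green T x (m.u i x)) / 4 := by linarith
        _ ≤ _ := by
          refine Finset.sum_le_sum fun i _ => ?_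
          gcongr
          exact le_abs_self _
    · calc _ ≤ ∑ w, law_phi m (m.green T x) w v := h3 v hv
        _ = ∑ i : Fin 4, max (m.green T x (m.u i v) - m.green T x v) 0 / 4 := law_in m _ v
        _ ≤ _ := by
          refine Finset.sum_le_sum fun i _ => ?_
          gcongr
          rw [abs_sub_comm]
          exact max_le (le_abs_self _) (abs_nonneg _)

end UIPQ
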