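import Pool.Agent.Lib.UIPQ.A.Cross
import Pool.Agent.Lib.UIPQ.A.Law
import Pool.Agent.Lib.UIPQ.A.Cong

/-!
# Layer: the mass of one layer

PROOF. N = |X| (if N = 0 both sides: layer = 0/0 = 0). Let Γ = {(x,y) : x ≠ y, (1/2)^(j+1) < pt T x y ≤ (1/2)^j}, M = |Γ|.
layer T j ≤ (1/2)^j M / N. Choose for every x the law q x of `exists_law m T x`. For (x,y) ∈ Γ, pt T x y > 0, so hgood of
`crossing` holds. If M < 32 N then layer ≤ 32 (1/2)^j. Otherwise `crossing`: M³ ≤ 1024 N² ∑_v C(v)², and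
C v = ∑_{(x,y) ∈ Γ} pathProb ≤ 2^(j+1) ∑_x ∑_{y ≠ x} pt T x y * pathProb (q x) x y v ≤ 2^(j+1) cong T v. So
M³ ≤ 1024 N² 4^(j+1) N Q = 4096 · 4^j N³ Q and ((1/2)^j M/N)³ ≤ 4096 (1/2)^j Q, i.e. (1/2)^j M / N ≤ 16 ((1/2)^j Q)^(1/3).
`layer_sum`: the layers are disjoint parts of ∑_x ∑_y pt T x y = N.
-/

namespace UIPQ

open Finset

variable {X : Type} [Fintype X] [DecidableEq X]

omit [DecidableEq X] in
private theorem lay_eq (m : CMap X) (T j : ℕ) : ∃ g : X → X → ℝ,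
    m.layer T j = (∑ x : X, ∑ y : X, g x y) / (Fintype.card X : ℝ) ∧
    (∀ x y, (x ≠ y ∧ (1 / 2 : ℝ) ^ (j + 1) < m.pt T x y ∧ m.pt T x y ≤ (1 / 2 : ℝ) ^ j) →
      g x y = m.pt T x y) ∧
    ∀ x y, ¬ (x ≠ y ∧ (1 / 2 : ℝ) ^ (j + 1) < m.pt T x y ∧ m.pt T x y ≤ (1 / 2 : ℝ) ^ j) →
      g x y = 0 := by
  unfold CMap.layer
  refine ⟨_, rfl, ?_, ?_⟩
  · intro x y h
    exact if_pos h
  · intro x y h
    exact if_neg h

private theorem lay_path_nonneg {q : X → X → ℝ} (hq : IsLaw q) (x y v : X) :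
    0 ≤ pathProb q x y v := by
  unfold pathProb
  refine Finset.sum_nonneg fun π _ => ?_
  split_ifs
  · exact Finset.prod_nonneg fun w _ => hq.nonneg w _
  · exact le_refl _

private theorem lay_sum_pairs (Γ : Finset (X × X)) (F : X → X → ℝ) (hF : ∀ x y, 0 ≤ F x y)
    (hne : ∀ p ∈ Γ, p.1 ≠ p.2) : ∑ p ∈ Γ, F p.1 p.2 ≤ ∑ x : X, ∑ y ∈ univ.erase x, F x y := by
  have h1 : ∑ x : X, ∑ y ∈ univ.erase x, F x y =
      ∑ p ∈ (univ : Finset X).sigma (fun x => univ.erase x), F p.1 p.2 := by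
    rw [Finset.sum_sigma]
  rw [h1]
  have h2 : ∑ p ∈ Γ, F p.1 p.2 =
      ∑ p ∈ Γ.map ⟨fun p => (⟨p.1, p.2⟩ : Σ _ : X, X), fun a b h => by
        have h3 := Sigma.mk.inj h
        exact Prod.ext h3.1 (eq_of_heq h3.2)⟩, F p.1 p.2 := by
    rw [Finset.sum_map]
    rfl
  rw [h2]
  refine Finset.sum_le_sum_of_subset_of_nonneg ?_ fun p _ _ => hF _ _
  intro p hp
  obtain ⟨a, ha, rfl⟩ := Finset.mem_map.1 hp
  exact Finset.mem_sigma.2 ⟨Finset.mem_univ _,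
    Finset.mem_erase.2 ⟨(hne a ha).symm, Finset.mem_univ _⟩⟩

theorem layer_le (m : CMap X) (hm : m.Planar) (T j : ℕ) :
    m.layer T j ≤ 16 * ((1 / 2 : ℝ) ^ j * m.Q T) ^ (1 / 3 : ℝ) + 32 * (1 / 2 : ℝ) ^ j := by
  have hQ := Q_nonneg m T
  have hj : (0 : ℝ) < (1 / 2 : ℝ) ^ j := by positivity
  have ha : 0 ≤ (1 / 2 : ℝ) ^ j * m.Q T := mul_nonneg hj.le hQ
  have hr : 0 ≤ ((1 / 2 : ℝ) ^ j * m.Q T) ^ (1 / 3 : ℝ) := Real.rpow_nonneg ha _
  obtain ⟨g, hg, hg1, hg0⟩ := lay_eq m T j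
  rcases Nat.eq_zero_or_pos (Fintype.card X) with hN | hN
  · rw [hg, hN, Nat.cast_zero, div_zero]
    positivity
  have hN' : (0 : ℝ) < Fintype.card X := by exact_mod_cast hN
  obtain ⟨Γ, hΓ⟩ : ∃ Γ : Finset (X × X), ∀ p, p ∈ Γ ↔ (p.1 ≠ p.2 ∧
      (1 / 2 : ℝ) ^ (j + 1) < m.pt T p.1 p.2 ∧ m.pt T p.1 p.2 ≤ (1 / 2 : ℝ) ^ j) := by
    classical
    exact ⟨(univ : Finset (X × X)).filter (fun p => p.1 ≠ p.2 ∧
      (1 / 2 : ℝ) ^ (j + 1) < m.pt T p.1 p.2 ∧ m.pt T p.1 p.2 ≤ (1 / 2 : ℝ) ^ j),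
      fun p => by simp⟩
  have hsum : ∑ x : X, ∑ y : X, g x y ≤ (1 / 2 : ℝ) ^ j * Γ.card := by
    rw [← Finset.sum_product', Finset.univ_product_univ]
    have h1 : ∑ p : X × X, g p.1 p.2 = ∑ p ∈ Γ, g p.1 p.2 := by
      symm
      refine Finset.sum_subset (Finset.subset_univ _) fun p _ hp => ?_
      exact hg0 _ _ fun h => hp ((hΓ p).2 h)
    rw [h1, mul_comm, ← nsmul_eq_mul]
    refine Finset.sum_le_card_nsmul _ _ _ fun p hp => ?_
    have h2 := (hΓ p).1 hp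
    rw [hg1 _ _ h2]
    exact h2.2.2
  have hlay : m.layer T j ≤ (1 / 2 : ℝ) ^ j * Γ.card / (Fintype.card X : ℝ) := by
    rw [hg]
    exact div_le_div_of_nonneg_right hsum hN'.le
  rcases Nat.lt_or_ge Γ.card (32 * Fintype.card X) with hM | hM
  · have h1 : (1 / 2 : ℝ) ^ j * Γ.card / (Fintype.card X : ℝ) ≤ 32 * (1 / 2 : ℝ) ^ j := by
      rw [div_le_iff₀ hN']
      have h2 : (Γ.card : ℝ) ≤ 32 * Fintype.card X := by exact_mod_cast hM.le
      nlinarith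
    linarith
  · choose q hq hgood hcong using fun x => exists_law m T x
    have hne : ∀ p ∈ Γ, p.1 ≠ p.2 := fun p hp => ((hΓ p).1 hp).1
    have hcross := crossing m hm q hq Γ hne (fun x π hπ => by
      obtain ⟨h1, h2⟩ := hgood x π hπ
      refine ⟨h1, fun y hy => h2 y ?_⟩
      have h3 := ((hΓ (x, y)).1 hy).2.1
      exact lt_trans (by positivity) h3) hM
    -- the congestion
    have hC : ∀ v, ∑ p ∈ Γ, pathProb (q p.1) p.1 p.2 v ≤ (2 : ℝ) ^ (j + 1) * m.cong T v := by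
      intro v
      have h1 : ∑ p ∈ Γ, pathProb (q p.1) p.1 p.2 v ≤
          ∑ p ∈ Γ, (2 : ℝ) ^ (j + 1) * (m.pt T p.1 p.2 * pathProb (q p.1) p.1 p.2 v) := by
        refine Finset.sum_le_sum fun p hp => ?_
        have h2 := ((hΓ p).1 hp).2.1
        have h3 : 1 ≤ (2 : ℝ) ^ (j + 1) * m.pt T p.1 p.2 := by
          have h4 : (2 : ℝ) ^ (j + 1) * (1 / 2 : ℝ) ^ (j + 1) = 1 := by
            rw [← mul_pow]
            norm_num
          rw [← h4]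
          exact mul_le_mul_of_nonneg_left h2.le (by positivity)
        have h5 := lay_path_nonneg (hq p.1) p.1 p.2 v
        nlinarith [mul_le_mul_of_nonneg_right h3 h5]
      refine h1.trans ?_
      rw [← Finset.mul_sum]
      refine mul_le_mul_of_nonneg_left ?_ (by positivity)
      refine (lay_sum_pairs Γ (fun x y => m.pt T x y * pathProb (q x) x y v)
        (fun x y => mul_nonneg (pt_nonneg m T x y) (lay_path_nonneg (hq x) x y v)) hne).trans ?_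
      unfold CMap.cong
      exact Finset.sum_le_sum fun x _ => hcong x v
    have hC0 : ∀ v, 0 ≤ ∑ p ∈ Γ, pathProb (q p.1) p.1 p.2 v := fun v =>
      Finset.sum_nonneg fun p _ => lay_path_nonneg (hq p.1) p.1 p.2 v
    have hsq : ∑ v, (∑ p ∈ Γ, pathProb (q p.1) p.1 p.2 v) ^ 2 ≤
        (2 : ℝ) ^ (j + 1) * (2 : ℝ) ^ (j + 1) * ((Fintype.card X : ℝ) * m.Q T) := by
      have h1 : (Fintype.card X : ℝ) * m.Q T = ∑ v : X, (m.cong T v) ^ 2 := by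
        unfold CMap.Q
        field_simp
      rw [h1, Finset.mul_sum]
      refine Finset.sum_le_sum fun v _ => ?_
      calc (∑ p ∈ Γ, pathProb (q p.1) p.1 p.2 v) ^ 2
          ≤ ((2 : ℝ) ^ (j + 1) * m.cong T v) ^ 2 := pow_le_pow_left₀ (hC0 v) (hC v) 2
        _ = _ := by ring
    have h3 : (Γ.card : ℝ) ^ 3 ≤ 1024 * (Fintype.card X : ℝ) ^ 2 *
        ((2 : ℝ) ^ (j + 1) * (2 : ℝ) ^ (j + 1) * ((Fintype.card X : ℝ) * m.Q T)) :=
      hcross.trans (mul_le_mul_of_nonneg_left hsq (by positivity))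
    have h4 : (1 / 2 : ℝ) ^ j * Γ.card / (Fintype.card X : ℝ) ≤
        16 * ((1 / 2 : ℝ) ^ j * m.Q T) ^ (1 / 3 : ℝ) := by
      refine le_of_pow_le_pow_left₀ (n := 3) (by norm_num) (by positivity) ?_
      have h5 : (((1 / 2 : ℝ) ^ j * m.Q T) ^ (1 / 3 : ℝ)) ^ 3 = (1 / 2 : ℝ) ^ j * m.Q T := by
        rw [← Real.rpow_natCast, ← Real.rpow_mul ha]
        norm_num
      rw [mul_pow, h5, div_pow, mul_pow, div_le_iff₀ (by positivity)]
      have h6 : ((1 / 2 : ℝ) ^ j) ^ 3 * ((2 : ℝ) ^ (j + 1) * (2 : ℝ) ^ (j + 1)) =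
          4 * (1 / 2 : ℝ) ^ j := by
        have h7 : (1 / 2 : ℝ) ^ j * (2 : ℝ) ^ j = 1 := by
          rw [← mul_pow]
          norm_num
        rw [pow_succ (2 : ℝ) j]
        calc ((1 / 2 : ℝ) ^ j) ^ 3 * ((2 : ℝ) ^ j * 2 * ((2 : ℝ) ^ j * 2))
            = 4 * (1 / 2 : ℝ) ^ j * ((1 / 2 : ℝ) ^ j * (2 : ℝ) ^ j) ^ 2 := by ring
          _ = _ := by rw [h7]; ring
      calc ((1 / 2 : ℝ) ^ j) ^ 3 * (Γ.card : ℝ) ^ 3
          ≤ ((1 / 2 : ℝ) ^ j) ^ 3 * (1024 * (Fintype.card X : ℝ) ^ 2 *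
            ((2 : ℝ) ^ (j + 1) * (2 : ℝ) ^ (j + 1) * ((Fintype.card X : ℝ) * m.Q T))) :=
            mul_le_mul_of_nonneg_left h3 (by positivity)
        _ = (((1 / 2 : ℝ) ^ j) ^ 3 * ((2 : ℝ) ^ (j + 1) * (2 : ℝ) ^ (j + 1))) *
            (1024 * (Fintype.card X : ℝ) ^ 3 * m.Q T) := by ring
        _ = 16 ^ 3 * ((1 / 2 : ℝ) ^ j * m.Q T) * (Fintype.card X : ℝ) ^ 3 := by
          rw [h6]
          ring
    have h8 : (0 : ℝ) ≤ 32 * (1 / 2 : ℝ) ^ j := by positivity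
    linarith

theorem layer_nonneg (m : CMap X) (T j : ℕ) : 0 ≤ m.layer T j := by
  obtain ⟨g, hg, hg1, hg0⟩ := lay_eq m T j
  rw [hg]
  refine div_nonneg (Finset.sum_nonneg fun x _ => Finset.sum_nonneg fun y _ => ?_)
    (Nat.cast_nonneg _)
  by_cases h : x ≠ y ∧ (1 / 2 : ℝ) ^ (j + 1) < m.pt T x y ∧ m.pt T x y ≤ (1 / 2 : ℝ) ^ j
  · rw [hg1 x y h]
    exact pt_nonneg m T x y
  · rw [hg0 x y h]

theorem layer_sum (m : CMap X) (T J : ℕ) : ∑ j ∈ range J, m.layer T j ≤ 1 := by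
  choose g hg hg1 hg0 using fun j => lay_eq m T j
  simp only [hg]
  rw [← Finset.sum_div]
  rcases Nat.eq_zero_or_pos (Fintype.card X) with hN | hN
  · rw [hN, Nat.cast_zero, div_zero]
    exact zero_le_one
  have hN' : (0 : ℝ) < Fintype.card X := by exact_mod_cast hN
  rw [div_le_one hN', Finset.sum_comm]
  have h1 : (Fintype.card X : ℝ) = ∑ x : X, ∑ y : X, m.pt T x y := by
    simp only [pt_sum]
    simp
  rw [h1]
  refine Finset.sum_le_sum fun x _ => ?_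
  rw [Finset.sum_comm]
  refine Finset.sum_le_sum fun y _ => ?_
  have hp := pt_nonneg m T x y
  by_cases h : ∃ j ∈ range J, x ≠ y ∧ (1 / 2 : ℝ) ^ (j + 1) < m.pt T x y ∧
      m.pt T x y ≤ (1 / 2 : ℝ) ^ j
  · obtain ⟨j, hj, hc⟩ := h
    rw [Finset.sum_eq_single j]
    · rw [hg1 j x y hc]
    · intro i _ hij
      apply hg0 i x y
      intro hi
      rcases Nat.lt_or_gt_of_ne hij with h2 | h2
      · have h3 : (1 / 2 : ℝ) ^ j ≤ (1 / 2 : ℝ) ^ (i + 1) :=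
          pow_le_pow_of_le_one (by norm_num) (by norm_num) h2
        linarith [hi.2.1, hc.2.2]
      · have h3 : (1 / 2 : ℝ) ^ i ≤ (1 / 2 : ℝ) ^ (j + 1) :=
          pow_le_pow_of_le_one (by norm_num) (by norm_num) h2
        linarith [hi.2.2, hc.2.1]
    · intro h2
      exact absurd hj h2
  · push Not at h
    rw [Finset.sum_eq_zero]
    · exact hp
    · intro j hj
      exact hg0 j x y fun hc => absurd hc.2.2 (not_le.2 (h j hj hc.1 hc.2.1))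

end UIPQ
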