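import Pool.Agent.Lib.UIPQ.A.Cyc
import Pool.Agent.Lib.UIPQ.A.BipCount
import Pool.Agent.Lib.UIPQ.A.Chain

/-!
# Minor: a bipartite minor of the dart graph of a planar map with p vertices has at most 3p edges

PROOF. Call L = X ⊕ X the set of edge labels: inl x is the edge {x, k x} (inl x and inl (k x) are the same
edge), inr x is the edge {x, r x}. For each pair γ = (i,j) ∈ Γ choose a ∈ A i, b ∈ B j, HAdj a b, and an edge
label e γ: inl a if b = k a; inr a if b = r a; inr b if a = r b. All these edges are distinct for different γ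
(one end in A i, the other end in B j, and the sets are pairwise disjoint).
INNER edges: edges with both ends in the same set (A i or B j). E0 = inner edges and chosen edges e γ.
Colourings: pairs (c, C) with c f-invariant and C r-invariant. Boundary of (c,C): zK x = c x + c (k x),
zR x = C x + c (k x).
R := set of classes of the equivalence relation on X ⊕ X (inl x = face of x, inr x = vertex of x) generated
by: inl x ~ inl (f x), inr x ~ inr (r x); inl x ~ inl (k x) when the edge {x,k x} is not in E0; inr x ~ inl (k x)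
when the edge {x, r x} is not in E0. A function on R is a colouring (c,C) whose boundary vanishes off E0.
For γ with e γ = inl x: a γ := class of inl x, b γ := class of inl (k x). For e γ = inr x: a γ := class of
inr x, b γ := class of inl (k x). So the value of the boundary of c : R → F on the edge e γ is c (a γ) + c (b γ).
Apply `bip_count` with Γ, R, a, b. (R is finite as a quotient of X ⊕ X.)
(h2) the boundary (zK, zR) of a colouring satisfies zK x + zR x + zR (r⁻¹ x) = 0 for all x [c x + c (k x) + C x +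
c (k x) + C (r⁻¹ x) + c (k (r⁻¹ x)), and f (k (r⁻¹ x)) = x]. `cut_parity` for S = A i (or B j): an inner
edge of S is counted twice (if r x = x the edge inr x is counted twice at x; if k x ∈ S, zK x and zK (k x)); so
the sum over the edges with exactly one end in S is 0. Those among them with z ≠ 0 are in E0, hence they are the
e γ with γ = (i, j'), j' ∈ J. This is the row sum of i. (The inner edges of other sets have no end in S; e γ for
γ = (i',j'), i' ≠ i, has no end in S = A i.)
(h1) Let w be given. Choose for each nonempty set S (A i or B j) a root s0 and for each s ∈ S the chain of a path in S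
from s to s0: `path_chain`. Let
z = sum over γ ∈ Γ of w γ (e γ + path of the end of e γ in A i + path of the end of e γ in B j). Then the
equation at x of z is the sum over γ of w γ ([x = root of A i] + [x = root of B j]) = 0 because the row sums and the
column sums of w vanish. `hcycle_form` gives (c,C) with boundary z. z vanishes off E0, so (c,C) is a function on
R; and on e γ the value of z is w γ (the e γ are distinct and are not inner edges).
-/

namespace UIPQ

variable {X : Type} [Fintype X]

open Finset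

/-- the relation on the faces and the vertices: equality of colours imposed by the vanishing of the boundary -/
private inductive MRel (m : CMap X) (PK PR : X → Prop) : X ⊕ X → X ⊕ X → Prop
  | f (x : X) : MRel m PK PR (Sum.inl x) (Sum.inl (m.f x))
  | r (x : X) : MRel m PK PR (Sum.inr x) (Sum.inr (m.r x))
  | k (x : X) (h : ¬ PK x) : MRel m PK PR (Sum.inl x) (Sum.inl (m.k x))
  | v (x : X) (h : ¬ PR x) : MRel m PK PR (Sum.inr x) (Sum.inl (m.k x))

/-- the label of an edge between `P` and `Q` -/
private def MLab (m : CMap X) (P Q : Set X) (l : X ⊕ X) : Prop :=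
  (∃ x, l = Sum.inl x ∧ x ∈ P ∧ m.k x ∈ Q) ∨
    ∃ x, l = Sum.inr x ∧ ((x ∈ P ∧ m.r x ∈ Q) ∨ (x ∈ Q ∧ m.r x ∈ P))

omit [Fintype X] in
private theorem mlab_exists (m : CMap X) {P Q : Set X} {a b : X} (ha : a ∈ P) (hb : b ∈ Q) (h : m.HAdj a b) :
    ∃ l, MLab m P Q l := by
  rcases h with h | h | h
  · exact ⟨Sum.inl a, Or.inl ⟨a, rfl, ha, h ▸ hb⟩⟩
  · exact ⟨Sum.inr a, Or.inr ⟨a, rfl, Or.inl ⟨ha, h ▸ hb⟩⟩⟩
  · exact ⟨Sum.inr b, Or.inr ⟨b, rfl, Or.inr ⟨hb, h ▸ ha⟩⟩⟩

open Classical in
/-- the chain of one edge, with its connections to the roots -/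
private theorem mchain (m : CMap X) {P Q : Set X} (hP : m.HConn P) (hQ : m.HConn Q) {rP rQ : X} (hrP : rP ∈ P)
    (hrQ : rQ ∈ Q) {l : X ⊕ X} (hl : MLab m P Q l) :
    ∃ zK zR : X → ZMod 2, (∀ y, zK (m.k y) = zK y) ∧
      (∀ y, zK y + zR y + zR (m.r.symm y) = (if y = rP then 1 else 0) + (if y = rQ then 1 else 0)) ∧
      (∀ y, ¬ ((y ∈ P ∧ m.k y ∈ P) ∨ (y ∈ Q ∧ m.k y ∈ Q)) →
        zK y = if (l = Sum.inl y ∨ l = Sum.inl (m.k y)) then 1 else 0) ∧
      (∀ y, ¬ ((y ∈ P ∧ m.r y ∈ P) ∨ (y ∈ Q ∧ m.r y ∈ Q)) → zR y = if l = Sum.inr y then 1 else 0) := by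
  have h2 : ∀ p : Prop, ((if p then 1 else 0 : ZMod 2)) + (if p then 1 else 0) = 0 :=
    fun p => CharTwo.add_self_eq_zero _
  rcases hl with ⟨x, rfl, hx, hkx⟩ | ⟨x, rfl, hx⟩
  · obtain ⟨aK, aR, ha1, ha2, ha3, ha4⟩ := path_chain m P hP x rP hx hrP
    obtain ⟨bK, bR, hb1, hb2, hb3, hb4⟩ := path_chain m Q hQ (m.k x) rQ hkx hrQ
    refine ⟨fun y => aK y + bK y + ((if y = x then 1 else 0) + (if y = m.k x then 1 else 0)),
      fun y => aR y + bR y, fun y => ?_, fun y => ?_, fun y hy => ?_, fun y hy => ?_⟩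
    · have e1 : (m.k y = x) ↔ (y = m.k x) :=
        ⟨fun h => by rw [← h, m.k_k], fun h => by rw [h, m.k_k]⟩
      have e2 : (m.k y = m.k x) ↔ (y = x) := ⟨fun h => m.k.injective h, fun h => by rw [h]⟩
      simp only [ha1, hb1, e1, e2]
      ring
    · have h3 := ha4 y
      have h4 := hb4 y
      have h5 := h2 (y = x)
      have h6 := h2 (y = m.k x)
      linear_combination h3 + h4 + h5 + h6
    · have h3 : aK y = 0 := by
        by_contra h
        exact hy (Or.inl (ha2 y h))
      have h4 : bK y = 0 := by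
        by_contra h
        exact hy (Or.inr (hb2 y h))
      have e1 : (Sum.inl x : X ⊕ X) = Sum.inl y ↔ y = x := by
        rw [Sum.inl.injEq]
        exact eq_comm
      have e2 : (Sum.inl x : X ⊕ X) = Sum.inl (m.k y) ↔ y = m.k x := by
        rw [Sum.inl.injEq]
        exact ⟨fun h => by rw [h, m.k_k], fun h => by rw [h, m.k_k]⟩
      simp only [h3, h4, e1, e2]
      by_cases h5 : y = x
      · have h6 : ¬ y = m.k x := by
          rw [h5]
          exact fun h => m.k_ne x h.symm
        simp [h5, (m.k_ne x).symm]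
      · by_cases h6 : y = m.k x
        · simp [h6, m.k_ne x]
        · simp [h5, h6]
    · have h3 : aR y = 0 := by
        by_contra h
        exact hy (Or.inl (ha3 y h))
      have h4 : bR y = 0 := by
        by_contra h
        exact hy (Or.inr (hb3 y h))
      simp [h3, h4]
  · have key : ∀ a b : X, a ∈ P → b ∈ Q → ((a = x ∧ b = m.r x) ∨ (b = x ∧ a = m.r x)) →
        ∃ zK zR : X → ZMod 2, (∀ y, zK (m.k y) = zK y) ∧
        (∀ y, zK y + zR y + zR (m.r.symm y) = (if y = rP then 1 else 0) + (if y = rQ then 1 else 0)) ∧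
        (∀ y, ¬ ((y ∈ P ∧ m.k y ∈ P) ∨ (y ∈ Q ∧ m.k y ∈ Q)) →
          zK y = if ((Sum.inr x : X ⊕ X) = Sum.inl y ∨ (Sum.inr x : X ⊕ X) = Sum.inl (m.k y)) then 1 else 0) ∧
        (∀ y, ¬ ((y ∈ P ∧ m.r y ∈ P) ∨ (y ∈ Q ∧ m.r y ∈ Q)) →
          zR y = if (Sum.inr x : X ⊕ X) = Sum.inr y then 1 else 0) := by
      intro a b ha hb hab
      obtain ⟨aK, aR, ha1, ha2, ha3, ha4⟩ := path_chain m P hP a rP ha hrP
      obtain ⟨bK, bR, hb1, hb2, hb3, hb4⟩ := path_chain m Q hQ b rQ hb hrQ
      refine ⟨fun y => aK y + bK y,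
        fun y => aR y + bR y + (if y = x then 1 else 0), fun y => ?_, fun y => ?_, fun y hy => ?_, fun y hy => ?_⟩
      · simp only [ha1, hb1]
      · have h3 := ha4 y
        have h4 := hb4 y
        have h5 := h2 (y = x)
        have h6 := h2 (y = m.r x)
        have e1 : (m.r.symm y = x) ↔ (y = m.r x) := by rw [Equiv.symm_apply_eq]
        simp only [e1]
        rcases hab with ⟨rfl, rfl⟩ | ⟨rfl, rfl⟩
        · linear_combination h3 + h4 + h5 + h6
        · linear_combination h3 + h4 + h5 + h6
      · have h3 : aK y = 0 := by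
          by_contra h
          exact hy (Or.inl (ha2 y h))
        have h4 : bK y = 0 := by
          by_contra h
          exact hy (Or.inr (hb2 y h))
        simp [h3, h4]
      · have h3 : aR y = 0 := by
          by_contra h
          exact hy (Or.inl (ha3 y h))
        have h4 : bR y = 0 := by
          by_contra h
          exact hy (Or.inr (hb3 y h))
        have e1 : (Sum.inr x : X ⊕ X) = Sum.inr y ↔ y = x := by
          rw [Sum.inr.injEq]
          exact eq_comm
        simp only [h3, h4, e1]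
        ring
    rcases hx with ⟨h1, h3⟩ | ⟨h1, h3⟩
    · exact key x (m.r x) h1 h3 (Or.inl ⟨rfl, rfl⟩)
    · exact key (m.r x) x h3 h1 (Or.inr ⟨rfl, rfl⟩)

open Classical in
/-- the sum of the values over the labels of the edges between a set and its complement vanishes -/
private theorem mcut (m : CMap X) (zK zR : X → ZMod 2) (hk : ∀ x, zK (m.k x) = zK x)
    (hz : ∀ x, zK x + zR x + zR (m.r.symm x) = 0) (S : Set X) {P : Type} (G : Finset P) (t : P → X ⊕ X)
    (ht : ∀ p ∈ G, ∀ q ∈ G, t p = t q → p = q)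
    (h1 : ∀ p ∈ G, ∀ x, t p = Sum.inl x → x ∈ S ∧ m.k x ∉ S)
    (h2 : ∀ p ∈ G, ∀ x, t p = Sum.inr x → ¬ (x ∈ S ↔ m.r x ∈ S))
    (h3 : ∀ x, x ∈ S → m.k x ∉ S → zK x ≠ 0 → ∃ p ∈ G, t p = Sum.inl x)
    (h4 : ∀ x, ¬ (x ∈ S ↔ m.r x ∈ S) → zR x ≠ 0 → ∃ p ∈ G, t p = Sum.inr x) :
    ∑ p ∈ G, Sum.elim zK zR (t p) = 0 := by
  have h5 := cut_parity m zK zR hk hz S.toFinset
  simp only [Set.mem_toFinset] at h5
  have h6 : ∑ l ∈ (univ.filter (fun x => x ∈ S ∧ m.k x ∉ S)).disjSum
      (univ.filter (fun x => ¬ (x ∈ S ↔ m.r x ∈ S))), Sum.elim zK zR l = 0 := by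
    rw [Finset.sum_disjSum]
    exact h5
  rw [← h6, ← Finset.sum_image (f := Sum.elim zK zR) (g := t) (s := G)
    (fun p hp q hq h => ht p hp q hq h)]
  refine Finset.sum_subset ?_ ?_
  · intro l hl
    obtain ⟨p, hp, rfl⟩ := Finset.mem_image.1 hl
    rcases hx : t p with x | x
    · rw [Finset.inl_mem_disjSum, Finset.mem_filter]
      exact ⟨Finset.mem_univ _, h1 p hp x hx⟩
    · rw [Finset.inr_mem_disjSum, Finset.mem_filter]
      exact ⟨Finset.mem_univ _, h2 p hp x hx⟩
  · intro l hl hn
    rcases l with x | x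
    · rw [Finset.inl_mem_disjSum, Finset.mem_filter] at hl
      by_contra h
      obtain ⟨p, hp, hpx⟩ := h3 x hl.2.1 hl.2.2 h
      exact hn (Finset.mem_image.2 ⟨p, hp, hpx⟩)
    · rw [Finset.inr_mem_disjSum, Finset.mem_filter] at hl
      by_contra h
      obtain ⟨p, hp, hpx⟩ := h4 x hl.2 h
      exact hn (Finset.mem_image.2 ⟨p, hp, hpx⟩)

theorem minor_bound (m : CMap X) (hm : m.Planar) {I J : Type} [Fintype I] [Fintype J]
    (A : I → Set X) (B : J → Set X) (hA : ∀ i, m.HConn (A i)) (hB : ∀ j, m.HConn (B j))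
    (dA : ∀ i i', i ≠ i' → Disjoint (A i) (A i')) (dB : ∀ j j', j ≠ j' → Disjoint (B j) (B j'))
    (dAB : ∀ i j, Disjoint (A i) (B j)) (Γ : Finset (I × J))
    (hΓ : ∀ p ∈ Γ, ∃ a ∈ A p.1, ∃ b ∈ B p.2, m.HAdj a b) :
    Γ.card ≤ 3 * (Fintype.card I + Fintype.card J) := by
  classical
  rcases Γ.eq_empty_or_nonempty with rfl | ⟨p0, hp0⟩
  · simp
  have hX : Nonempty X := ⟨(hΓ p0 hp0).choose⟩
  have hlab : ∀ p ∈ Γ, ∃ l, MLab m (A p.1) (B p.2) l := by
    intro p hp
    obtain ⟨a, ha, b, hb, hab⟩ := hΓ p hp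
    exact mlab_exists m ha hb hab
  choose! l hl using hlab
  -- roots
  have hrA : ∃ rA : I → X, ∀ i, (A i).Nonempty → rA i ∈ A i :=
    ⟨fun i => if h : (A i).Nonempty then h.some else hX.some, fun i h => by
      show (if h : (A i).Nonempty then h.some else hX.some) ∈ A i
      rw [dif_pos h]
      exact h.some_mem⟩
  have hrB : ∃ rB : J → X, ∀ j, (B j).Nonempty → rB j ∈ B j :=
    ⟨fun j => if h : (B j).Nonempty then h.some else hX.some, fun j h => by
      show (if h : (B j).Nonempty then h.some else hX.some) ∈ B j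
      rw [dif_pos h]
      exact h.some_mem⟩
  obtain ⟨rA, hrA⟩ := hrA
  obtain ⟨rB, hrB⟩ := hrB
  have hAne : ∀ p ∈ Γ, rA p.1 ∈ A p.1 := fun p hp => hrA _ (by
    obtain ⟨a, ha, -⟩ := hΓ p hp
    exact ⟨a, ha⟩)
  have hBne : ∀ p ∈ Γ, rB p.2 ∈ B p.2 := fun p hp => hrB _ (by
    obtain ⟨a, ha, b, hb, -⟩ := hΓ p hp
    exact ⟨b, hb⟩)
  -- disjointness
  have uA : ∀ {x i i'}, x ∈ A i → x ∈ A i' → i = i' := by
    intro x i i' h h'
    by_contra hne
    exact Set.disjoint_left.1 (dA i i' hne) h h'
  have uB : ∀ {x j j'}, x ∈ B j → x ∈ B j' → j = j' := by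
    intro x j j' h h'
    by_contra hne
    exact Set.disjoint_left.1 (dB j j' hne) h h'
  have uAB : ∀ {x i j}, x ∈ A i → x ∈ B j → False := fun {x i j} h h' =>
    Set.disjoint_left.1 (dAB i j) h h'
  -- values of labels
  have lK : ∀ p ∈ Γ, ∀ x, l p = Sum.inl x → x ∈ A p.1 ∧ m.k x ∈ B p.2 := by
    intro p hp x hx
    rcases hl p hp with ⟨y, hy, h1, h2⟩ | ⟨y, hy, -⟩
    · rw [hy, Sum.inl.injEq] at hx
      subst hx
      exact ⟨h1, h2⟩
    · rw [hy] at hx
      cases hx
  have lR : ∀ p ∈ Γ, ∀ x, l p = Sum.inr x → (x ∈ A p.1 ∧ m.r x ∈ B p.2) ∨ (x ∈ B p.2 ∧ m.r x ∈ A p.1) := by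
    intro p hp x hx
    rcases hl p hp with ⟨y, hy, -⟩ | ⟨y, hy, h1⟩
    · rw [hy] at hx
      cases hx
    · rw [hy, Sum.inr.injEq] at hx
      subst hx
      exact h1
  have linj : ∀ p ∈ Γ, ∀ q ∈ Γ, l p = l q → p = q := by
    intro p hp q hq h
    rcases hx : l q with x | x
    · have h1 := lK q hq x hx
      have h2 := lK p hp x (h.trans hx)
      exact Prod.ext (uA h2.1 h1.1) (uB h2.2 h1.2)
    · have h1 := lR q hq x hx
      have h2 := lR p hp x (h.trans hx)
      rcases h1 with h1 | h1 <;> rcases h2 with h2 | h2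
      · exact Prod.ext (uA h2.1 h1.1) (uB h2.2 h1.2)
      · exact (uAB h1.1 h2.1).elim
      · exact (uAB h2.1 h1.1).elim
      · exact Prod.ext (uA h2.2 h1.2) (uB h2.1 h1.1)
  have lKk : ∀ p ∈ Γ, ∀ q ∈ Γ, ∀ x, l q = Sum.inl x → l p ≠ Sum.inl (m.k x) := by
    intro p hp q hq x hx h
    have h1 := lK q hq x hx
    have h2 := lK p hp _ h
    exact uAB h2.1 h1.2
  -- inner edges
  let In : X → X → Prop := fun x y => (∃ i, x ∈ A i ∧ y ∈ A i) ∨ ∃ j, x ∈ B j ∧ y ∈ B j
  have notIn : ∀ {x y i j}, x ∈ A i → y ∈ B j → ¬ In x y := by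
    rintro x y i j hx hy (⟨i', h1, h2⟩ | ⟨j', h1, h2⟩)
    · exact uAB h2 hy
    · exact uAB hx h1
  have notIn' : ∀ {x y i j}, x ∈ B j → y ∈ A i → ¬ In x y := by
    rintro x y i j hx hy (⟨i', h1, h2⟩ | ⟨j', h1, h2⟩)
    · exact uAB h1 hx
    · exact uAB hy h2
  let PK : X → Prop := fun x => In x (m.k x) ∨ ∃ p ∈ Γ, l p = Sum.inl x ∨ l p = Sum.inl (m.k x)
  let PR : X → Prop := fun x => In x (m.r x) ∨ ∃ p ∈ Γ, l p = Sum.inr x
  let R : Type := Quot (MRel m PK PR)
  let mk : X ⊕ X → R := Quot.mk _
  have hfinR : Finite R := Quot.finite _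
  have : Fintype R := Fintype.ofFinite R
  let a : I × J → R := fun p => mk (l p)
  let b : I × J → R := fun p => mk (Sum.inl (m.k (Sum.elim id id (l p))))
  refine bip_count Γ a b ?_ ?_
  · -- every weight is a boundary
    intro w hw hrow hcol
    have hch : ∀ p ∈ Γ, ∃ zK zR : X → ZMod 2, (∀ y, zK (m.k y) = zK y) ∧
        (∀ y, zK y + zR y + zR (m.r.symm y) = (if y = rA p.1 then 1 else 0) + (if y = rB p.2 then 1 else 0)) ∧
        (∀ y, ¬ ((y ∈ A p.1 ∧ m.k y ∈ A p.1) ∨ (y ∈ B p.2 ∧ m.k y ∈ B p.2)) →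
          zK y = if (l p = Sum.inl y ∨ l p = Sum.inl (m.k y)) then 1 else 0) ∧
        (∀ y, ¬ ((y ∈ A p.1 ∧ m.r y ∈ A p.1) ∨ (y ∈ B p.2 ∧ m.r y ∈ B p.2)) →
          zR y = if l p = Sum.inr y then 1 else 0) := fun p hp =>
      mchain m (hA p.1) (hB p.2) (hAne p hp) (hBne p hp) (hl p hp)
    choose! cK cR c1 c2 c3 c4 using hch
    have c3' : ∀ p ∈ Γ, ∀ y, ¬ In y (m.k y) → cK p y = if (l p = Sum.inl y ∨ l p = Sum.inl (m.k y)) then 1 else 0 := by
      intro p hp y hy
      apply c3 p hp y
      rintro (h | h)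
      · exact hy (Or.inl ⟨_, h⟩)
      · exact hy (Or.inr ⟨_, h⟩)
    have c4' : ∀ p ∈ Γ, ∀ y, ¬ In y (m.r y) → cR p y = if l p = Sum.inr y then 1 else 0 := by
      intro p hp y hy
      apply c4 p hp y
      rintro (h | h)
      · exact hy (Or.inl ⟨_, h⟩)
      · exact hy (Or.inr ⟨_, h⟩)
    let zK : X → ZMod 2 := fun y => ∑ p ∈ Γ, w p * cK p y
    let zR : X → ZMod 2 := fun y => ∑ p ∈ Γ, w p * cR p y
    have hsum : ∀ g : I × J → ZMod 2, ∑ p ∈ Γ, w p * g p = ∑ p, w p * g p := by
      intro g
      refine Finset.sum_subset (Finset.subset_univ _) fun p _ hp => ?_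
      rw [hw p hp, zero_mul]
    have hz : ∀ y, zK y + zR y + zR (m.r.symm y) = 0 := by
      intro y
      show (∑ p ∈ Γ, w p * cK p y) + (∑ p ∈ Γ, w p * cR p y) + (∑ p ∈ Γ, w p * cR p (m.r.symm y)) = 0
      rw [← Finset.sum_add_distrib, ← Finset.sum_add_distrib]
      have h1 : ∀ p ∈ Γ, w p * cK p y + w p * cR p y + w p * cR p (m.r.symm y) =
          w p * (if y = rA p.1 then 1 else 0) + w p * (if y = rB p.2 then 1 else 0) := by
        intro p hp
        rw [← mul_add, ← mul_add, ← mul_add, c2 p hp y]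
      rw [Finset.sum_congr rfl h1, Finset.sum_add_distrib, hsum (fun p => if y = rA p.1 then 1 else 0),
        hsum (fun p => if y = rB p.2 then 1 else 0), Fintype.sum_prod_type, Fintype.sum_prod_type_right]
      have h2 : ∀ i, ∑ j, w (i, j) * (if y = rA (i, j).1 then 1 else 0) = 0 := by
        intro i
        show ∑ j, w (i, j) * (if y = rA i then 1 else 0) = 0
        rw [← Finset.sum_mul, hrow, zero_mul]
      have h3 : ∀ j, ∑ i, w (i, j) * (if y = rB (i, j).2 then 1 else 0) = 0 := by
        intro j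
        show ∑ i, w (i, j) * (if y = rB j then 1 else 0) = 0
        rw [← Finset.sum_mul, hcol, zero_mul]
      rw [Finset.sum_eq_zero fun i _ => h2 i, Finset.sum_eq_zero fun j _ => h3 j, add_zero]
    have hk : ∀ y, zK (m.k y) = zK y := fun y =>
      Finset.sum_congr rfl fun p hp => by rw [c1 p hp y]
    obtain ⟨cf, C, hf, hC, hcK, hcR⟩ := hcycle_form m hm zK zR hk hz
    have hPK : ∀ y, ¬ PK y → zK y = 0 := by
      intro y hy
      refine Finset.sum_eq_zero fun p hp => ?_
      rw [c3' p hp y (fun h => hy (Or.inl h)), if_neg (fun h => hy (Or.inr ⟨p, hp, h⟩)), mul_zero]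
    have hPR : ∀ y, ¬ PR y → zR y = 0 := by
      intro y hy
      refine Finset.sum_eq_zero fun p hp => ?_
      rw [c4' p hp y (fun h => hy (Or.inl h)), if_neg (fun h => hy (Or.inr ⟨p, hp, h⟩)), mul_zero]
    have hlift : ∀ u v, MRel m PK PR u v → Sum.elim cf C u = Sum.elim cf C v := by
      intro u v huv
      cases huv with
      | f x => exact (hf x).symm
      | r x => exact (hC x).symm
      | k x h =>
        have h1 := hcK x
        rw [hPK x h] at h1
        exact (CharTwo.add_eq_zero.1 h1.symm)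
      | v x h =>
        have h1 := hcR x
        rw [hPR x h] at h1
        exact (CharTwo.add_eq_zero.1 h1.symm)
    refine ⟨Quot.lift (Sum.elim cf C) hlift, fun q hq => ?_⟩
    show w q = Sum.elim cf C (l q) + Sum.elim cf C (Sum.inl (m.k (Sum.elim id id (l q))))
    rcases hx : l q with x | x
    · show w q = cf x + cf (m.k x)
      rw [← hcK x]
      have h1 := lK q hq x hx
      show w q = ∑ p ∈ Γ, w p * cK p x
      rw [Finset.sum_eq_single_of_mem q hq]
      · rw [c3' q hq x (notIn h1.1 h1.2), if_pos (Or.inl hx), mul_one]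
      · intro p hp hpq
        rw [c3' p hp x (notIn h1.1 h1.2), if_neg, mul_zero]
        rintro (h | h)
        · exact hpq (linj p hp q hq (h.trans hx.symm))
        · exact lKk p hp q hq x hx h
    · show w q = C x + cf (m.k x)
      rw [← hcR x]
      have h1 := lR q hq x hx
      have h2 : ¬ In x (m.r x) := by
        rcases h1 with h1 | h1
        · exact notIn h1.1 h1.2
        · exact notIn' h1.1 h1.2
      show w q = ∑ p ∈ Γ, w p * cR p x
      rw [Finset.sum_eq_single_of_mem q hq]
      · rw [c4' q hq x h2, if_pos hx, mul_one]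
      · intro p hp hpq
        rw [c4' p hp x h2, if_neg, mul_zero]
        intro h
        exact hpq (linj p hp q hq (h.trans hx.symm))
  · -- the boundary of a colouring
    intro c
    let zK : X → ZMod 2 := fun y => c (mk (Sum.inl y)) + c (mk (Sum.inl (m.k y)))
    let zR : X → ZMod 2 := fun y => c (mk (Sum.inr y)) + c (mk (Sum.inl (m.k y)))
    have hk : ∀ y, zK (m.k y) = zK y := by
      intro y
      show c (mk (Sum.inl (m.k y))) + c (mk (Sum.inl (m.k (m.k y)))) = c (mk (Sum.inl y)) + c (mk (Sum.inl (m.k y)))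
      rw [m.k_k, add_comm]
    have e1 : ∀ y, mk (Sum.inr (m.r.symm y)) = mk (Sum.inr y) := by
      intro y
      have h := Quot.sound (MRel.r (m := m) (PK := PK) (PR := PR) (m.r.symm y))
      rw [Equiv.apply_symm_apply] at h
      exact h
    have e2 : ∀ y, mk (Sum.inl (m.k (m.r.symm y))) = mk (Sum.inl y) := by
      intro y
      have h := Quot.sound (MRel.f (m := m) (PK := PK) (PR := PR) (m.k (m.r.symm y)))
      rw [m.f_apply, m.k_k, Equiv.apply_symm_apply] at h
      exact h
    have hz : ∀ y, zK y + zR y + zR (m.r.symm y) = 0 := by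
      intro y
      show c (mk (Sum.inl y)) + c (mk (Sum.inl (m.k y))) + (c (mk (Sum.inr y)) + c (mk (Sum.inl (m.k y)))) +
        (c (mk (Sum.inr (m.r.symm y))) + c (mk (Sum.inl (m.k (m.r.symm y))))) = 0
      rw [e1, e2]
      have h1 := CharTwo.add_self_eq_zero (c (mk (Sum.inl y)))
      have h2 := CharTwo.add_self_eq_zero (c (mk (Sum.inl (m.k y))))
      have h3 := CharTwo.add_self_eq_zero (c (mk (Sum.inr y)))
      linear_combination h1 + h2 + h3
    have hPK : ∀ y, zK y ≠ 0 → PK y := by
      intro y hy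
      by_contra h
      apply hy
      have h1 : mk (Sum.inl y) = mk (Sum.inl (m.k y)) := Quot.sound (MRel.k y h)
      show c (mk (Sum.inl y)) + c (mk (Sum.inl (m.k y))) = 0
      rw [h1, CharTwo.add_self_eq_zero]
    have hPR : ∀ y, zR y ≠ 0 → PR y := by
      intro y hy
      by_contra h
      apply hy
      have h1 : mk (Sum.inr y) = mk (Sum.inl (m.k y)) := Quot.sound (MRel.v y h)
      show c (mk (Sum.inr y)) + c (mk (Sum.inl (m.k y))) = 0
      rw [h1, CharTwo.add_self_eq_zero]
    have hval : ∀ p, c (a p) + c (b p) = Sum.elim zK zR (l p) := by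
      intro p
      show c (mk (l p)) + c (mk (Sum.inl (m.k (Sum.elim id id (l p))))) = _
      rcases l p with x | x <;> rfl
    constructor
    · intro i
      rw [← Finset.sum_filter]
      have h1 := mcut m zK zR hk hz (A i) (univ.filter fun j => (i, j) ∈ Γ) (fun j => l (i, j)) ?_ ?_ ?_ ?_ ?_
      · rw [← h1]
        exact Finset.sum_congr rfl fun j _ => hval (i, j)
      · intro j hj j' hj' h
        rw [Finset.mem_filter] at hj hj'
        exact congrArg Prod.snd (linj _ hj.2 _ hj'.2 h)
      · intro j hj x hx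
        rw [Finset.mem_filter] at hj
        have h2 := lK _ hj.2 x hx
        exact ⟨h2.1, fun h => uAB h h2.2⟩
      · intro j hj x hx
        rw [Finset.mem_filter] at hj
        rcases lR _ hj.2 x hx with h2 | h2
        · exact fun h => uAB (h.1 h2.1) h2.2
        · exact fun h => uAB (h.2 h2.2) h2.1
      · intro x hx hkx hzx
        rcases hPK x hzx with h | ⟨p, hp, h | h⟩
        · exfalso
          rcases h with ⟨i', h3, h4⟩ | ⟨j', h3, h4⟩
          · rw [uA hx h3] at hkx
            exact hkx h4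
          · exact uAB hx h3
        · have h2 := lK p hp x h
          have h3 : p.1 = i := uA h2.1 hx
          refine ⟨p.2, ?_, ?_⟩
          · rw [Finset.mem_filter]
            refine ⟨Finset.mem_univ _, ?_⟩
            rw [← h3]
            exact hp
          · show l (i, p.2) = Sum.inl x
            rw [← h3]
            exact h
        · exfalso
          have h2 := lK p hp _ h
          rw [m.k_k] at h2
          exact uAB hx h2.2
      · intro x hx hzx
        rcases hPR x hzx with h | ⟨p, hp, h⟩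
        · exfalso
          apply hx
          rcases h with ⟨i', h3, h4⟩ | ⟨j', h3, h4⟩
          · exact ⟨fun h => by rw [uA h h3]; exact h4, fun h => by rw [uA h h4]; exact h3⟩
          · exact ⟨fun h => (uAB h h3).elim, fun h => (uAB h h4).elim⟩
        · have h3 : p.1 = i := by
            rcases lR p hp x h with h2 | h2
            · by_contra hne
              exact hx ⟨fun h' => (hne (uA h2.1 h')).elim, fun h' => (uAB h' h2.2).elim⟩
            · by_contra hne
              exact hx ⟨fun h' => (uAB h' h2.1).elim, fun h' => (hne (uA h2.2 h')).elim⟩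
          refine ⟨p.2, ?_, ?_⟩
          · rw [Finset.mem_filter]
            refine ⟨Finset.mem_univ _, ?_⟩
            rw [← h3]
            exact hp
          · show l (i, p.2) = Sum.inr x
            rw [← h3]
            exact h
    · intro j
      rw [← Finset.sum_filter]
      let fl : X ⊕ X → X ⊕ X := Sum.elim (fun x => Sum.inl (m.k x)) Sum.inr
      have hfl : ∀ u, Sum.elim zK zR (fl u) = Sum.elim zK zR u := by
        intro u
        rcases u with x | x
        · exact hk x
        · rfl
      have flinj : Function.Injective fl := by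
        intro u v h
        rcases u with x | x <;> rcases v with y | y
        · have h' : m.k x = m.k y := Sum.inl.inj h
          rw [m.k.injective h']
        · cases h
        · cases h
        · exact h
      have flK : ∀ p x, fl (l p) = Sum.inl x → l p = Sum.inl (m.k x) := by
        intro p x h
        rcases h1 : l p with y | y
        · rw [h1] at h
          have h' : m.k y = x := Sum.inl.inj h
          rw [← h', m.k_k]
        · rw [h1] at h
          cases h
      have flR : ∀ p x, fl (l p) = Sum.inr x → l p = Sum.inr x := by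
        intro p x h
        rcases h1 : l p with y | y
        · rw [h1] at h
          cases h
        · rw [h1] at h
          exact h
      have h1 := mcut m zK zR hk hz (B j) (univ.filter fun i => (i, j) ∈ Γ) (fun i => fl (l (i, j))) ?_ ?_ ?_ ?_ ?_
      · rw [← h1]
        exact Finset.sum_congr rfl fun i _ => by rw [hfl]; exact hval (i, j)
      · intro i hi i' hi' h
        rw [Finset.mem_filter] at hi hi'
        exact congrArg Prod.fst (linj _ hi.2 _ hi'.2 (flinj h))
      · intro i hi x hx
        rw [Finset.mem_filter] at hi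
        have h2 := lK _ hi.2 _ (flK _ x hx)
        rw [m.k_k] at h2
        exact ⟨h2.2, fun h => uAB h2.1 h⟩
      · intro i hi x hx
        rw [Finset.mem_filter] at hi
        rcases lR _ hi.2 x (flR _ x hx) with h2 | h2
        · exact fun h => uAB h2.1 (h.2 h2.2)
        · exact fun h => uAB h2.2 (h.1 h2.1)
      · intro x hx hkx hzx
        rcases hPK x hzx with h | ⟨p, hp, h | h⟩
        · exfalso
          rcases h with ⟨i', h3, h4⟩ | ⟨j', h3, h4⟩
          · exact uAB h3 hx
          · rw [uB hx h3] at hkx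
            exact hkx h4
        · exfalso
          have h2 := lK p hp _ h
          exact uAB h2.1 hx
        · have h2 := lK p hp _ h
          rw [m.k_k] at h2
          have h3 : p.2 = j := uB h2.2 hx
          refine ⟨p.1, ?_, ?_⟩
          · rw [Finset.mem_filter]
            refine ⟨Finset.mem_univ _, ?_⟩
            rw [← h3]
            exact hp
          · show fl (l (p.1, j)) = Sum.inl x
            rw [← h3]
            show fl (l p) = Sum.inl x
            rw [h]
            show (Sum.inl (m.k (m.k x)) : X ⊕ X) = Sum.inl x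
            rw [m.k_k]
      · intro x hx hzx
        rcases hPR x hzx with h | ⟨p, hp, h⟩
        · exfalso
          apply hx
          rcases h with ⟨i', h3, h4⟩ | ⟨j', h3, h4⟩
          · exact ⟨fun h => (uAB h3 h).elim, fun h => (uAB h4 h).elim⟩
          · exact ⟨fun h => by rw [uB h h3]; exact h4, fun h => by rw [uB h h4]; exact h3⟩
        · have h3 : p.2 = j := by
            rcases lR p hp x h with h2 | h2
            · by_contra hne
              exact hx ⟨fun h' => (uAB h2.1 h').elim, fun h' => (hne (uB h2.2 h')).elim⟩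
            · by_contra hne
              exact hx ⟨fun h' => (hne (uB h2.1 h')).elim, fun h' => (uAB h2.2 h').elim⟩
          refine ⟨p.1, ?_, ?_⟩
          · rw [Finset.mem_filter]
            refine ⟨Finset.mem_univ _, ?_⟩
            rw [← h3]
            exact hp
          · show fl (l (p.1, j)) = Sum.inr x
            rw [← h3]
            show fl (l p) = Sum.inr x
            rw [h]
            rfl

end UIPQ
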