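import Pool.Agent.Lib.UIPQ.FDefs

/-!
# PathLem: paths of a parent function

Let π : X → X and suppose that the path from y reaches x: ∃ n, π^[n] y = x. Let `len π x y` be the first n with
π^[n] y = x. The points of the path are π^[j] y, j ≤ len; v is on the path iff `onPath π x y v`.
`idx π x y v` = the first j with π^[j] y = v (0 if none).

PROOF. `onPath_iff`: v = π^[n] y with no earlier visit of x: n ≤ len. Conversely j ≤ len: no visit of x before len.
`path_inj`: if π^[i] y = π^[j] y with i < j ≤ len then the sequence is periodic from i on with period j - i: for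
all n ≥ i, π^[n] y is one of the values at the indices i..j-1 (all < len, so ≠ x), contradiction with π^[len] y = x.
`tree`: v on the path from y and on the path from y', v = π^[i] y = π^[i'] y': the path from v reaches x after
len y - i = len y' - i' steps. So the parts after v coincide.
-/

namespace UIPQ

variable {X : Type}

open Classical in
/-- The length of the path. -/
noncomputable def plen (π : X → X) (x y : X) : ℕ := sInf {n | π^[n] y = x}

theorem plen_spec {π : X → X} {x y : X} (h : ∃ n, π^[n] y = x) : π^[plen π x y] y = x :=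
  Nat.sInf_mem (s := {n | π^[n] y = x}) h

theorem lt_plen {π : X → X} {x y : X} {j : ℕ} (h : j < plen π x y) : π^[j] y ≠ x :=
  Nat.notMem_of_lt_sInf (s := {n | π^[n] y = x}) h

theorem onPath_iff {π : X → X} {x y v : X} (h : ∃ n, π^[n] y = x) :
    onPath π x y v ↔ ∃ j ≤ plen π x y, π^[j] y = v := by
  constructor
  · rintro ⟨n, hn, hlt⟩
    refine ⟨n, ?_, hn⟩
    by_contra hc
    exact hlt _ (not_le.1 hc) (plen_spec h)
  · rintro ⟨j, hj, hv⟩
    exact ⟨j, hv, fun i hi => lt_plen (lt_of_lt_of_le hi hj)⟩

private theorem path_inj_aux {π : X → X} {x y : X} (h : ∃ n, π^[n] y = x) {i j : ℕ}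
    (hj : j ≤ plen π x y) (hij : π^[i] y = π^[j] y) (hlt : i < j) : False := by
  obtain ⟨m, hm⟩ := Nat.exists_eq_add_of_le hj
  have h1 : π^[m + i] y = x := by
    rw [Function.iterate_add_apply, hij, ← Function.iterate_add_apply, add_comm m j, ← hm]
    exact plen_spec h
  exact lt_plen (by omega : m + i < plen π x y) h1

theorem path_inj {π : X → X} {x y : X} (h : ∃ n, π^[n] y = x) {i j : ℕ} (hi : i ≤ plen π x y)
    (hj : j ≤ plen π x y) (hij : π^[i] y = π^[j] y) : i = j := by
  rcases lt_trichotomy i j with h1 | h1 | h1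
  · exact (path_inj_aux h hj hij h1).elim
  · exact h1
  · exact (path_inj_aux h hi hij.symm h1).elim

private theorem path_shift {π : X → X} {y y' : X} {i i' : ℕ} (hv : π^[i] y = π^[i'] y') (j : ℕ) :
    π^[i + j] y = π^[i' + j] y' := by
  rw [add_comm i j, add_comm i' j, Function.iterate_add_apply, Function.iterate_add_apply, hv]

private theorem path_tree_aux {π : X → X} {x y y' : X} (h : ∃ n, π^[n] y = x)
    {i i' : ℕ} (hi : i ≤ plen π x y) (hi' : i' ≤ plen π x y') (hv : π^[i] y = π^[i'] y') :
    plen π x y' - i' ≤ plen π x y - i := by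
  have h1 := path_shift hv (plen π x y - i)
  rw [Nat.add_sub_cancel' hi, plen_spec h] at h1
  by_contra hc
  exact lt_plen (by omega : i' + (plen π x y - i) < plen π x y') h1.symm

/-- Two paths of the same parent function coincide after a common point. -/
theorem path_tree {π : X → X} {x y y' : X} (h : ∃ n, π^[n] y = x) (h' : ∃ n, π^[n] y' = x)
    {i i' : ℕ} (hi : i ≤ plen π x y) (hi' : i' ≤ plen π x y') (hv : π^[i] y = π^[i'] y') :
    plen π x y - i = plen π x y' - i' ∧ ∀ j, π^[i + j] y = π^[i' + j] y' :=
  ⟨le_antisymm (path_tree_aux h' hi' hi hv.symm) (path_tree_aux h hi hi' hv), path_shift hv⟩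

theorem onPath_self {π : X → X} {x y : X} (h : ∃ n, π^[n] y = x) : onPath π x y x :=
  ⟨plen π x y, plen_spec h, fun _ hj => lt_plen hj⟩

theorem onPath_start (π : X → X) (x y : X) : onPath π x y y :=
  ⟨0, rfl, fun j hj => absurd hj (Nat.not_lt_zero j)⟩

end UIPQ
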