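import Mathlib

/-!
# Prune: removing the points of degree at most one of a bipartite graph

PROOF. Induction on |C| + |D|. If every point of C which occurs in Γ has at least two partners and
every point of D which occurs in Γ has at least two partners, take Γ' = Γ. If some c ∈ C (or d ∈ D) occurs in Γ
exactly once, remove this pair from Γ and c from C (resp. d from D): the new Γ is contained in the product of the
smaller sets; apply the induction hypothesis: |Γ| = |Γ₁| + 1 ≤ |Γ'| + (|C| + |D| - 1) + 1.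
-/

namespace UIPQ

open Finset

private theorem prune_aux {α β : Type} [DecidableEq α] [DecidableEq β] (n : ℕ) :
    ∀ (C : Finset α) (D : Finset β) (Γ : Finset (α × β)), C.card + D.card = n → (∀ p ∈ Γ, p.1 ∈ C ∧ p.2 ∈ D) →
    ∃ Γ' ⊆ Γ, Γ.card ≤ Γ'.card + n ∧
      (∀ p ∈ Γ', ∃ y, y ≠ p.2 ∧ (p.1, y) ∈ Γ') ∧ ∀ p ∈ Γ', ∃ x, x ≠ p.1 ∧ (x, p.2) ∈ Γ' := by
  induction n with
  | zero =>
    intro C D Γ hn hΓ
    have hC : C = ∅ := by
      rw [← Finset.card_eq_zero]
      omega
    have hE : Γ = ∅ := by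
      rw [Finset.eq_empty_iff_forall_notMem]
      intro p hp
      have h1 := (hΓ p hp).1
      rw [hC] at h1
      exact absurd h1 (Finset.notMem_empty _)
    subst hE
    exact ⟨∅, Finset.Subset.refl _, by simp, by simp, by simp⟩
  | succ n ih =>
    intro C D Γ hn hΓ
    by_cases h1 : ∀ p ∈ Γ, ∃ y, y ≠ p.2 ∧ (p.1, y) ∈ Γ
    · by_cases h2 : ∀ p ∈ Γ, ∃ x, x ≠ p.1 ∧ (x, p.2) ∈ Γ
      · exact ⟨Γ, Finset.Subset.refl _, by omega, h1, h2⟩
      · push Not at h2
        obtain ⟨p, hp, hp2⟩ := h2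
        obtain ⟨Γ', hs, hc, ha, hb⟩ := ih C (D.erase p.2) (Γ.erase p) (by
          have := Finset.card_erase_add_one (hΓ p hp).2
          omega) (by
          intro q hq
          rw [Finset.mem_erase] at hq
          refine ⟨(hΓ q hq.2).1, Finset.mem_erase.2 ⟨?_, (hΓ q hq.2).2⟩⟩
          intro hqp
          by_cases h3 : q.1 = p.1
          · exact hq.1 (Prod.ext h3 hqp)
          · apply hp2 q.1 h3
            rw [← hqp]
            exact hq.2)
        refine ⟨Γ', hs.trans (Finset.erase_subset _ _), ?_, ha, hb⟩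
        have := Finset.card_erase_add_one hp
        omega
    · push Not at h1
      obtain ⟨p, hp, hp2⟩ := h1
      obtain ⟨Γ', hs, hc, ha, hb⟩ := ih (C.erase p.1) D (Γ.erase p) (by
        have := Finset.card_erase_add_one (hΓ p hp).1
        omega) (by
        intro q hq
        rw [Finset.mem_erase] at hq
        refine ⟨Finset.mem_erase.2 ⟨?_, (hΓ q hq.2).1⟩, (hΓ q hq.2).2⟩
        intro hqp
        by_cases h3 : q.2 = p.2
        · exact hq.1 (Prod.ext hqp h3)
        · apply hp2 q.2 h3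
          rw [← hqp]
          exact hq.2)
      refine ⟨Γ', hs.trans (Finset.erase_subset _ _), ?_, ha, hb⟩
      have := Finset.card_erase_add_one hp
      omega

theorem prune {α β : Type} [DecidableEq α] [DecidableEq β] (C : Finset α) (D : Finset β)
    (Γ : Finset (α × β)) (hΓ : ∀ p ∈ Γ, p.1 ∈ C ∧ p.2 ∈ D) :
    ∃ Γ' ⊆ Γ, Γ.card ≤ Γ'.card + (C.card + D.card) ∧
      (∀ p ∈ Γ', ∃ y, y ≠ p.2 ∧ (p.1, y) ∈ Γ') ∧ ∀ p ∈ Γ', ∃ x, x ≠ p.1 ∧ (x, p.2) ∈ Γ' :=
  prune_aux (C.card + D.card) C D Γ rfl hΓ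

end UIPQ
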