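import Pool.Agent.Lib.UIPQ.A.Minor
import Pool.Agent.Lib.UIPQ.A.Prune
import Pool.Agent.Lib.UIPQ.A.PathLem

/-!
# NoBad: routings without bad pairs have linearly many paths

PROOF. `prune` with C = Ctr, D = Tgt: Γ' ⊆ Γ, |Γ| ≤ |Γ'| + |Ctr| + |Tgt|, every (x,y) ∈ Γ' has a second target y' ≠ y,
(x,y') ∈ Γ', and a second centre x' ≠ x, (x',y) ∈ Γ'. It is enough to show |Γ'| ≤ 3 (|Ctr| + |Tgt|), by `minor_bound`
with I = Ctr, J = Tgt (subtypes).
For (x,y) ∈ Γ' write γ(x,y) for the path from y to x (points π x ^[j] y, 0 ≤ j ≤ plen (π x) x y, no repetition by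
`path_inj`). Call v ∈ γ(x,y) SHARED (for y) if v ∈ γ(x1,y) for some x1 ≠ x with (x1,y) ∈ Γ'. y itself is shared. Let
j(x,y) = the LARGEST index j ≤ plen with π x ^[j] y shared, m(x,y) = that point (the first shared point seen from x).
 A(x,y) = {π x ^[j] y : j(x,y) < j ≤ plen}  (the part before m seen from x),
 Z(x,y) = {π x ^[j] y : 0 ≤ j ≤ j(x,y)}     (the part from m to y).
m(x,y) ≠ x (so j(x,y) < plen): otherwise x ∈ γ(x1,y), x1 ≠ x; x has a second target y'' ≠ y, (x,y'') ∈ Γ' and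
x ∈ γ(x,y''); (x1,y), (x,y'') contradict NB at the point x.
T x := union of the A(x,y) over (x,y) ∈ Γ': contains x, connected in H (each A(x,y) is a path ending at x; the steps are
H-adjacent by hstep). U y := union of the Z(x,y): each is a path containing y.
`tree property` (path_tree): if v ∈ γ(x,y) ∩ γ(x,y') (same x) then the parts between v and x coincide.
DISJOINTNESS. (1) T x, T x', x ≠ x': v ∈ A(x,y) ∩ A(x',y'). If y ≠ y': NB. If y = y': v is shared, contradiction with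
v ∈ A(x,y).
(2) U y, U y', y ≠ y': v ∈ Z(x,y) ∩ Z(x',y'). If x ≠ x': NB. If x = x': m(x,y) lies between v and x on γ(x,y), so
m(x,y) ∈ γ(x,y') by the tree property; and m(x,y) ∈ γ(x1,y) with x1 ≠ x: the pairs (x1,y), (x,y') contradict NB.
(3) T x, U y: v ∈ A(x,y') ∩ Z(x',y). x ≠ x', y ≠ y': NB. x ≠ x', y = y': v is shared for y, contradiction with
v ∈ A(x,y). x = x', y = y': no repetition (path_inj). x = x', y ≠ y': m(x,y) is between v and x on γ(x,y), so it is on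
γ(x,y') (tree property), and on γ(x1,y) with x1 ≠ x: (x1,y), (x,y') contradict NB.
ADJACENCY: for (x,y) ∈ Γ' the point π x ^[j(x,y)+1] y is in A(x,y) ⊆ T x and it is H-adjacent to m(x,y) ∈ U y.
(The sets T x, U y for points which do not occur in Γ' are empty: fine for `minor_bound`.)
-/

namespace UIPQ

variable {X : Type} [Fintype X] [DecidableEq X]

open Classical in
private noncomputable def nbJ (π : X → X → X) (Γ : Finset (X × X)) (p : X × X) : ℕ :=
  Nat.findGreatest (fun j => ∃ x1, x1 ≠ p.1 ∧ (x1, p.2) ∈ Γ ∧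
    onPath (π x1) x1 p.2 ((π p.1)^[j] p.2)) (plen (π p.1) p.1 p.2)

private def nbA (π : X → X → X) (Γ : Finset (X × X)) (p : X × X) : Set X :=
  {v | ∃ j, nbJ π Γ p < j ∧ j ≤ plen (π p.1) p.1 p.2 ∧ (π p.1)^[j] p.2 = v}

private def nbZ (π : X → X → X) (Γ : Finset (X × X)) (p : X × X) : Set X :=
  {v | ∃ j, j ≤ nbJ π Γ p ∧ (π p.1)^[j] p.2 = v}

private theorem nbJ_le (π : X → X → X) (Γ : Finset (X × X)) (p : X × X) :
    nbJ π Γ p ≤ plen (π p.1) p.1 p.2 := by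
  classical
  exact Nat.findGreatest_le _

private theorem nb_shared (π : X → X → X) (Γ : Finset (X × X))
    (h2 : ∀ p ∈ Γ, ∃ x, x ≠ p.1 ∧ (x, p.2) ∈ Γ) (p : X × X) (hp : p ∈ Γ) :
    ∃ x1, x1 ≠ p.1 ∧ (x1, p.2) ∈ Γ ∧ onPath (π x1) x1 p.2 ((π p.1)^[nbJ π Γ p] p.2) := by
  classical
  have h := Nat.findGreatest_spec (P := fun j => ∃ x1, x1 ≠ p.1 ∧ (x1, p.2) ∈ Γ ∧
    onPath (π x1) x1 p.2 ((π p.1)^[j] p.2)) (m := 0) (n := plen (π p.1) p.1 p.2) (Nat.zero_le _)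
    (by
      obtain ⟨x1, hx1, hx2⟩ := h2 p hp
      exact ⟨x1, hx1, hx2, onPath_start (π x1) x1 p.2⟩)
  exact h

private theorem nb_not_shared (π : X → X → X) (Γ : Finset (X × X)) (p : X × X) (v : X)
    (hv : v ∈ nbA π Γ p) (x1 : X) (hx1 : x1 ≠ p.1) (hx2 : (x1, p.2) ∈ Γ)
    (h : onPath (π x1) x1 p.2 v) : False := by
  classical
  obtain ⟨j, hj1, hj2, rfl⟩ := hv
  exact Nat.findGreatest_is_greatest hj1 hj2 ⟨x1, hx1, hx2, h⟩

private theorem nbA_onPath (π : X → X → X) (Γ : Finset (X × X))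
    (p : X × X) (hr : ∃ n : ℕ, (π p.1)^[n] p.2 = p.1) (v : X) (hv : v ∈ nbA π Γ p) :
    onPath (π p.1) p.1 p.2 v := by
  obtain ⟨j, hj1, hj2, rfl⟩ := hv
  exact (onPath_iff hr).2 ⟨j, hj2, rfl⟩

private theorem nbZ_onPath (π : X → X → X) (Γ : Finset (X × X))
    (p : X × X) (hr : ∃ n : ℕ, (π p.1)^[n] p.2 = p.1) (v : X) (hv : v ∈ nbZ π Γ p) :
    onPath (π p.1) p.1 p.2 v := by
  obtain ⟨j, hj1, rfl⟩ := hv
  exact (onPath_iff hr).2 ⟨j, hj1.trans (nbJ_le π Γ p), rfl⟩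

/-- A point of `Z p` is not on a path with the same centre and another target. -/
private theorem nb_tree (π : X → X → X) (Γ : Finset (X × X))
    (h2 : ∀ p ∈ Γ, ∃ x, x ≠ p.1 ∧ (x, p.2) ∈ Γ)
    (hreach : ∀ p ∈ Γ, ∃ n : ℕ, (π p.1)^[n] p.2 = p.1)
    (NB : ∀ p ∈ Γ, ∀ q ∈ Γ, p.1 ≠ q.1 → p.2 ≠ q.2 →
      ∀ v, ¬ (onPath (π p.1) p.1 p.2 v ∧ onPath (π q.1) q.1 q.2 v))
    (x y y' v : X) (hp : (x, y) ∈ Γ) (hq : (x, y') ∈ Γ) (hy : y ≠ y')
    (hv : v ∈ nbZ π Γ (x, y)) (hv' : onPath (π x) x y' v) : False := by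
  obtain ⟨x1, hx1, hx2, hx3⟩ := nb_shared π Γ h2 (x, y) hp
  obtain ⟨i, hi, hiv⟩ := hv
  obtain ⟨i', hi', hiv'⟩ := (onPath_iff (hreach (x, y') hq)).1 hv'
  have hJ := nbJ_le π Γ (x, y)
  simp only at hi hiv hi' hiv' hJ hx1 hx2 hx3
  obtain ⟨ht1, ht2⟩ := path_tree (hreach (x, y) hp) (hreach (x, y') hq) (hi.trans hJ) hi'
    (hiv.trans hiv'.symm)
  simp only at ht1 ht2
  have h3 : (π x)^[nbJ π Γ (x, y)] y = (π x)^[i' + (nbJ π Γ (x, y) - i)] y' := by
    rw [← ht2 (nbJ π Γ (x, y) - i)]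
    congr 1
    omega
  have h4 : onPath (π x) x y' ((π x)^[nbJ π Γ (x, y)] y) := by
    refine (onPath_iff (hreach (x, y') hq)).2 ⟨i' + (nbJ π Γ (x, y) - i), ?_, h3.symm⟩
    simp only
    omega
  exact NB (x1, y) hx2 (x, y') hq hx1 hy _ ⟨hx3, h4⟩

theorem no_bad (m : CMap X) (hm : m.Planar) (Ctr Tgt : Finset X)
    (π : X → X → X) (Γ : Finset (X × X)) (hΓ : ∀ p ∈ Γ, p.1 ∈ Ctr ∧ p.2 ∈ Tgt)
    (hreach : ∀ p ∈ Γ, ∃ n : ℕ, (π p.1)^[n] p.2 = p.1)
    (hstep : ∀ x v, π x v = v ∨ m.HAdj v (π x v))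
    (NB : ∀ p ∈ Γ, ∀ q ∈ Γ, p.1 ≠ q.1 → p.2 ≠ q.2 →
      ∀ v, ¬ (onPath (π p.1) p.1 p.2 v ∧ onPath (π q.1) q.1 q.2 v)) :
    Γ.card ≤ 4 * (Ctr.card + Tgt.card) := by
  obtain ⟨Γ', hsub, hcard, h1, h2⟩ := prune Ctr Tgt Γ hΓ
  have hr' : ∀ p ∈ Γ', ∃ n : ℕ, (π p.1)^[n] p.2 = p.1 := fun p hp => hreach p (hsub hp)
  have NB' : ∀ p ∈ Γ', ∀ q ∈ Γ', p.1 ≠ q.1 → p.2 ≠ q.2 →
      ∀ v, ¬ (onPath (π p.1) p.1 p.2 v ∧ onPath (π q.1) q.1 q.2 v) :=
    fun p hp q hq => NB p (hsub hp) q (hsub hq)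
  clear NB hreach
  have hlt : ∀ p ∈ Γ', nbJ π Γ' p < plen (π p.1) p.1 p.2 := by
    intro p hp
    refine lt_of_le_of_ne (nbJ_le π Γ' p) fun h => ?_
    obtain ⟨x1, hx1, hx2, hx3⟩ := nb_shared π Γ' h2 p hp
    rw [h, plen_spec (hr' p hp)] at hx3
    obtain ⟨y, hy1, hy2⟩ := h1 p hp
    exact NB' (x1, p.2) hx2 (p.1, y) hy2 hx1 hy1.symm p.1
      ⟨hx3, onPath_self (hr' (p.1, y) hy2)⟩
  set T : X → Set X := fun x => {v | ∃ y, (x, y) ∈ Γ' ∧ v ∈ nbA π Γ' (x, y)} with hT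
  set U : X → Set X := fun y => {v | ∃ x, (x, y) ∈ Γ' ∧ v ∈ nbZ π Γ' (x, y)} with hU
  have dT : ∀ x x', x ≠ x' → Disjoint (T x) (T x') := by
    intro x x' hx
    rw [Set.disjoint_left]
    rintro v ⟨y, hy, hv⟩ ⟨y', hy', hv'⟩
    by_cases hyy : y = y'
    · subst hyy
      exact nb_not_shared π Γ' (x, y) v hv x' hx.symm hy' (nbA_onPath π Γ' _ (hr' _ hy') v hv')
    · exact NB' _ hy _ hy' hx hyy v ⟨nbA_onPath π Γ' _ (hr' _ hy) v hv,
        nbA_onPath π Γ' _ (hr' _ hy') v hv'⟩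
  have dU : ∀ y y', y ≠ y' → Disjoint (U y) (U y') := by
    intro y y' hyy
    rw [Set.disjoint_left]
    rintro v ⟨x, hx, hv⟩ ⟨x', hx', hv'⟩
    by_cases hxx : x = x'
    · subst hxx
      exact nb_tree π Γ' h2 hr' NB' x y y' v hx hx' hyy hv (nbZ_onPath π Γ' _ (hr' _ hx') v hv')
    · exact NB' _ hx _ hx' hxx hyy v ⟨nbZ_onPath π Γ' _ (hr' _ hx) v hv,
        nbZ_onPath π Γ' _ (hr' _ hx') v hv'⟩
  have dTU : ∀ x y, Disjoint (T x) (U y) := by
    intro x y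
    rw [Set.disjoint_left]
    rintro v ⟨y', hy', hv⟩ ⟨x', hx', hv'⟩
    by_cases hxx : x = x'
    · subst hxx
      by_cases hyy : y = y'
      · subst hyy
        obtain ⟨j, hj1, hj2, hj3⟩ := hv
        obtain ⟨i, hi1, hi2⟩ := hv'
        have := path_inj (hr' _ hy') hj2 (hi1.trans (nbJ_le π Γ' (x, y))) (hj3.trans hi2.symm)
        omega
      · exact nb_tree π Γ' h2 hr' NB' x y y' v hx' hy' hyy hv' (nbA_onPath π Γ' _ (hr' _ hy') v hv)
    · by_cases hyy : y = y'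
      · subst hyy
        exact nb_not_shared π Γ' (x, y) v hv x' (Ne.symm hxx) hx'
          (nbZ_onPath π Γ' _ (hr' _ hx') v hv')
      · exact NB' _ hy' _ hx' hxx (Ne.symm hyy) v ⟨nbA_onPath π Γ' _ (hr' _ hy') v hv,
          nbZ_onPath π Γ' _ (hr' _ hx') v hv'⟩
  have symR : ∀ (S : Set X) (a b : X),
      Relation.ReflTransGen (fun a b => a ∈ S ∧ b ∈ S ∧ m.HAdj a b) a b →
      Relation.ReflTransGen (fun a b => a ∈ S ∧ b ∈ S ∧ m.HAdj a b) b a := by
    intro S a b h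
    induction h with
    | refl => exact Relation.ReflTransGen.refl
    | tail _ h2 ih => exact Relation.ReflTransGen.head ⟨h2.2.1, h2.1, h2.2.2.symm⟩ ih
  have cT : ∀ x, m.HConn (T x) := by
    intro x
    have key : ∀ v ∈ T x, Relation.ReflTransGen (fun a b => a ∈ T x ∧ b ∈ T x ∧ m.HAdj a b) v x := by
      rintro v ⟨y, hy, j, hj1, hj2, rfl⟩
      simp only at hj1 hj2 ⊢
      obtain ⟨d, hd⟩ := Nat.exists_eq_add_of_le hj2
      induction d generalizing j with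
      | zero =>
        have : (π x)^[j] y = x := by
          have h := plen_spec (hr' _ hy)
          simp only at h
          rw [hd] at h
          simpa using h
        rw [this]
      | succ d ih =>
        have hj3 : j + 1 ≤ plen (π x) x y := by omega
        have h3 := ih (j + 1) (by omega) hj3 (by omega)
        rw [Function.iterate_succ_apply'] at h3
        rcases hstep x ((π x)^[j] y) with h4 | h4
        · rw [h4] at h3
          exact h3
        · refine Relation.ReflTransGen.head ⟨⟨y, hy, j, hj1, hj2, rfl⟩,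
            ⟨y, hy, j + 1, ?_, hj3, ?_⟩, h4⟩ h3
          · omega
          · simp only
            rw [Function.iterate_succ_apply']
    intro a ha b hb
    exact (key a ha).trans (symR _ _ _ (key b hb))
  have cU : ∀ y, m.HConn (U y) := by
    intro y
    have key : ∀ v ∈ U y, Relation.ReflTransGen (fun a b => a ∈ U y ∧ b ∈ U y ∧ m.HAdj a b) v y := by
      rintro v ⟨x, hx, j, hj, rfl⟩
      simp only at hj ⊢
      induction j with
      | zero => exact Relation.ReflTransGen.refl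
      | succ j ih =>
        have h3 := ih (by omega)
        rw [Function.iterate_succ_apply']
        rcases hstep x ((π x)^[j] y) with h4 | h4
        · rw [h4]
          exact h3
        · refine Relation.ReflTransGen.head ⟨⟨x, hx, j + 1, hj, ?_⟩,
            ⟨x, hx, j, ?_, rfl⟩, h4.symm⟩ h3
          · simp only
            rw [Function.iterate_succ_apply']
          · omega
    intro a ha b hb
    exact (key a ha).trans (symR _ _ _ (key b hb))
  have hadj : ∀ p ∈ Γ', ∃ a ∈ T p.1, ∃ b ∈ U p.2, m.HAdj a b := by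
    rintro ⟨x, y⟩ hp
    have hl := hlt _ hp
    simp only at hl
    refine ⟨(π x)^[nbJ π Γ' (x, y) + 1] y, ⟨y, hp, nbJ π Γ' (x, y) + 1, Nat.lt_succ_self _, hl, rfl⟩,
      (π x)^[nbJ π Γ' (x, y)] y, ⟨x, hp, nbJ π Γ' (x, y), le_refl _, rfl⟩, ?_⟩
    rcases hstep x ((π x)^[nbJ π Γ' (x, y)] y) with h4 | h4
    · exfalso
      have h5 := path_inj (hr' _ hp) (i := nbJ π Γ' (x, y) + 1) (j := nbJ π Γ' (x, y)) hl hl.le
        (by
          simp only
          rw [Function.iterate_succ_apply']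
          exact h4)
      omega
    · rw [Function.iterate_succ_apply']
      exact h4.symm
  -- the minor
  classical
  let Γ'' : Finset ({x // x ∈ Ctr} × {y // y ∈ Tgt}) :=
    Finset.univ.filter (fun q => (q.1.1, q.2.1) ∈ Γ')
  have hmb := minor_bound m hm (I := {x // x ∈ Ctr}) (J := {y // y ∈ Tgt})
    (fun i => T i.1) (fun j => U j.1) (fun i => cT i.1) (fun j => cU j.1)
    (fun i i' h => dT _ _ (fun h' => h (Subtype.ext h')))
    (fun i i' h => dU _ _ (fun h' => h (Subtype.ext h')))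
    (fun i j => dTU _ _) Γ''
    (by
      rintro ⟨i, j⟩ hq
      exact hadj (i.1, j.1) (Finset.mem_filter.1 hq).2)
  have hle : Γ'.card ≤ Γ''.card := by
    have hsub2 : Γ' ⊆ Γ''.image (fun q => (q.1.1, q.2.1)) := by
      rintro ⟨x, y⟩ hp
      have h3 := hΓ _ (hsub hp)
      rw [Finset.mem_image]
      refine ⟨(⟨x, h3.1⟩, ⟨y, h3.2⟩), ?_, rfl⟩
      exact Finset.mem_filter.2 ⟨Finset.mem_univ _, hp⟩
    exact (Finset.card_le_card hsub2).trans Finset.card_image_le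
  rw [Fintype.card_coe, Fintype.card_coe] at hmb
  omega

end UIPQ
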