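import Pool.Agent.Lib.UIPQ.A.EntBd
import Pool.Agent.Lib.UIPQ.A.BadSet

/-!
# ThmA: most points of a planar map have a Green function of logarithmic size

PROOF. `green_ge`: if for every i in a set S ⊆ range (I+1) one has pt (2·2^i) x x ≥ δ/2^i, and 2^(I+1) ≤ T, then
green T x x ≥ |S| δ/2. Indeed the times 2s with 2^(i-1) ≤ s < 2^i (i ≥ 1; for i = 0: s = 0) lie in [2^i, 2^(i+1)) (resp. {0}), these
blocks are disjoint, contained in range (2^(I+1)), the block i has 2^(i-1) elements (resp. 1) and pt (2s) x x ≥ pt (2·2^i) x x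
(pt_even_anti), so it contributes at least 2^(i-1) δ/2^i = δ/2.
`thmA`: given ε ∈ (0,1). Let η = ε/16, C1 from fT_sum_le, C2 from bad_set. Choose δ ≤ 1/16 with C2 (δ · 11/η)^(1/3) ≤ η.
For I ∈ ℕ: the number of i ≤ I with fT (2^i) > 11/η is at most (10 I + C1) η/11 ≤ η I + C1. For the other i ≤ I, bad_set
with T = 2^i (δ ≤ 1/16 ≤ 2^i/16) : #{x : pt (2·2^i) x x < δ/2^i} ≤ N η + C2 N δ/2^i (the rpow is monotone, (δ fT)^(1/3) ≤
(11 δ/η)^(1/3)). So the number of pairs (x,i), i ≤ I, with pt (2·2^i) x x < δ/2^i is at most N (η I + C1) + N η (I+1) + 2 C2 N δ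
≤ N (2 η I + C3). The number of x with more than I/2 such i is at most 2 N (2 η I + C3)/I ≤ N (4η + 2 C3/I) ≤ ε N/2 as soon
as I ≥ I0. For the other x green T x x ≥ (I/2) δ/2 = δ I/4.
Let T ≥ 2, I with 2^(I+1) ≤ T < 2^(I+2). If I ≥ max(I0,1): log T ≤ (I+2) log 2 ≤ 3 I so δ I/4 ≥ (δ/12) log T. If I < I0:
green T x x ≥ pt 0 x x = 1 ≥ c log T if c (I0+2) ≤ 1. Take c = min of the two.
-/

namespace UIPQ

open Finset

private theorem ta_dy {a : ℕ → ℝ} (ha : Antitone a) (ha0 : ∀ n, 0 ≤ a n) {δ : ℝ} (hδ : 0 ≤ δ)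
    (S : Finset ℕ) (h : ∀ i ∈ S, δ / 2 ^ i ≤ a (2 ^ i)) (n : ℕ) :
    ((S.filter (fun i => i ≤ n)).card : ℝ) * (δ / 2) ≤ ∑ s ∈ range (2 ^ n), a s := by
  classical
  induction n with
  | zero =>
    rw [pow_zero, sum_range_one]
    by_cases h0 : 0 ∈ S
    · have h1 : S.filter (fun i => i ≤ 0) = {0} := by
        ext i
        simp only [mem_filter, Finset.mem_singleton, Nat.le_zero]
        constructor
        · exact fun h => h.2
        · rintro rfl
          exact ⟨h0, rfl⟩
      have h2 := h 0 h0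
      have h3 : a 1 ≤ a 0 := ha (Nat.zero_le 1)
      rw [pow_zero, div_one, pow_zero] at h2
      rw [h1, card_singleton, Nat.cast_one, one_mul]
      linarith
    · have h1 : S.filter (fun i => i ≤ 0) = ∅ := by
        ext i
        simp only [mem_filter, Nat.le_zero, Finset.notMem_empty, iff_false, not_and]
        rintro hi rfl
        exact h0 hi
      rw [h1, card_empty, Nat.cast_zero, zero_mul]
      exact ha0 0
  | succ n ih =>
    have hs : ∑ s ∈ range (2 ^ (n + 1)), a s =
        ∑ s ∈ range (2 ^ n), a s + ∑ s ∈ range (2 ^ n), a (2 ^ n + s) := by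
      rw [pow_succ, mul_two, sum_range_add]
    rw [hs]
    by_cases h0 : n + 1 ∈ S
    · have h1 : S.filter (fun i => i ≤ n + 1) = insert (n + 1) (S.filter (fun i => i ≤ n)) := by
        ext i
        simp only [mem_filter, Finset.mem_insert]
        constructor
        · rintro ⟨h2, h3⟩
          rcases Nat.lt_or_ge n i with h4 | h4
          · exact Or.inl (le_antisymm h3 h4)
          · exact Or.inr ⟨h2, h4⟩
        · rintro (rfl | ⟨h2, h3⟩)
          · exact ⟨h0, le_rfl⟩
          · exact ⟨h2, h3.trans (Nat.le_succ n)⟩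
      have h2 : n + 1 ∉ S.filter (fun i => i ≤ n) := by
        simp
      have h3 : δ / 2 ≤ ∑ s ∈ range (2 ^ n), a (2 ^ n + s) := by
        calc δ / 2 = ∑ _s ∈ range (2 ^ n), δ / 2 ^ (n + 1) := by
              rw [sum_const, card_range, nsmul_eq_mul]
              push_cast
              rw [pow_succ]
              field_simp
          _ ≤ _ := by
              refine sum_le_sum fun s hs => (h _ h0).trans (ha ?_)
              have := Finset.mem_range.1 hs
              rw [pow_succ]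
              omega
      rw [h1, card_insert_of_notMem h2]
      push_cast
      linarith
    · have h1 : S.filter (fun i => i ≤ n + 1) = S.filter (fun i => i ≤ n) := by
        ext i
        simp only [mem_filter]
        constructor
        · rintro ⟨h2, h3⟩
          refine ⟨h2, ?_⟩
          by_contra h4
          have h5 : i = n + 1 := by omega
          exact h0 (h5 ▸ h2)
        · rintro ⟨h2, h3⟩
          exact ⟨h2, h3.trans (Nat.le_succ n)⟩
      have h3 : 0 ≤ ∑ s ∈ range (2 ^ n), a (2 ^ n + s) := sum_nonneg fun s _ => ha0 _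
      rw [h1]
      linarith

theorem green_ge {X : Type} [Fintype X] (m : CMap X) (x : X) (δ : ℝ) (hδ : 0 ≤ δ) (I T : ℕ)
    (hT : 2 ^ (I + 1) ≤ T) (S : Finset ℕ) (hS : S ⊆ range (I + 1))
    (h : ∀ i ∈ S, δ / 2 ^ i ≤ m.pt (2 * 2 ^ i) x x) : S.card * δ / 2 ≤ m.green T x x := by
  classical
  have h1 : S.filter (fun i => i ≤ I) = S := filter_true_of_mem fun i hi =>
    Nat.lt_succ_iff.1 (Finset.mem_range.1 (hS hi))
  have h2 := ta_dy (a := fun s => m.pt (2 * s) x x) (pt_even_anti m x) (fun n => pt_nonneg m _ x x)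
    hδ S h I
  rw [h1] at h2
  have h3 : ∑ s ∈ range (2 ^ I), m.pt (2 * s) x x ≤ m.green T x x := by
    unfold CMap.green
    rw [← sum_image (s := range (2 ^ I)) (g := fun s => 2 * s) (f := fun t => m.pt t x x)
      (fun a _ b _ hab => by
        have : 2 * a = 2 * b := hab
        omega)]
    refine sum_le_sum_of_subset_of_nonneg (fun t ht => ?_) fun t _ _ => pt_nonneg m t x x
    obtain ⟨s, hs, rfl⟩ := Finset.mem_image.1 ht
    have h4 := Finset.mem_range.1 hs
    rw [pow_succ] at hT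
    rw [Finset.mem_range]
    omega
  calc (S.card : ℝ) * δ / 2 = S.card * (δ / 2) := by ring
    _ ≤ _ := h2.trans h3

theorem thmA : ∀ ε : ℝ, 0 < ε → ∃ c : ℝ, 0 < c ∧
    ∀ (X : Type) [Fintype X] [DecidableEq X] (m : CMap X), m.Planar → ∀ T : ℕ, 2 ≤ T →
      (({x : X | m.green T x x < c * Real.log T} : Set X).ncard : ℝ) ≤ ε * Fintype.card X := by
  classical
  intro ε0 hε0
  obtain ⟨C1, hC1, hf⟩ := fT_sum_le
  obtain ⟨C2, hC2, hb⟩ := bad_set
  obtain ⟨ε, hε, hε1, hεε⟩ : ∃ ε : ℝ, 0 < ε ∧ ε ≤ 1 ∧ ε ≤ ε0 :=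
    ⟨min ε0 1, lt_min hε0 one_pos, min_le_right _ _, min_le_left _ _⟩
  obtain ⟨η, hη, hηε⟩ : ∃ η : ℝ, 0 < η ∧ 16 * η = ε := ⟨ε / 16, by positivity, by ring⟩
  obtain ⟨δ, hδ, hδ16, hδη⟩ : ∃ δ : ℝ, 0 < δ ∧ δ ≤ 1 / 16 ∧
      C2 * (δ * (11 / η)) ^ (1 / 3 : ℝ) ≤ η := by
    refine ⟨min (1 / 16) (η / 11 * (η / C2) ^ 3), lt_min (by norm_num) (by positivity),
      min_le_left _ _, ?_⟩
    have h1 : min (1 / 16) (η / 11 * (η / C2) ^ 3) * (11 / η) ≤ (η / C2) ^ 3 := by
      calc min (1 / 16) (η / 11 * (η / C2) ^ 3) * (11 / η)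
          ≤ (η / 11 * (η / C2) ^ 3) * (11 / η) :=
            mul_le_mul_of_nonneg_right (min_le_right _ _) (by positivity)
        _ = (η / C2) ^ 3 := by field_simp
    have h0 : 0 ≤ min (1 / 16) (η / 11 * (η / C2) ^ 3) * (11 / η) :=
      mul_nonneg (le_min (by norm_num) (by positivity)) (by positivity)
    have h2 := Real.rpow_le_rpow h0 h1 (show (0 : ℝ) ≤ 1 / 3 by norm_num)
    have h3 : ((η / C2) ^ 3) ^ (1 / 3 : ℝ) = η / C2 := by
      rw [← Real.rpow_natCast, ← Real.rpow_mul (by positivity)]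
      norm_num
    rw [h3] at h2
    calc C2 * _ ≤ C2 * (η / C2) := mul_le_mul_of_nonneg_left h2 hC2.le
      _ = η := by field_simp
  obtain ⟨C3, hC3⟩ : ∃ C3 : ℝ, C3 = C1 * η + η + 2 * C2 * δ := ⟨_, rfl⟩
  have hC30 : 0 ≤ C3 := by rw [hC3]; positivity
  obtain ⟨I0, hI0⟩ := exists_nat_ge (8 * C3 / ε)
  rw [div_le_iff₀ hε] at hI0
  have hI00 : (0 : ℝ) ≤ (I0 : ℝ) := Nat.cast_nonneg _
  refine ⟨min (δ / 12) (1 / ((I0 : ℝ) + 2)), lt_min (by positivity) (by positivity), ?_⟩
  intro X _ _ m hm T hT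
  have hN : (0 : ℝ) ≤ (Fintype.card X : ℝ) := Nat.cast_nonneg _
  obtain ⟨I, hI1, hI2⟩ : ∃ I : ℕ, 2 ^ (I + 1) ≤ T ∧ T < 2 ^ (I + 2) := by
    have h1 : 1 ≤ Nat.log 2 T := Nat.log_pos (by norm_num) hT
    obtain ⟨I, hI⟩ := Nat.exists_eq_add_of_le h1
    refine ⟨I, ?_, ?_⟩
    · rw [add_comm, ← hI]
      exact Nat.pow_log_le_self 2 (by omega)
    · have h2 : I + 2 = Nat.log 2 T + 1 := by omega
      rw [h2]
      exact Nat.lt_pow_succ_log_self (by norm_num) T
  have hlog : Real.log T ≤ (I : ℝ) + 2 := by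
    have h1 : (T : ℝ) ≤ 2 ^ (I + 2) := by exact_mod_cast hI2.le
    have h2 : (0 : ℝ) < T := by
      have : 0 < T := by omega
      exact_mod_cast this
    have h3 := Real.log_le_log h2 h1
    rw [Real.log_pow] at h3
    have h4 : Real.log 2 ≤ 1 := by
      have := Real.log_two_lt_d9
      linarith
    have h5 : ((I + 2 : ℕ) : ℝ) * Real.log 2 ≤ ((I + 2 : ℕ) : ℝ) * 1 :=
      mul_le_mul_of_nonneg_left h4 (Nat.cast_nonneg _)
    push_cast at h3 h5
    linarith
  have hlog0 : 0 ≤ Real.log T := Real.log_natCast_nonneg T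
  have hI0' : (0 : ℝ) ≤ (I : ℝ) := Nat.cast_nonneg _
  by_cases hI : I ≤ I0
  · -- small times
    have h1 : ∀ x : X, 1 ≤ m.green T x x := by
      intro x
      have h2 : m.pt 0 x x = 1 := by rw [CMap.pt_zero, if_pos rfl]
      rw [← h2]
      exact single_le_sum (f := fun t => m.pt t x x) (fun t _ => pt_nonneg m t x x)
        (Finset.mem_range.2 (by omega))
    have h2 : min (δ / 12) (1 / ((I0 : ℝ) + 2)) * Real.log T ≤ 1 := by
      have h3 : (I : ℝ) ≤ I0 := by exact_mod_cast hI
      calc min (δ / 12) (1 / ((I0 : ℝ) + 2)) * Real.log T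
          ≤ 1 / ((I0 : ℝ) + 2) * ((I0 : ℝ) + 2) :=
            mul_le_mul (min_le_right _ _) (by linarith) hlog0 (by positivity)
        _ = 1 := by
            have : (I0 : ℝ) + 2 ≠ 0 := by positivity
            field_simp
    have h3 : ({x : X | m.green T x x < min (δ / 12) (1 / ((I0 : ℝ) + 2)) * Real.log T} : Set X) =
        ∅ := by
      rw [Set.eq_empty_iff_forall_notMem]
      intro x hx
      have hx' : m.green T x x < min (δ / 12) (1 / ((I0 : ℝ) + 2)) * Real.log T := hx
      linarith [h1 x]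
    rw [h3, Set.ncard_empty, Nat.cast_zero]
    positivity
  · rw [not_le] at hI
    have hI1' : (1 : ℝ) ≤ (I : ℝ) := by
      have : 1 ≤ I := by omega
      exact_mod_cast this
    have hI0I : (I0 : ℝ) ≤ I := by exact_mod_cast hI.le
    obtain ⟨B, hB⟩ : ∃ B : ℕ → Finset X,
        B = fun i => univ.filter (fun x => m.pt (2 * 2 ^ i) x x < δ / 2 ^ i) := ⟨_, rfl⟩
    have hBm : ∀ i x, x ∈ B i ↔ m.pt (2 * 2 ^ i) x x < δ / 2 ^ i := by
      intro i x
      rw [hB]
      simp
    have hBN : ∀ i, ((B i).card : ℝ) ≤ Fintype.card X := fun i => by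
      exact_mod_cast Finset.card_le_univ (B i)
    -- one scale
    have hB1 : ∀ i ∈ range (I + 1), ((B i).card : ℝ) ≤
        Fintype.card X * (if 11 / η < m.fT (2 ^ i) then 1 else 0) +
          (Fintype.card X * η + C2 * Fintype.card X * δ * (1 / 2) ^ i) := by
      intro i _
      by_cases hi : 11 / η < m.fT (2 ^ i)
      · rw [if_pos hi, mul_one]
        have h1 : 0 ≤ (Fintype.card X : ℝ) * η + C2 * Fintype.card X * δ * (1 / 2) ^ i := by
          positivity
        linarith [hBN i]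
      · rw [if_neg hi, mul_zero, zero_add]
        rw [not_lt] at hi
        have h2i : (1 : ℝ) ≤ 2 ^ i := one_le_pow₀ (by norm_num)
        have h1 := hb X m hm (2 ^ i) δ Nat.one_le_two_pow hδ (by
          push_cast
          have : (1 : ℝ) / 16 ≤ 2 ^ i / 16 := by linarith
          linarith)
        have h2 : ({x : X | m.pt (2 * 2 ^ i) x x < δ / ((2 ^ i : ℕ) : ℝ)} : Set X) = ↑(B i) := by
          ext x
          rw [Finset.mem_coe, hBm]
          push_cast
          rfl
        rw [h2, Set.ncard_coe_finset] at h1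
        have h3 : (δ * m.fT (2 ^ i)) ^ (1 / 3 : ℝ) ≤ (δ * (11 / η)) ^ (1 / 3 : ℝ) :=
          Real.rpow_le_rpow (mul_nonneg hδ.le (fT_nonneg m _))
            (mul_le_mul_of_nonneg_left hi hδ.le) (by norm_num)
        have h4 : C2 * Fintype.card X * (δ * m.fT (2 ^ i)) ^ (1 / 3 : ℝ) ≤
            Fintype.card X * η := by
          calc C2 * Fintype.card X * (δ * m.fT (2 ^ i)) ^ (1 / 3 : ℝ)
              ≤ C2 * Fintype.card X * (δ * (11 / η)) ^ (1 / 3 : ℝ) :=
                mul_le_mul_of_nonneg_left h3 (by positivity)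
            _ = Fintype.card X * (C2 * (δ * (11 / η)) ^ (1 / 3 : ℝ)) := by ring
            _ ≤ _ := mul_le_mul_of_nonneg_left hδη hN
        have h5 : δ / ((2 ^ i : ℕ) : ℝ) = δ * (1 / 2) ^ i := by
          push_cast
          rw [one_div, inv_pow, div_eq_mul_inv]
        rw [mul_add, h5] at h1
        linarith
    -- number of bad scales
    have hbad : ∑ i ∈ range (I + 1), (if 11 / η < m.fT (2 ^ i) then (1 : ℝ) else 0) ≤
        (10 * I + C1) * (η / 11) := by
      have h1 := hf X m hm I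
      have h2 : ∑ i ∈ range (I + 1), (if 11 / η < m.fT (2 ^ i) then (1 : ℝ) else 0) ≤
          ∑ i ∈ range (I + 1), m.fT (2 ^ i) * (η / 11) := by
        refine sum_le_sum fun i _ => ?_
        split_ifs with hi
        · have h3 := mul_le_mul_of_nonneg_right hi.le (show 0 ≤ η / 11 by positivity)
          have h4 : 11 / η * (η / 11) = 1 := by field_simp
          linarith
        · exact mul_nonneg (fT_nonneg m _) (by positivity)
      rw [← sum_mul] at h2
      exact h2.trans (mul_le_mul_of_nonneg_right h1 (by positivity))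
    have hgeo : ∑ i ∈ range (I + 1), (1 / 2 : ℝ) ^ i ≤ 2 := sum_geometric_two_le _
    have htot : ∑ i ∈ range (I + 1), ((B i).card : ℝ) ≤
        Fintype.card X * (2 * η * I + C3) := by
      refine (sum_le_sum hB1).trans ?_
      have h4 : ∑ i ∈ range (I + 1), C2 * (Fintype.card X : ℝ) * δ * (1 / 2 : ℝ) ^ i =
          C2 * (Fintype.card X : ℝ) * δ * ∑ i ∈ range (I + 1), (1 / 2 : ℝ) ^ i :=
        (mul_sum _ _ _).symm
      rw [sum_add_distrib, ← mul_sum, sum_add_distrib, sum_const, card_range,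
        nsmul_eq_mul]
      push_cast
      have h1 := mul_le_mul_of_nonneg_left hbad hN
      have h2 := mul_le_mul_of_nonneg_left hgeo
        (show 0 ≤ C2 * (Fintype.card X : ℝ) * δ by positivity)
      have h3 : (Fintype.card X : ℝ) * ((10 * I + C1) * (η / 11)) ≤
          Fintype.card X * (I * η + C1 * η) := by
        refine mul_le_mul_of_nonneg_left ?_ hN
        nlinarith [mul_nonneg hI0' hη.le, mul_nonneg hC1 hη.le]
      rw [hC3]
      nlinarith
    -- double counting
    obtain ⟨b, hbd⟩ : ∃ b : X → ℕ, b = fun x => ((range (I + 1)).filter (fun i => x ∈ B i)).card :=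
      ⟨_, rfl⟩
    have hdc : ∑ x : X, (b x : ℝ) = ∑ i ∈ range (I + 1), ((B i).card : ℝ) := by
      have h1 : ∀ x, (b x : ℝ) = ∑ i ∈ range (I + 1), if x ∈ B i then (1 : ℝ) else 0 := by
        intro x
        rw [hbd]
        simp only [card_filter]
        push_cast
        rfl
      have h2 : ∀ i, ((B i).card : ℝ) = ∑ x : X, if x ∈ B i then (1 : ℝ) else 0 := by
        intro i
        rw [← Finset.sum_filter, Finset.filter_mem_eq_inter, Finset.univ_inter]
        simp
      simp only [h1, h2]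
      exact sum_comm
    obtain ⟨G, hG⟩ : ∃ G : Finset X, G = univ.filter (fun x =>
        m.green T x x < min (δ / 12) (1 / ((I0 : ℝ) + 2)) * Real.log T) := ⟨_, rfl⟩
    have hGm : ∀ x, x ∈ G ↔ m.green T x x < min (δ / 12) (1 / ((I0 : ℝ) + 2)) * Real.log T := by
      intro x
      rw [hG]
      simp
    have hGb : ∀ x ∈ G, (I : ℝ) / 2 ≤ (b x : ℝ) := by
      intro x hx
      by_contra hlt
      rw [not_le] at hlt
      have h1 := green_ge m x δ hδ.le I T hI1 ((range (I + 1)).filter (fun i => ¬ x ∈ B i))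
        (filter_subset _ _) (fun i hi => by
          have h2 := (mem_filter.1 hi).2
          rw [hBm, not_lt] at h2
          exact h2)
      have h2 : ((((range (I + 1)).filter (fun i => ¬ x ∈ B i)).card : ℕ) : ℝ) + (b x : ℝ) =
          I + 1 := by
        have h3 := card_filter_add_card_filter_not (s := range (I + 1)) (fun i => x ∈ B i)
        rw [card_range] at h3
        rw [hbd]
        have h4 : ((((range (I + 1)).filter (fun i => x ∈ B i)).card +
          ((range (I + 1)).filter (fun i => ¬ x ∈ B i)).card : ℕ) : ℝ) = ((I + 1 : ℕ) : ℝ) := by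
          rw [h3]
        push_cast at h4
        linarith
      have h3 : (I : ℝ) / 2 * δ / 2 ≤ m.green T x x := by
        refine le_trans ?_ h1
        have : (I : ℝ) / 2 ≤ (((range (I + 1)).filter (fun i => ¬ x ∈ B i)).card : ℝ) := by
          linarith
        have h4 := mul_le_mul_of_nonneg_right this hδ.le
        linarith
      have h4 := (hGm x).1 hx
      have h5 : min (δ / 12) (1 / ((I0 : ℝ) + 2)) * Real.log T ≤ δ / 12 * (3 * I) :=
        mul_le_mul (min_le_left _ _) (by linarith) hlog0 (by positivity)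
      nlinarith
    have hfin : (G.card : ℝ) * (I / 2) ≤ Fintype.card X * (2 * η * I + C3) := by
      calc (G.card : ℝ) * (I / 2) = ∑ _x ∈ G, (I : ℝ) / 2 := by rw [sum_const, nsmul_eq_mul]
        _ ≤ ∑ x ∈ G, (b x : ℝ) := sum_le_sum hGb
        _ ≤ ∑ x : X, (b x : ℝ) := sum_le_sum_of_subset_of_nonneg (subset_univ _)
            fun x _ _ => Nat.cast_nonneg _
        _ ≤ _ := by rw [hdc]; exact htot
    have hset : ({x : X | m.green T x x < min (δ / 12) (1 / ((I0 : ℝ) + 2)) * Real.log T} : Set X) =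
        ↑G := by
      ext x
      rw [Finset.mem_coe, hGm]
      rfl
    rw [hset, Set.ncard_coe_finset]
    have h6 : (Fintype.card X : ℝ) * (2 * η * I + C3) ≤ (ε * Fintype.card X) * (I / 2) := by
      have h7 : 2 * η * I + C3 ≤ ε * (I / 2) := by
        have h8 : ε * I0 ≤ ε * I := mul_le_mul_of_nonneg_left hI0I hε.le
        have h9 : ε * I = 16 * η * I := by rw [hηε]
        nlinarith [mul_nonneg hη.le hI0']
      calc (Fintype.card X : ℝ) * (2 * η * I + C3) ≤ Fintype.card X * (ε * (I / 2)) :=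
            mul_le_mul_of_nonneg_left h7 hN
        _ = _ := by ring
    have h7 : (G.card : ℝ) ≤ ε * Fintype.card X :=
      le_of_mul_le_mul_right (hfin.trans h6) (by linarith)
    exact h7.trans (mul_le_mul_of_nonneg_right hεε hN)

end UIPQ
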