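import Pool.Agent.Lib.UIPQ.FDefs

/-!
# Walk: elementary properties of the transition probabilities of the walk on the darts

PROOF. `u_inv`: the family m.u 0..3 = 1, k, r, r⁻¹ is stable under inversion: (m.u i)⁻¹ = m.u (s i) with
s = the permutation of Fin 4 exchanging 2 and 3. By induction on t: pt ≥ 0; sum over y of pt t x y = 1 (each
m.u i is a bijection: Equiv.sum_comp).
`pt_add`: sum over y of pt s x y * pt t y z = pt (s+t) x z, by induction on t (pt (t+1) y z = average over i of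
pt t y (u_i z)). `pt_one_symm`/`pt_symm`: pt t x y = pt t y x, by induction using
pt (t+1) x y = sum over z of pt 1 x z * pt t z y (pt_add with 1 + t) and the symmetry of pt 1 (pt 1 x y =
#{i : x = u_i y}/4 and x = u_i y iff y = u_{s i} x).
`pt_sq`: pt (t+t) x x = sum over y of pt t x y * pt t y x. `pt_even_anti`: the function a_t := pt t x · satisfies
a_{t+1}(v) = average over i of a_t (u_i v), so sum over v of a_{t+1}(v)² ≤ sum over v of a_t(v)² (convexity of
the square and Equiv.sum_comp). `pt_odd_le`: pt (2t+1) x x = sum_y a_t(y) a_{t+1}(y) ≤ (sum a_t² + sum a_{t+1}²)/2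
≤ sum a_t² = pt (2t) x x.
-/

namespace UIPQ

open Finset

variable {X : Type} [Fintype X]

theorem u_inv (m : CMap X) : ∃ s : Equiv.Perm (Fin 4), ∀ i, (m.u i)⁻¹ = m.u (s i) := by
  refine ⟨Equiv.swap 2 3, fun i => ?_⟩
  fin_cases i
  · show (1 : Equiv.Perm X)⁻¹ = m.u ((Equiv.swap (2 : Fin 4) 3) 0)
    have h : (Equiv.swap (2 : Fin 4) 3) 0 = 0 := by decide
    rw [h, inv_one]
    rfl
  · show (m.k)⁻¹ = m.u ((Equiv.swap (2 : Fin 4) 3) 1)
    have h : (Equiv.swap (2 : Fin 4) 3) 1 = 1 := by decide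
    rw [h]
    exact m.k_symm
  · show (m.r)⁻¹ = m.u ((Equiv.swap (2 : Fin 4) 3) 2)
    have h : (Equiv.swap (2 : Fin 4) 3) 2 = 3 := by decide
    rw [h]
    rfl
  · show (m.r⁻¹)⁻¹ = m.u ((Equiv.swap (2 : Fin 4) 3) 3)
    have h : (Equiv.swap (2 : Fin 4) 3) 3 = 2 := by decide
    rw [h, inv_inv]
    rfl

theorem pt_nonneg (m : CMap X) (t : ℕ) (x y : X) : 0 ≤ m.pt t x y := by
  classical
  induction t generalizing y with
  | zero =>
    rw [CMap.pt_zero]
    split_ifs <;> norm_num
  | succ t ih =>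
    rw [CMap.pt_succ]
    have h1 := ih y
    have h2 := ih (m.k y)
    have h3 := ih (m.r y)
    have h4 := ih (m.r⁻¹ y)
    positivity

theorem pt_sum (m : CMap X) (t : ℕ) (x : X) : ∑ y, m.pt t x y = 1 := by
  classical
  induction t with
  | zero => simp [CMap.pt_zero]
  | succ t ih =>
    simp only [CMap.pt_succ]
    rw [← Finset.sum_div, Finset.sum_add_distrib, Finset.sum_add_distrib, Finset.sum_add_distrib,
      Equiv.sum_comp m.k (fun y => m.pt t x y), Equiv.sum_comp m.r (fun y => m.pt t x y),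
      Equiv.sum_comp m.r⁻¹ (fun y => m.pt t x y), ih]
    norm_num

theorem pt_le_one (m : CMap X) (t : ℕ) (x y : X) : m.pt t x y ≤ 1 := by
  rw [← pt_sum m t x]
  exact Finset.single_le_sum (fun y _ => pt_nonneg m t x y) (Finset.mem_univ y)

theorem pt_add (m : CMap X) (s t : ℕ) (x z : X) :
    ∑ y, m.pt s x y * m.pt t y z = m.pt (s + t) x z := by
  classical
  induction t generalizing z with
  | zero => simp [CMap.pt_zero]
  | succ t ih =>
    rw [← add_assoc, CMap.pt_succ m (s + t), ← ih, ← ih, ← ih, ← ih, ← Finset.sum_add_distrib, ← Finset.sum_add_distrib,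
      ← Finset.sum_add_distrib, Finset.sum_div]
    refine Finset.sum_congr rfl fun y _ => ?_
    rw [CMap.pt_succ]
    ring

theorem pt_symm (m : CMap X) (t : ℕ) (x y : X) : m.pt t x y = m.pt t y x := by
  classical
  have h1 : ∀ x y, m.pt 1 x y = m.pt 1 y x := by
    intro x y
    have e1 : (x = y) = (y = x) := propext eq_comm
    have e2 : (x = m.k y) = (y = m.k x) := propext
      ⟨fun h => by rw [h, m.k_k], fun h => by rw [h, m.k_k]⟩
    have e3 : (x = m.r y) = (y = m.r⁻¹ x) := propext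
      ⟨fun h => by rw [h]; exact (m.r.symm_apply_apply y).symm, fun h => by rw [h]; exact (m.r.apply_symm_apply x).symm⟩
    have e4 : (x = m.r⁻¹ y) = (y = m.r x) := propext
      ⟨fun h => by rw [h]; exact (m.r.apply_symm_apply y).symm, fun h => by rw [h]; exact (m.r.symm_apply_apply x).symm⟩
    rw [CMap.pt_succ m 0 x y, CMap.pt_succ m 0 y x]
    simp only [CMap.pt_zero]
    simp only [e1, e2, e3, e4]
    ring
  induction t generalizing x y with
  | zero =>
    rw [CMap.pt_zero, CMap.pt_zero]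
    simp only [eq_comm]
  | succ t ih =>
    rw [← pt_add m t 1 x y, add_comm t 1, ← pt_add m 1 t y x]
    refine Finset.sum_congr rfl fun z _ => ?_
    rw [h1 y z, ih x z, mul_comm]

theorem pt_sum_left (m : CMap X) (t : ℕ) (y : X) : ∑ x, m.pt t x y = 1 := by
  rw [← pt_sum m t y]
  exact Finset.sum_congr rfl fun x _ => pt_symm m t x y

theorem pt_sq (m : CMap X) (t : ℕ) (x : X) : m.pt (2 * t) x x = ∑ y, (m.pt t x y) ^ 2 := by
  rw [two_mul, ← pt_add]
  refine Finset.sum_congr rfl fun y _ => ?_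
  rw [pt_symm m t y x, sq]

private theorem sq_step (m : CMap X) (t : ℕ) (x : X) :
    ∑ y, (m.pt (t + 1) x y) ^ 2 ≤ ∑ y, (m.pt t x y) ^ 2 := by
  have h : ∀ y, (m.pt (t + 1) x y) ^ 2 ≤
      ((m.pt t x y) ^ 2 + (m.pt t x (m.k y)) ^ 2 + (m.pt t x (m.r y)) ^ 2 + (m.pt t x (m.r⁻¹ y)) ^ 2) / 4 := by
    intro y
    rw [CMap.pt_succ]
    generalize m.pt t x y = a
    generalize m.pt t x (m.k y) = b
    generalize m.pt t x (m.r y) = c
    generalize m.pt t x (m.r⁻¹ y) = d
    nlinarith [sq_nonneg (a - b), sq_nonneg (a - c), sq_nonneg (a - d), sq_nonneg (b - c), sq_nonneg (b - d),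
      sq_nonneg (c - d)]
  refine (Finset.sum_le_sum fun y _ => h y).trans (le_of_eq ?_)
  rw [← Finset.sum_div, Finset.sum_add_distrib, Finset.sum_add_distrib, Finset.sum_add_distrib,
    Equiv.sum_comp m.k (fun y => (m.pt t x y) ^ 2), Equiv.sum_comp m.r (fun y => (m.pt t x y) ^ 2),
    Equiv.sum_comp m.r⁻¹ (fun y => (m.pt t x y) ^ 2)]
  ring

theorem pt_even_anti (m : CMap X) (x : X) : Antitone (fun t => m.pt (2 * t) x x) := by
  refine antitone_nat_of_succ_le fun t => ?_
  rw [pt_sq, pt_sq]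
  exact sq_step m t x

theorem pt_odd_le (m : CMap X) (t : ℕ) (x : X) : m.pt (2 * t + 1) x x ≤ m.pt (2 * t) x x := by
  have h0 : 2 * t + 1 = t + (t + 1) := by ring
  rw [h0, ← pt_add, pt_sq]
  have h1 := sq_step m t x
  have h2 : ∑ y, m.pt t x y * m.pt (t + 1) y x ≤ ∑ y, ((m.pt t x y) ^ 2 + (m.pt (t + 1) x y) ^ 2) / 2 := by
    refine Finset.sum_le_sum fun y _ => ?_
    rw [pt_symm m (t + 1) y x]
    nlinarith [sq_nonneg (m.pt t x y - m.pt (t + 1) x y)]
  rw [← Finset.sum_div, Finset.sum_add_distrib] at h2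
  linarith

/-- The equation of the Green function. -/
theorem green_eq (m : CMap X) (T : ℕ) (x v : X) [DecidableEq X] :
    m.green T x v - (∑ i : Fin 4, m.green T x (m.u i v)) / 4 =
      (if x = v then 1 else 0) - m.pt T x v := by
  have h1 : (∑ i : Fin 4, m.green T x (m.u i v)) / 4 = ∑ t ∈ range T, m.pt (t + 1) x v := by
    simp only [CMap.green]
    rw [Finset.sum_comm, Finset.sum_div]
    exact Finset.sum_congr rfl fun t _ => rfl
  rw [h1, CMap.green, ← Finset.sum_sub_distrib, Finset.sum_range_sub' (fun t => m.pt t x v), CMap.pt_zero]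

end UIPQ
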